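import Mathlib

/-!
# Jensen's formula for an entire function, in terms of the logarithmic kernel
-/

set_option autoImplicit false

open MeasureTheory Metric Set Filter Topology
open scoped Real

namespace Pool.Agent.H465.EQ

/-- the logarithmic kernel -/
noncomputable def lk (r : ℝ) (w : ℂ) : ℝ := Real.posLog (r / ‖w‖)

lemma lk_nonneg (r : ℝ) (w : ℂ) : 0 ≤ lk r w := Real.posLog_nonneg

lemma lk_neg (r : ℝ) (w : ℂ) : lk r (-w) = lk r w := by
  unfold lk
  rw [norm_neg]

lemma lk_far {r : ℝ} {w : ℂ} (hr : 0 ≤ r) (h : r ≤ ‖w‖) : lk r w = 0 := by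
  unfold lk
  rw [Real.posLog_eq_zero_iff, abs_of_nonneg (div_nonneg hr (norm_nonneg _))]
  exact div_le_one_of_le₀ h (norm_nonneg _)

lemma lk_near {r : ℝ} {w : ℂ} (hw : w ≠ 0) (h : ‖w‖ ≤ r) : lk r w = Real.log (r * ‖w‖⁻¹) := by
  unfold lk
  have hw' : 0 < ‖w‖ := norm_pos_iff.2 hw
  rw [Real.posLog_eq_log, div_eq_mul_inv]
  rw [abs_of_nonneg (div_nonneg (hw'.le.trans h) (norm_nonneg _)), le_div_iff₀ hw']
  linarith

/-- multiplicity of a zero -/
noncomputable def mu (f : ℂ → ℂ) (u : ℂ) : ℝ := (analyticOrderNatAt f u : ℝ)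

lemma mu_nonneg (f : ℂ → ℂ) (u : ℂ) : 0 ≤ mu f u := Nat.cast_nonneg _

lemma mu_ne {f : ℂ → ℂ} {u : ℂ} (hf : Differentiable ℂ f) (h : mu f u ≠ 0) : f u = 0 := by
  by_contra h0
  apply h
  unfold mu analyticOrderNatAt
  rw [(hf.analyticAt u).analyticOrderAt_eq_zero.2 h0]
  simp

lemma divisor_eq_mu {f : ℂ → ℂ} (hf : Differentiable ℂ f) {c : ℂ} {r : ℝ} {u : ℂ}
    (hu : u ∈ closedBall c r) :
    (MeromorphicOn.divisor f (closedBall c r) u : ℝ) = mu f u := by
  have h1 : AnalyticOnNhd ℂ f (closedBall c r) := fun z _ => hf.analyticAt z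
  rw [MeromorphicOn.AnalyticOnNhd.divisor_apply h1 hu]
  unfold mu analyticOrderNatAt
  cases h : analyticOrderAt f u with
  | top => simp
  | coe n => simp

/-- **Jensen's formula.** -/
theorem jensen {f : ℂ → ℂ} (hf : Differentiable ℂ f) {c : ℂ} {r : ℝ} (hr : 0 < r) (hc : f c ≠ 0) :
    Real.circleAverage (Real.log ‖f ·‖) c r =
      ∑ᶠ u, mu f u * lk r (u - c) + Real.log ‖f c‖ := by
  have h1 : AnalyticOnNhd ℂ f (closedBall c |r|) := fun z _ => hf.analyticAt z
  rw [AnalyticOnNhd.circleAverage_log_norm hr.ne' h1 hc]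
  congr 1
  refine finsum_congr fun u => ?_
  rw [abs_of_pos hr]
  by_cases hu : u ∈ closedBall c r
  · rw [divisor_eq_mu hf hu]
    by_cases huc : u = c
    · subst huc
      have : mu f u = 0 := by
        by_contra h
        exact hc (mu_ne hf h)
      rw [this, zero_mul, zero_mul]
    · rw [lk_near (sub_ne_zero.2 huc) (by rwa [mem_closedBall, dist_eq_norm] at hu),
        norm_sub_rev c u]
  · rw [Function.locallyFinsuppWithin.apply_eq_zero_of_notMem _ hu]
    rw [lk_far hr.le]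
    · simp
    · rw [mem_closedBall, dist_eq_norm, not_le] at hu
      exact hu.le

/-- the zeros in a disc -/
lemma finite_zeros {f : ℂ → ℂ} (hf : Differentiable ℂ f) {z₀ : ℂ} (h0 : f z₀ ≠ 0) (M : ℝ) :
    {u : ℂ | f u = 0 ∧ u ∈ closedBall (0 : ℂ) M}.Finite := by
  have h1 : AnalyticOnNhd ℂ f univ := fun z _ => hf.analyticAt z
  have hcod : f ⁻¹' {0}ᶜ ∈ codiscrete ℂ := by
    have := h1.preimage_zero_mem_codiscrete (x := z₀) h0
    simpa using this
  have hdisc : IsDiscrete (f ⁻¹' {0}) := by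
    have := mem_codiscrete'.1 hcod
    simpa using this.2
  have hclosed : IsClosed (f ⁻¹' {0}) := isClosed_singleton.preimage hf.continuous
  have hK : IsCompact (f ⁻¹' {0} ∩ closedBall (0 : ℂ) M) :=
    (isCompact_closedBall (0 : ℂ) M).inter_left hclosed
  exact hK.finite (hdisc.mono inter_subset_left)

end Pool.Agent.H465.EQ
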