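import Pool.Agent.H465.EQ.A

/-!
# The mean of `log ‖f‖` over a disc
-/

set_option autoImplicit false

open MeasureTheory Metric Set Filter Topology
open scoped Real ENNReal

namespace Pool.Agent.H465.EQ

/-- Jensen's inequality on circles -/
lemma jensen_ineq {f : ℂ → ℂ} (hf : Differentiable ℂ f) {c : ℂ} {r : ℝ} (hr : 0 < r)
    (hc : f c ≠ 0) : Real.log ‖f c‖ ≤ Real.circleAverage (Real.log ‖f ·‖) c r := by
  rw [jensen hf hr hc]
  have : 0 ≤ ∑ᶠ u, mu f u * lk r (u - c) :=
    finsum_nonneg fun u => mul_nonneg (mu_nonneg _ _) (lk_nonneg _ _)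
  linarith

lemma circInt {f : ℂ → ℂ} (hf : Differentiable ℂ f) (c : ℂ) (r : ℝ) :
    CircleIntegrable (Real.log ‖f ·‖) c r :=
  MeromorphicOn.circleIntegrable_log_norm fun z _ => (hf.analyticAt z).meromorphicAt

lemma polar_eq (r θ : ℝ) (c : ℂ) :
    c + Complex.polarCoord.symm (r, θ) = circleMap c r θ := by
  rw [Complex.polarCoord_symm_apply, circleMap]
  simp only [Complex.exp_mul_I, Complex.ofReal_cos, Complex.ofReal_sin]

lemma circ_integral {f : ℂ → ℂ} (hf : Differentiable ℂ f) (c : ℂ) (r : ℝ) :
    IntegrableOn (fun θ => Real.log ‖f (circleMap c r θ)‖) (Ioo (-π) π) ∧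
    ∫ θ in Ioo (-π) π, Real.log ‖f (circleMap c r θ)‖ =
      2 * π * Real.circleAverage (Real.log ‖f ·‖) c r := by
  have hci := circInt hf c r
  have hper : (fun θ => Real.log ‖f (circleMap c r θ)‖).Periodic (2 * π) :=
    fun x => by simp [periodic_circleMap c r x]
  have h1 : IntervalIntegrable (fun θ => Real.log ‖f (circleMap c r θ)‖) volume (-π) (-π + 2 * π) := by
    have h2 : IntervalIntegrable (fun θ => Real.log ‖f (circleMap c r θ)‖) volume 0 (0 + 2 * π) := by
      rw [zero_add]
      exact hci
    exact (hper.intervalIntegrable (by positivity) h2) _ _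
  have e1 : -π + 2 * π = π := by ring
  rw [e1] at h1
  have h3 : IntegrableOn (fun θ => Real.log ‖f (circleMap c r θ)‖) (Ioc (-π) π) :=
    (intervalIntegrable_iff_integrableOn_Ioc_of_le (by linarith [Real.pi_pos])).1 h1
  refine ⟨h3.mono_set Ioo_subset_Ioc_self, ?_⟩
  rw [← integral_Ioc_eq_integral_Ioo, ← intervalIntegral.integral_of_le (by linarith [Real.pi_pos])]
  have h4 := hper.intervalIntegral_add_eq (-π) 0
  rw [e1, zero_add] at h4
  rw [h4, Real.circleAverage_def, smul_eq_mul, ← mul_assoc, mul_inv_cancel₀ (by positivity),
    one_mul]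

/-- **The mean over a disc.** -/
theorem disc_L1 {f : ℂ → ℂ} (hf : Differentiable ℂ f) {c : ℂ} {r M : ℝ} (hr : 0 < r)
    (hc : f c ≠ 0) (hM : 0 ≤ M) (hb : ∀ z ∈ ball c r, Real.log ‖f z‖ ≤ M) :
    IntegrableOn (fun z => Real.log ‖f z‖) (ball c r) ∧
      ∫ z in ball c r, |Real.log ‖f z‖| ≤ π * r ^ 2 * (2 * M - Real.log ‖f c‖) := by
  have hmeas : Measurable fun z => Real.log ‖f z‖ :=
    Real.measurable_log.comp (hf.continuous.norm.measurable)
  set h : ℂ → ℝ := fun z => M - Real.log ‖f z‖ with hh
  have hhm : Measurable h := measurable_const.sub hmeas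
  have hL : Real.log ‖f c‖ ≤ M := hb c (mem_ball_self hr)
  -- the lower integral
  have key : ∫⁻ z in ball c r, ENNReal.ofReal (h z) ≤
      ENNReal.ofReal (π * r ^ 2 * (M - Real.log ‖f c‖)) := by
    have e1 : ∫⁻ z in ball c r, ENNReal.ofReal (h z) =
        ∫⁻ z, (ball (0 : ℂ) r).indicator (fun z => ENNReal.ofReal (h (c + z))) z := by
      rw [← lintegral_indicator measurableSet_ball,
        ← lintegral_add_left_eq_self _ c]
      refine lintegral_congr fun z => ?_
      by_cases hz : z ∈ ball (0 : ℂ) r
      · have hz' : c + z ∈ ball c r := by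
          rw [mem_ball, dist_eq_norm] at hz ⊢
          simpa using hz
        rw [indicator_of_mem hz', indicator_of_mem hz]
      · have hz' : c + z ∉ ball c r := by
          intro h'
          apply hz
          rw [mem_ball, dist_eq_norm] at h' ⊢
          simpa using h'
        rw [indicator_of_notMem hz', indicator_of_notMem hz]
    rw [e1, ← Complex.lintegral_comp_polarCoord_symm]
    have hF : Measurable fun p : ℝ × ℝ => ENNReal.ofReal p.1 •
        (ball (0 : ℂ) r).indicator (fun z => ENNReal.ofReal (h (c + z)))
          (Complex.polarCoord.symm p) := by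
      have h1 : Measurable fun p : ℝ × ℝ => Complex.polarCoord.symm p := by
        have : (fun p : ℝ × ℝ => Complex.polarCoord.symm p) =
            fun p : ℝ × ℝ => (p.1 : ℂ) * (Real.cos p.2 + Real.sin p.2 * Complex.I) := by
          funext p
          rw [Complex.polarCoord_symm_apply]
        rw [this]
        fun_prop
      have h2 : Measurable ((ball (0 : ℂ) r).indicator (fun z => ENNReal.ofReal (h (c + z)))) := by
        refine Measurable.indicator ?_ measurableSet_ball
        exact ENNReal.measurable_ofReal.comp (hhm.comp (measurable_const.add measurable_id))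
      have h3 : Measurable fun p : ℝ × ℝ => ENNReal.ofReal p.1 :=
        ENNReal.measurable_ofReal.comp measurable_fst
      exact h3.mul (h2.comp h1)
    rw [show polarCoord.target = Ioi (0 : ℝ) ×ˢ Ioo (-π) π from rfl, Measure.volume_eq_prod,
      setLIntegral_prod _ hF.aemeasurable]
    calc ∫⁻ x in Ioi (0 : ℝ), ∫⁻ y in Ioo (-π) π, ENNReal.ofReal (x, y).1 •
          (ball (0 : ℂ) r).indicator (fun z => ENNReal.ofReal (h (c + z)))
            (Complex.polarCoord.symm (x, y))
        ≤ ∫⁻ x in Ioi (0 : ℝ), (Iio r).indicator
            (fun x => ENNReal.ofReal (x * (2 * π * (M - Real.log ‖f c‖)))) x := by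
          refine setLIntegral_mono' measurableSet_Ioi fun x hx => ?_
          rw [mem_Ioi] at hx
          by_cases hxr : x < r
          · rw [indicator_of_mem (show x ∈ Iio r from hxr)]
            have e2 : ∀ y : ℝ, (ball (0 : ℂ) r).indicator (fun z => ENNReal.ofReal (h (c + z)))
                (Complex.polarCoord.symm (x, y)) = ENNReal.ofReal (h (circleMap c x y)) := by
              intro y
              rw [indicator_of_mem, polar_eq]
              rw [mem_ball_zero_iff, Complex.norm_polarCoord_symm, abs_of_pos hx]
              exact hxr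
            simp only [e2, smul_eq_mul]
            have hmc : Measurable fun y : ℝ => ENNReal.ofReal (h (circleMap c x y)) :=
              ENNReal.measurable_ofReal.comp (hhm.comp (continuous_circleMap c x).measurable)
            rw [lintegral_const_mul _ hmc, ENNReal.ofReal_mul hx.le]
            refine mul_le_mul_right ?_ _
            obtain ⟨hi1, hi2⟩ := circ_integral hf c x
            have hi0 : IntegrableOn (fun _ : ℝ => M) (Ioo (-π) π) := integrableOn_const (by simp)
            have hi3 : IntegrableOn (fun θ => h (circleMap c x θ)) (Ioo (-π) π) := hi0.sub hi1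
            rw [← ofReal_integral_eq_lintegral_ofReal hi3 ?_]
            · refine ENNReal.ofReal_le_ofReal ?_
              rw [hh]
              simp only
              rw [integral_sub hi0 hi1, hi2, setIntegral_const]
              have hj := jensen_ineq hf hx hc
              have hvol : (volume : Measure ℝ).real (Ioo (-π) π) = 2 * π := by
                rw [Measure.real, Real.volume_Ioo, ENNReal.toReal_ofReal (by linarith [Real.pi_pos])]
                ring
              rw [hvol, smul_eq_mul]
              have hp := Real.pi_pos
              nlinarith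
            · refine (ae_restrict_iff' measurableSet_Ioo).2 (Eventually.of_forall fun θ _ => ?_)
              have : circleMap c x θ ∈ ball c r := by
                rw [mem_ball, dist_eq_norm, circleMap_sub_center, norm_circleMap_zero, abs_of_pos hx]
                exact hxr
              have := hb _ this
              simp only [hh, Pi.zero_apply]
              linarith
          · rw [indicator_of_notMem (show x ∉ Iio r from hxr)]
            have e2 : ∀ y : ℝ, (ball (0 : ℂ) r).indicator (fun z => ENNReal.ofReal (h (c + z)))
                (Complex.polarCoord.symm (x, y)) = 0 := by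
              intro y
              rw [indicator_of_notMem]
              rw [mem_ball_zero_iff, Complex.norm_polarCoord_symm, abs_of_pos hx]
              exact hxr
            simp only [e2, smul_eq_mul, mul_zero, lintegral_zero, le_refl]
      _ = ENNReal.ofReal (π * r ^ 2 * (M - Real.log ‖f c‖)) := by
          rw [lintegral_indicator measurableSet_Iio, Measure.restrict_restrict measurableSet_Iio]
          have e3 : Iio r ∩ Ioi (0 : ℝ) = Ioo 0 r := by
            ext x; simp [and_comm]
          rw [e3, ← ofReal_integral_eq_lintegral_ofReal]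
          · congr 1
            rw [integral_mul_const, ← integral_Ioc_eq_integral_Ioo,
              ← intervalIntegral.integral_of_le hr.le, integral_id]
            ring
          · refine Integrable.mul_const ?_ _
            exact (continuous_id.integrableOn_Icc (a := 0) (b := r)).mono_set Ioo_subset_Icc_self
          · refine (ae_restrict_iff' measurableSet_Ioo).2 (Eventually.of_forall fun x hx => ?_)
            have hp := Real.pi_pos
            have hx0 := hx.1
            have : 0 ≤ M - Real.log ‖f c‖ := by linarith
            simp only [Pi.zero_apply]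
            positivity
  have hnn : 0 ≤ᵐ[volume.restrict (ball c r)] h := by
    refine (ae_restrict_iff' measurableSet_ball).2 (Eventually.of_forall fun z hz => ?_)
    have := hb z hz
    simp only [hh, Pi.zero_apply]
    linarith
  have hint : IntegrableOn h (ball c r) := by
    refine ⟨hhm.aestronglyMeasurable, ?_⟩
    rw [hasFiniteIntegral_iff_ofReal hnn]
    exact key.trans_lt ENNReal.ofReal_lt_top
  have hvb : (volume : Measure ℂ) (ball c r) < ∞ := measure_ball_lt_top
  have hcint : IntegrableOn (fun _ : ℂ => M) (ball c r) := integrableOn_const hvb.ne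
  have hlog : IntegrableOn (fun z => Real.log ‖f z‖) (ball c r) := by
    have := hcint.sub hint
    refine this.congr (Eventually.of_forall fun z => ?_)
    simp [hh]
  refine ⟨hlog, ?_⟩
  have hI : ∫ z in ball c r, h z ≤ π * r ^ 2 * (M - Real.log ‖f c‖) := by
    rw [integral_eq_lintegral_of_nonneg_ae hnn hhm.aestronglyMeasurable]
    refine ENNReal.toReal_le_of_le_ofReal ?_ key
    have hp := Real.pi_pos
    have : 0 ≤ M - Real.log ‖f c‖ := by linarith
    positivity
  have hvol : (volume : Measure ℂ).real (ball c r) = π * r ^ 2 := by
    rw [Measure.real, Complex.volume_ball, ENNReal.toReal_mul, ← ENNReal.ofReal_pow hr.le,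
      ENNReal.toReal_ofReal (by positivity)]
    simp
    ring
  calc ∫ z in ball c r, |Real.log ‖f z‖| ≤ ∫ z in ball c r, (h z + M) := by
        refine setIntegral_mono_on hlog.abs (hint.add hcint) measurableSet_ball fun z hz => ?_
        have h1 := hb z hz
        simp only [hh]
        rcases abs_cases (Real.log ‖f z‖) with ⟨h2, _⟩ | ⟨h2, _⟩ <;> rw [h2] <;> linarith
    _ = (∫ z in ball c r, h z) + M * (π * r ^ 2) := by
        rw [integral_add hint hcint, setIntegral_const, hvol, smul_eq_mul, mul_comm M]
    _ ≤ _ := by nlinarith

end Pool.Agent.H465.EQ
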