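import Pool.Agent.H465.EQ.B

/-!
# Circle averages are symmetric operators
-/

set_option autoImplicit false

open MeasureTheory Metric Set Filter Topology
open scoped Real ENNReal

namespace Pool.Agent.H465.EQ

lemma circleMap_eq (c : ℂ) (r θ : ℝ) : circleMap c r θ = c + circleMap 0 r θ := by
  simp [circleMap]

lemma ca_def (U : ℂ → ℝ) (c : ℂ) (r : ℝ) : Real.circleAverage U c r =
    (2 * π)⁻¹ * ∫ θ in Ioc 0 (2 * π), U (c + circleMap 0 r θ) := by
  rw [Real.circleAverage_def, intervalIntegral.integral_of_le (by positivity), smul_eq_mul]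
  simp only [circleMap_eq c r]

lemma ca_def' (U : ℂ → ℝ) (c : ℂ) (r : ℝ) : Real.circleAverage U c r =
    (2 * π)⁻¹ * ∫ θ in Ioc 0 (2 * π), U (c - circleMap 0 r θ) := by
  rw [← Real.circleAverage_neg_radius, ca_def]
  congr 2
  funext θ
  congr 1
  simp [circleMap]
  ring

/-- **Symmetry.** -/
theorem fub {U g : ℂ → ℝ} (hUm : Measurable U) (hU : LocallyIntegrable U) (hg : Continuous g)
    (hgc : HasCompactSupport g) (r : ℝ) :
    ∫ c, g c * Real.circleAverage U c r = ∫ z, U z * Real.circleAverage g z r := by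
  set w : ℝ → ℂ := fun θ => circleMap 0 r θ with hw
  have hwc : Continuous w := continuous_circleMap 0 r
  set μ : Measure ℝ := volume.restrict (Ioc 0 (2 * π)) with hμ
  obtain ⟨M, hM⟩ := hgc.isCompact.isBounded.subset_closedBall (0 : ℂ)
  obtain ⟨C, hC⟩ := hgc.exists_bound_of_continuous hg
  have hC0 : 0 ≤ C := (norm_nonneg _).trans (hC 0)
  have hg0 : ∀ c : ℂ, c ∉ closedBall (0 : ℂ) M → g c = 0 := fun c hc =>
    image_eq_zero_of_notMem_tsupport fun h => hc (hM h)
  set K : Set ℂ := closedBall (0 : ℂ) (M + |r|) with hK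
  have hUK : IntegrableOn U K := hU.integrableOn_isCompact (isCompact_closedBall _ _)
  -- the dominating function
  have hdom : ∀ (z : ℂ) (θ : ℝ), ‖g (z - w θ) * U z‖ ≤ C * K.indicator (fun z => |U z|) z := by
    intro z θ
    by_cases hz : z ∈ K
    · rw [indicator_of_mem hz, norm_mul, Real.norm_eq_abs (U z)]
      exact mul_le_mul_of_nonneg_right (hC _) (abs_nonneg _)
    · have : g (z - w θ) = 0 := by
        refine hg0 _ fun h => hz ?_
        rw [mem_closedBall_zero_iff] at h ⊢
        calc ‖z‖ = ‖(z - w θ) + w θ‖ := by rw [sub_add_cancel]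
          _ ≤ ‖z - w θ‖ + ‖w θ‖ := norm_add_le _ _
          _ ≤ M + |r| := by
            have : ‖w θ‖ = |r| := norm_circleMap_zero r θ
            linarith
      rw [this, zero_mul, norm_zero, indicator_of_notMem hz, mul_zero]
  have hiK : Integrable (K.indicator (fun z => |U z|)) := by
    rw [integrable_indicator_iff measurableSet_closedBall]
    exact hUK.abs
  have hm2 : Measurable fun p : ℂ × ℝ => g (p.1 - w p.2) * U p.1 := by
    refine Measurable.mul ?_ (hUm.comp measurable_fst)
    exact (hg.comp (continuous_fst.sub (hwc.comp continuous_snd))).measurable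
  have hI2 : Integrable (fun p : ℂ × ℝ => g (p.1 - w p.2) * U p.1) (volume.prod μ) := by
    have h1 : Integrable (fun p : ℂ × ℝ => C * K.indicator (fun z => |U z|) p.1)
        (volume.prod μ) := (hiK.const_mul C).comp_fst μ
    exact h1.mono' hm2.aestronglyMeasurable (Eventually.of_forall fun p => hdom p.1 p.2)
  have hm1 : Measurable fun p : ℂ × ℝ => g p.1 * U (p.1 + w p.2) := by
    refine Measurable.mul (hg.measurable.comp measurable_fst) (hUm.comp ?_)
    exact (continuous_fst.add (hwc.comp continuous_snd)).measurable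
  have hslice : ∀ θ : ℝ, Integrable (fun z => g (z - w θ) * U z) := by
    intro θ
    refine (hiK.const_mul C).mono' ?_ (Eventually.of_forall fun z => hdom z θ)
    exact ((hg.comp (continuous_id.sub continuous_const)).measurable.mul hUm).aestronglyMeasurable
  have hsh : ∀ θ : ℝ, (fun c => g c * U (c + w θ)) = fun c => (fun z => g (z - w θ) * U z) (c + w θ) := by
    intro θ
    funext c
    simp
  have hI1 : Integrable (fun p : ℂ × ℝ => g p.1 * U (p.1 + w p.2)) (volume.prod μ) := by
    rw [integrable_prod_iff' hm1.aestronglyMeasurable]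
    refine ⟨Eventually.of_forall fun θ => ?_, ?_⟩
    · show Integrable fun c => g c * U (c + w θ)
      rw [hsh]
      exact (hslice θ).comp_add_right (w θ)
    · have hb : ∀ θ : ℝ, ‖∫ c, ‖g c * U (c + w θ)‖‖ ≤ ∫ z, C * K.indicator (fun z => |U z|) z := by
        intro θ
        rw [Real.norm_eq_abs, abs_of_nonneg (integral_nonneg fun _ => norm_nonneg _)]
        have e1 : ∫ c, ‖g c * U (c + w θ)‖ = ∫ z, ‖g (z - w θ) * U z‖ := by
          rw [← integral_add_right_eq_self (fun z => ‖g (z - w θ) * U z‖) (w θ)]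
          simp
        rw [e1]
        exact integral_mono (hslice θ).norm (hiK.const_mul C) fun z => hdom z θ
      have : IsFiniteMeasure μ := ⟨by
        rw [hμ, Measure.restrict_apply_univ, Real.volume_Ioc]
        exact ENNReal.ofReal_lt_top⟩
      refine Integrable.mono' (integrable_const _) ?_ (Eventually.of_forall hb)
      exact ((hm1.comp measurable_swap).aestronglyMeasurable
        (μ := μ.prod (volume : Measure ℂ))).norm.integral_prod_right'
  have e2 : ∀ c, g c * Real.circleAverage U c r =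
      (2 * π)⁻¹ * ∫ θ, g c * U (c + w θ) ∂μ := by
    intro c
    rw [ca_def, integral_const_mul]
    ring
  have e3 : ∀ z, U z * Real.circleAverage g z r =
      (2 * π)⁻¹ * ∫ θ, g (z - w θ) * U z ∂μ := by
    intro z
    rw [ca_def', integral_mul_const]
    ring
  simp only [e2, e3]
  rw [integral_const_mul, integral_const_mul]
  congr 1
  rw [integral_integral_swap (f := fun c θ => g c * U (c + w θ)) hI1,
    integral_integral_swap (f := fun z θ => g (z - w θ) * U z) hI2]
  refine integral_congr_ae (Eventually.of_forall fun θ => ?_)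
  show ∫ c, g c * U (c + w θ) = ∫ z, g (z - w θ) * U z
  rw [← integral_add_right_eq_self (fun z => g (z - w θ) * U z) (w θ)]
  simp

lemma measurable_log {f : ℂ → ℂ} (hf : Differentiable ℂ f) :
    Measurable fun z => Real.log ‖f z‖ :=
  Real.measurable_log.comp (hf.continuous.norm.measurable)

/-- `log ‖f‖` is locally integrable -/
theorem locInt {f : ℂ → ℂ} (hf : Differentiable ℂ f) {z₀ : ℂ} (h0 : f z₀ ≠ 0) :
    LocallyIntegrable fun z => Real.log ‖f z‖ := by
  intro z
  set r : ℝ := ‖z - z₀‖ + 1 with hr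
  have hr0 : 0 < r := by positivity
  obtain ⟨B, hB⟩ := (isCompact_closedBall z₀ r).exists_bound_of_continuousOn
    (f := f) hf.continuous.continuousOn
  have h1 : ∀ w ∈ ball z₀ r, Real.log ‖f w‖ ≤ max 0 (Real.log B) := by
    intro w hw
    have h2 := hB w (ball_subset_closedBall hw)
    rcases eq_or_ne (f w) 0 with h3 | h3
    · rw [h3, norm_zero, Real.log_zero]
      exact le_max_left _ _
    · exact (Real.log_le_log (norm_pos_iff.2 h3) h2).trans (le_max_right _ _)
  obtain ⟨h2, -⟩ := disc_L1 hf hr0 h0 (le_max_left _ _) h1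
  refine ⟨ball z₀ r, isOpen_ball.mem_nhds ?_, h2⟩
  rw [mem_ball, dist_eq_norm]
  linarith

lemma countable_zeros {f : ℂ → ℂ} (hf : Differentiable ℂ f) {z₀ : ℂ} (h0 : f z₀ ≠ 0) :
    {u : ℂ | f u = 0}.Countable := by
  have : {u : ℂ | f u = 0} ⊆ ⋃ n : ℕ, {u : ℂ | f u = 0 ∧ u ∈ closedBall (0 : ℂ) n} := by
    intro u hu
    obtain ⟨n, hn⟩ := exists_nat_ge ‖u‖
    exact mem_iUnion.2 ⟨n, hu, by rwa [mem_closedBall_zero_iff]⟩
  exact (countable_iUnion fun n : ℕ => (finite_zeros hf h0 n).countable).mono this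

lemma ae_ne {f : ℂ → ℂ} (hf : Differentiable ℂ f) {z₀ : ℂ} (h0 : f z₀ ≠ 0) :
    ∀ᵐ c : ℂ, f c ≠ 0 := by
  have := (countable_zeros hf h0).ae_notMem (volume : Measure ℂ)
  filter_upwards [this] with c hc h using hc h

end Pool.Agent.H465.EQ
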