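import Pool.Agent.H465.EQ.C

/-!
# Sums over the zeros of an entire function
-/

set_option autoImplicit false

open MeasureTheory Metric Set Filter Topology
open scoped Real ENNReal

namespace Pool.Agent.H465.EQ

lemma measurable_lk (r : ℝ) : Measurable (lk r) := by
  unfold lk Real.posLog
  refine Measurable.max measurable_const ?_
  exact Real.measurable_log.comp (measurable_const.div measurable_norm)

lemma lk_le {r : ℝ} (hr : 0 < r) (w : ℂ) :
    lk r w ≤ (closedBall (0 : ℂ) r).indicator (fun w => |Real.log r| + |Real.log ‖w‖|) w := by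
  by_cases hw : w ∈ closedBall (0 : ℂ) r
  · rw [indicator_of_mem hw]
    by_cases h0 : w = 0
    · subst h0
      unfold lk
      simp only [norm_zero, div_zero, Real.posLog_zero]
      positivity
    · unfold lk Real.posLog
      have hw0 : 0 < ‖w‖ := norm_pos_iff.2 h0
      refine max_le (by positivity) ?_
      rw [Real.log_div hr.ne' hw0.ne']
      have := le_abs_self (Real.log r)
      have := neg_abs_le (Real.log ‖w‖)
      linarith
  · rw [indicator_of_notMem hw, lk_far hr.le]
    rw [mem_closedBall_zero_iff, not_le] at hw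
    exact hw.le

lemma integrable_lk {r : ℝ} (hr : 0 < r) : Integrable (lk r) := by
  have h1 : LocallyIntegrable fun z : ℂ => Real.log ‖z‖ :=
    locInt (f := fun z => z) differentiable_id (z₀ := 1) one_ne_zero
  have h2 : IntegrableOn (fun w : ℂ => |Real.log r| + |Real.log ‖w‖|) (closedBall (0 : ℂ) r) := by
    refine Integrable.add (integrableOn_const (measure_closedBall_lt_top.ne)) ?_
    exact (h1.integrableOn_isCompact (isCompact_closedBall _ _)).abs
  have h3 := (integrable_indicator_iff measurableSet_closedBall).2 h2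
  refine h3.mono' (measurable_lk r).aestronglyMeasurable (Eventually.of_forall fun w => ?_)
  rw [Real.norm_eq_abs, abs_of_nonneg (lk_nonneg _ _)]
  exact lk_le hr w

/-- the difference of two kernels -/
noncomputable def kk (r₁ r₂ : ℝ) (w : ℂ) : ℝ := lk r₂ w - lk r₁ w

lemma integrable_kk {r₁ r₂ : ℝ} (h1 : 0 < r₁) (h2 : 0 < r₂) : Integrable (kk r₁ r₂) :=
  (integrable_lk h2).sub (integrable_lk h1)

lemma kk_nonneg {r₁ r₂ : ℝ} (h1 : 0 < r₁) (h2 : r₁ ≤ r₂) (w : ℂ) : 0 ≤ kk r₁ r₂ w := by
  unfold kk lk
  rw [sub_nonneg]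
  refine Real.posLog_le_posLog (div_nonneg h1.le (norm_nonneg _)) ?_
  exact div_le_div_of_nonneg_right h2 (norm_nonneg _)

lemma kk_far {r₁ r₂ : ℝ} {w : ℂ} (h1 : 0 < r₁) (h2 : r₁ ≤ r₂) (h : r₂ ≤ ‖w‖) :
    kk r₁ r₂ w = 0 := by
  unfold kk
  rw [lk_far (h1.le.trans h2) h, lk_far h1.le (h2.trans h), sub_zero]

/-- the smoothed function -/
noncomputable def Gc (r₁ r₂ : ℝ) (g : ℂ → ℝ) (u : ℂ) : ℝ := ∫ c, g c * kk r₁ r₂ (u - c)

lemma integrable_g_kk {g : ℂ → ℝ} (hg : Continuous g) (hgc : HasCompactSupport g) {r₁ r₂ : ℝ}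
    (h1 : 0 < r₁) (h2 : 0 < r₂) (u : ℂ) : Integrable fun c => g c * kk r₁ r₂ (u - c) := by
  obtain ⟨C, hC⟩ := hgc.exists_bound_of_continuous hg
  have h3 : Integrable fun c => kk r₁ r₂ (u - c) := (integrable_kk h1 h2).comp_sub_left u
  exact h3.bdd_mul hg.aestronglyMeasurable (Eventually.of_forall hC)

lemma integrable_U_ca {U g : ℂ → ℝ} (hU : LocallyIntegrable U) (hg : Continuous g)
    (hgc : HasCompactSupport g) (r : ℝ) : Integrable fun z => U z * Real.circleAverage g z r := by
  obtain ⟨M, hM⟩ := hgc.isCompact.isBounded.subset_closedBall (0 : ℂ)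
  obtain ⟨C, hC⟩ := hgc.exists_bound_of_continuous hg
  have hC0 : 0 ≤ C := (norm_nonneg _).trans (hC 0)
  have hg0 : ∀ c : ℂ, c ∉ closedBall (0 : ℂ) M → g c = 0 := fun c hc =>
    image_eq_zero_of_notMem_tsupport fun h => hc (hM h)
  have hcont : Continuous fun z => Real.circleAverage g z r := by
    simp only [ca_def]
    refine continuous_const.mul ?_
    refine continuous_of_dominated (bound := fun _ => C) ?_ ?_ ?_ ?_
    · intro z
      exact (hg.comp (continuous_const.add (continuous_circleMap 0 r))).aestronglyMeasurable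
    · intro z
      exact Eventually.of_forall fun θ => hC _
    · exact integrableOn_const (by rw [Real.volume_Ioc]; exact ENNReal.ofReal_ne_top)
    · exact Eventually.of_forall fun θ => hg.comp (continuous_id.add continuous_const)
  have hz : ∀ z : ℂ, z ∉ closedBall (0 : ℂ) (M + |r|) → Real.circleAverage g z r = 0 := by
    intro z hz
    rw [ca_def]
    have : ∀ θ : ℝ, g (z + circleMap 0 r θ) = 0 := by
      intro θ
      refine hg0 _ fun h => hz ?_
      rw [mem_closedBall_zero_iff] at h ⊢
      calc ‖z‖ = ‖(z + circleMap 0 r θ) - circleMap 0 r θ‖ := by rw [add_sub_cancel_right]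
        _ ≤ ‖z + circleMap 0 r θ‖ + ‖circleMap 0 r θ‖ := norm_sub_le _ _
        _ ≤ M + |r| := by
          have : ‖circleMap 0 r θ‖ = |r| := norm_circleMap_zero r θ
          linarith
    simp [this]
  have h1 : IntegrableOn U (closedBall (0 : ℂ) (M + |r|)) :=
    hU.integrableOn_isCompact (isCompact_closedBall _ _)
  have h2 : IntegrableOn (fun z => U z * Real.circleAverage g z r)
      (closedBall (0 : ℂ) (M + |r|)) :=
    h1.mul_continuousOn hcont.continuousOn (isCompact_closedBall _ _)
  refine (integrableOn_iff_integrable_of_support_subset ?_).1 h2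
  intro z hz'
  by_contra h
  exact hz' (by simp only [hz z h, mul_zero])

/-- **The sum over the zeros.** -/
theorem zsum {f : ℂ → ℂ} (hf : Differentiable ℂ f) {z₀ : ℂ} (h0 : f z₀ ≠ 0) {g : ℂ → ℝ}
    (hg : Continuous g) (hgc : HasCompactSupport g) {r₁ r₂ : ℝ} (h1 : 0 < r₁) (h2 : r₁ ≤ r₂) :
    ∑ᶠ u, mu f u * Gc r₁ r₂ g u =
      ∫ z, Real.log ‖f z‖ * (Real.circleAverage g z r₂ - Real.circleAverage g z r₁) := by
  have h2' : 0 < r₂ := h1.trans_le h2
  obtain ⟨M, hM⟩ := hgc.isCompact.isBounded.subset_closedBall (0 : ℂ)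
  have hg0 : ∀ c : ℂ, c ∉ closedBall (0 : ℂ) M → g c = 0 := fun c hc =>
    image_eq_zero_of_notMem_tsupport fun h => hc (hM h)
  set Z : Finset ℂ := (finite_zeros hf h0 (M + r₂)).toFinset with hZ
  have hL := locInt hf h0
  have hLm := measurable_log hf
  -- the left side
  have hGc0 : ∀ u : ℂ, u ∉ closedBall (0 : ℂ) (M + r₂) → Gc r₁ r₂ g u = 0 := by
    intro u hu
    unfold Gc
    refine integral_eq_zero_of_ae (Eventually.of_forall fun c => ?_)
    simp only [Pi.zero_apply]
    by_cases hc : c ∈ closedBall (0 : ℂ) M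
    · rw [kk_far h1 h2, mul_zero]
      rw [mem_closedBall_zero_iff] at hc hu
      have : ‖u‖ ≤ ‖u - c‖ + ‖c‖ := by
        calc ‖u‖ = ‖(u - c) + c‖ := by rw [sub_add_cancel]
          _ ≤ _ := norm_add_le _ _
      push Not at hu
      linarith
    · rw [hg0 c hc, zero_mul]
  have e1 : ∑ᶠ u, mu f u * Gc r₁ r₂ g u = ∑ u ∈ Z, mu f u * Gc r₁ r₂ g u := by
    refine finsum_eq_sum_of_support_subset _ fun u hu => ?_
    rw [Function.mem_support] at hu
    rw [hZ, Finite.coe_toFinset]
    refine ⟨mu_ne hf (left_ne_zero_of_mul hu), ?_⟩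
    by_contra h
    exact hu (by rw [hGc0 u h, mul_zero])
  have e2 : ∀ᵐ c, g c * (Real.circleAverage (Real.log ‖f ·‖) c r₂ -
      Real.circleAverage (Real.log ‖f ·‖) c r₁) = ∑ u ∈ Z, mu f u * (g c * kk r₁ r₂ (u - c)) := by
    filter_upwards [ae_ne hf h0] with c hc
    by_cases hcM : c ∈ closedBall (0 : ℂ) M
    · rw [jensen hf h2' hc, jensen hf h1 hc]
      have hs : ∀ r : ℝ, 0 < r → r ≤ r₂ →
          ∑ᶠ u, mu f u * lk r (u - c) = ∑ u ∈ Z, mu f u * lk r (u - c) := by
        intro r hr0 hr
        refine finsum_eq_sum_of_support_subset _ fun u hu => ?_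
        rw [Function.mem_support] at hu
        rw [hZ, Finite.coe_toFinset]
        refine ⟨mu_ne hf (left_ne_zero_of_mul hu), ?_⟩
        by_contra h
        refine hu ?_
        rw [lk_far hr0.le, mul_zero]
        rw [mem_closedBall_zero_iff] at hcM h
        have : ‖u‖ ≤ ‖u - c‖ + ‖c‖ := by
          calc ‖u‖ = ‖(u - c) + c‖ := by rw [sub_add_cancel]
            _ ≤ _ := norm_add_le _ _
        push Not at h
        linarith
      rw [hs r₂ h2' le_rfl, hs r₁ h1 h2, add_sub_add_right_eq_sub, ← Finset.sum_sub_distrib,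
        Finset.mul_sum]
      refine Finset.sum_congr rfl fun u _ => ?_
      unfold kk
      ring
    · rw [hg0 c hcM]
      simp
  have hkey : ∫ c, g c * (Real.circleAverage (Real.log ‖f ·‖) c r₂ -
      Real.circleAverage (Real.log ‖f ·‖) c r₁) = ∑ u ∈ Z, mu f u * Gc r₁ r₂ g u := by
    rw [integral_congr_ae e2, integral_finsetSum]
    · refine Finset.sum_congr rfl fun u _ => ?_
      rw [integral_const_mul]
      rfl
    · intro u _
      exact (integrable_g_kk hg hgc h1 h2' u).const_mul _
  rw [e1, ← hkey]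
  have hsplit : ∀ z, Real.log ‖f z‖ * (Real.circleAverage g z r₂ - Real.circleAverage g z r₁) =
      Real.log ‖f z‖ * Real.circleAverage g z r₂ - Real.log ‖f z‖ * Real.circleAverage g z r₁ :=
    fun z => by ring
  simp only [hsplit]
  rw [integral_sub (integrable_U_ca hL hg hgc r₂) (integrable_U_ca hL hg hgc r₁)]
  rw [← fub hLm hL hg hgc r₂, ← fub hLm hL hg hgc r₁]
  have hi : ∀ r : ℝ, 0 < r → r ≤ r₂ →
      Integrable fun c => g c * Real.circleAverage (Real.log ‖f ·‖) c r := by
    intro r hr hrr
    have hs : ∀ᵐ c, ∑ u ∈ Z, mu f u * (g c * lk r (u - c)) + g c * Real.log ‖f c‖ =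
        g c * Real.circleAverage (Real.log ‖f ·‖) c r := by
      filter_upwards [ae_ne hf h0] with c hc
      by_cases hcM : c ∈ closedBall (0 : ℂ) M
      · rw [jensen hf hr hc, mul_add]
        congr 1
        rw [finsum_eq_sum_of_support_subset (s := Z) _ fun u hu => ?_]
        · rw [Finset.mul_sum]
          exact Finset.sum_congr rfl fun u _ => by ring
        · rw [Function.mem_support] at hu
          rw [hZ, Finite.coe_toFinset]
          refine ⟨mu_ne hf (left_ne_zero_of_mul hu), ?_⟩
          by_contra h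
          refine hu ?_
          rw [lk_far hr.le, mul_zero]
          rw [mem_closedBall_zero_iff] at hcM h
          have : ‖u‖ ≤ ‖u - c‖ + ‖c‖ := by
            calc ‖u‖ = ‖(u - c) + c‖ := by rw [sub_add_cancel]
              _ ≤ _ := norm_add_le _ _
          push Not at h
          linarith
      · rw [hg0 c hcM]
        simp
    refine Integrable.congr ?_ hs
    obtain ⟨C, hC⟩ := hgc.exists_bound_of_continuous hg
    refine Integrable.add ?_ ?_
    · refine integrable_finsetSum _ fun u _ => Integrable.const_mul ?_ _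
      exact ((integrable_lk hr).comp_sub_left u).bdd_mul hg.aestronglyMeasurable
        (Eventually.of_forall hC)
    · have h3 : IntegrableOn (fun c => g c * Real.log ‖f c‖) (closedBall (0 : ℂ) M) := by
        have := hL.integrableOn_isCompact (isCompact_closedBall (0 : ℂ) M)
        exact this.bdd_mul hg.aestronglyMeasurable.restrict (Eventually.of_forall hC)
      refine (integrableOn_iff_integrable_of_support_subset ?_).1 h3
      intro z hz'
      by_contra h
      exact hz' (by simp only [hg0 z h, zero_mul])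
  rw [← integral_sub (hi r₂ h2' le_rfl) (hi r₁ h1 h2)]
  refine integral_congr_ae (Eventually.of_forall fun c => ?_)
  simp only
  ring

end Pool.Agent.H465.EQ
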