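import Pool.Agent.H465.EQ.D

/-!
# The model: a uniform distribution on the line `Re s = 1/2`
-/

set_option autoImplicit false

open MeasureTheory Metric Set Filter Topology
open scoped Real ENNReal

namespace Pool.Agent.H465.EQ

section explicit

variable {a r : ℝ}

lemma phi_facts (ha : 0 < a) (har : a < r) :
    Real.cos (Real.arccos (a / r)) = a / r ∧
    r * Real.sin (Real.arccos (a / r)) = √(r ^ 2 - a ^ 2) ∧
    Real.arctan (√(r ^ 2 - a ^ 2) / a) = Real.arccos (a / r) := by
  have hr : 0 < r := ha.trans har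
  have h1 : a / r ≤ 1 := by rw [div_le_one hr]; exact har.le
  have h0 : 0 < a / r := div_pos ha hr
  refine ⟨Real.cos_arccos (by linarith) h1, ?_, ?_⟩
  · rw [Real.sin_arccos]
    have : r ^ 2 - a ^ 2 = r ^ 2 * (1 - (a / r) ^ 2) := by field_simp
    rw [this, Real.sqrt_mul (sq_nonneg r), Real.sqrt_sq hr.le]
  · rw [Real.arccos_eq_arctan h0]
    congr 1
    have : r ^ 2 - a ^ 2 = r ^ 2 * (1 - (a / r) ^ 2) := by field_simp
    rw [this, Real.sqrt_mul (sq_nonneg r), Real.sqrt_sq hr.le]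
    field_simp

/-- the integral of `|a + r cos θ|` -/
lemma int_abs (ha : 0 < a) (har : a < r) :
    ∫ θ in (0 : ℝ)..(2 * π), |a + r * Real.cos θ| =
      2 * π * a + 4 * (√(r ^ 2 - a ^ 2) - a * Real.arccos (a / r)) := by
  have hr : 0 < r := ha.trans har
  obtain ⟨hc, hs, -⟩ := phi_facts ha har
  set φ := Real.arccos (a / r) with hφ
  have hφ0 : 0 ≤ φ := Real.arccos_nonneg _
  have hφ1 : φ ≤ π / 2 := Real.arccos_le_pi_div_two.2 (div_pos ha hr).le
  have hpi := Real.pi_pos
  have hcont : Continuous fun θ : ℝ => |a + r * Real.cos θ| := by fun_prop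
  have hF : ∀ θ : ℝ, HasDerivAt (fun θ => a * θ + r * Real.sin θ) (a + r * Real.cos θ) θ := by
    intro θ
    refine (((hasDerivAt_id θ).const_mul a).add ((Real.hasDerivAt_sin θ).const_mul r)).congr_deriv ?_
    ring
  have hFi : ∀ x y : ℝ, ∫ θ in x..y, (a + r * Real.cos θ) =
      (a * y + r * Real.sin y) - (a * x + r * Real.sin x) := by
    intro x y
    rw [intervalIntegral.integral_eq_sub_of_hasDerivAt (fun θ _ => hF θ)
      ((by fun_prop : Continuous fun θ : ℝ => a + r * Real.cos θ).intervalIntegrable _ _)]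
  have hcr : r * (a / r) = a := by field_simp
  have i1 : ∫ θ in (0 : ℝ)..(π - φ), |a + r * Real.cos θ| =
      ∫ θ in (0 : ℝ)..(π - φ), (a + r * Real.cos θ) := by
    refine intervalIntegral.integral_congr fun θ hθ => ?_
    rw [uIcc_of_le (by linarith)] at hθ
    have h1 : Real.cos (π - φ) ≤ Real.cos θ :=
      Real.cos_le_cos_of_nonneg_of_le_pi hθ.1 (by linarith) hθ.2
    rw [Real.cos_pi_sub, hc] at h1
    refine abs_of_nonneg ?_
    nlinarith
  have i2 : ∫ θ in (π - φ)..(π + φ), |a + r * Real.cos θ| =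
      ∫ θ in (π - φ)..(π + φ), -(a + r * Real.cos θ) := by
    refine intervalIntegral.integral_congr fun θ hθ => ?_
    rw [uIcc_of_le (by linarith)] at hθ
    have h1 : Real.cos φ ≤ Real.cos |θ - π| := by
      refine Real.cos_le_cos_of_nonneg_of_le_pi (abs_nonneg _) (by linarith) ?_
      rw [abs_le]
      constructor <;> linarith [hθ.1, hθ.2]
    rw [Real.cos_abs, Real.cos_sub_pi, hc] at h1
    refine abs_of_nonpos ?_
    nlinarith
  have i3 : ∫ θ in (π + φ)..(2 * π), |a + r * Real.cos θ| =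
      ∫ θ in (π + φ)..(2 * π), (a + r * Real.cos θ) := by
    refine intervalIntegral.integral_congr fun θ hθ => ?_
    rw [uIcc_of_le (by linarith)] at hθ
    have h1 : Real.cos (π - φ) ≤ Real.cos (2 * π - θ) := by
      refine Real.cos_le_cos_of_nonneg_of_le_pi ?_ ?_ ?_ <;> linarith [hθ.1, hθ.2]
    rw [Real.cos_pi_sub, hc, Real.cos_two_pi_sub] at h1
    refine abs_of_nonneg ?_
    nlinarith
  have ii : ∀ x y : ℝ, IntervalIntegrable (fun θ : ℝ => |a + r * Real.cos θ|) volume x y :=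
    fun x y => hcont.intervalIntegrable _ _
  rw [← intervalIntegral.integral_add_adjacent_intervals (ii 0 (π - φ)) (ii (π - φ) (2 * π)),
    ← intervalIntegral.integral_add_adjacent_intervals (ii (π - φ) (π + φ)) (ii (π + φ) (2 * π)),
    i1, i2, i3, intervalIntegral.integral_neg, hFi, hFi, hFi]
  rw [Real.sin_pi_sub, Real.sin_two_pi, Real.sin_zero,
    show Real.sin (π + φ) = -Real.sin φ by rw [add_comm, Real.sin_add_pi], ← hs]
  ring

/-- the integral of the kernel over a line -/
lemma int_log (ha : 0 < a) (har : a < r) :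
    ∫ t : ℝ, Real.posLog (r / √(a ^ 2 + t ^ 2)) =
      2 * (√(r ^ 2 - a ^ 2) - a * Real.arccos (a / r)) := by
  have hr : 0 < r := ha.trans har
  obtain ⟨-, -, hat⟩ := phi_facts ha har
  set τ := √(r ^ 2 - a ^ 2) with hτ
  have hτ0 : 0 < r ^ 2 - a ^ 2 := by nlinarith
  have hτp : 0 < τ := Real.sqrt_pos.2 hτ0
  have hτ2 : τ ^ 2 = r ^ 2 - a ^ 2 := Real.sq_sqrt hτ0.le
  have hpos : ∀ t : ℝ, 0 < a ^ 2 + t ^ 2 := fun t => by positivity
  have e1 : (fun t : ℝ => Real.posLog (r / √(a ^ 2 + t ^ 2))) =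
      (Ioc (-τ) τ).indicator fun t => Real.log r - 1 / 2 * Real.log (a ^ 2 + t ^ 2) := by
    funext t
    have hs : 0 < √(a ^ 2 + t ^ 2) := Real.sqrt_pos.2 (hpos t)
    have hq : 0 ≤ r / √(a ^ 2 + t ^ 2) := by positivity
    by_cases ht : |t| ≤ τ
    · have h1 : √(a ^ 2 + t ^ 2) ≤ r := by
        rw [Real.sqrt_le_left hr.le]
        have : t ^ 2 ≤ τ ^ 2 := sq_le_sq.2 (by rwa [abs_of_pos hτp])
        linarith
      have h2 : Real.posLog (r / √(a ^ 2 + t ^ 2)) =
          Real.log r - 1 / 2 * Real.log (a ^ 2 + t ^ 2) := by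
        rw [Real.posLog_eq_log (by rw [abs_of_nonneg hq, le_div_iff₀ hs]; linarith),
          Real.log_div hr.ne' hs.ne', Real.log_sqrt (hpos t).le]
        ring
      by_cases hm : t ∈ Ioc (-τ) τ
      · rw [indicator_of_mem hm, h2]
      · have ht' : t = -τ := by
          rw [mem_Ioc, not_and_or] at hm
          rw [abs_le] at ht
          rcases hm with hm | hm
          · linarith [ht.1, not_lt.1 hm]
          · exact absurd ht.2 hm
        rw [indicator_of_notMem hm, ht', Real.posLog_eq_zero_iff,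
          abs_of_nonneg (by positivity), div_le_one (Real.sqrt_pos.2 (hpos _))]
        have : a ^ 2 + (-τ) ^ 2 = r ^ 2 := by rw [neg_sq, hτ2]; ring
        rw [this, Real.sqrt_sq hr.le]
    · have hm : t ∉ Ioc (-τ) τ := fun h => ht (abs_le.2 ⟨h.1.le, h.2⟩)
      rw [indicator_of_notMem hm, Real.posLog_eq_zero_iff, abs_of_nonneg hq, div_le_one hs]
      refine Real.le_sqrt_of_sq_le ?_
      have : τ ^ 2 ≤ t ^ 2 := sq_le_sq.2 (by rw [abs_of_pos hτp]; exact (not_le.1 ht).le)
      linarith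
  rw [e1, integral_indicator measurableSet_Ioc,
    ← intervalIntegral.integral_of_le (by linarith)]
  have hF : ∀ t : ℝ, HasDerivAt (fun t => t * Real.log r -
      1 / 2 * (t * Real.log (a ^ 2 + t ^ 2) - 2 * t + 2 * a * Real.arctan (t / a)))
      (Real.log r - 1 / 2 * Real.log (a ^ 2 + t ^ 2)) t := by
    intro t
    have d1 : HasDerivAt (fun t : ℝ => a ^ 2 + t ^ 2) (2 * t) t := by
      simpa using (hasDerivAt_pow 2 t).const_add (a ^ 2)
    have d2 := d1.log (hpos t).ne'
    have d3 := (hasDerivAt_id t).mul d2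
    have d4 : HasDerivAt (fun t : ℝ => Real.arctan (t / a)) (1 / (1 + (t / a) ^ 2) * (1 / a)) t :=
      ((hasDerivAt_id t).div_const a).arctan
    have d5 := ((hasDerivAt_id t).mul_const (Real.log r)).sub
      (((d3.sub ((hasDerivAt_id t).const_mul 2)).add (d4.const_mul (2 * a))).const_mul (1 / 2))
    refine d5.congr_deriv ?_
    simp only [id]
    have := (hpos t).ne'
    have h2 : (1 : ℝ) + (t / a) ^ 2 ≠ 0 := by positivity
    have h3 : 1 / (1 + (t / a) ^ 2) * (1 / a) = a / (a ^ 2 + t ^ 2) := by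
      field_simp
    rw [h3]
    field_simp
    ring
  rw [intervalIntegral.integral_eq_sub_of_hasDerivAt (fun t _ => hF t)]
  · have e2 : a ^ 2 + τ ^ 2 = r ^ 2 := by rw [hτ2]; ring
    have e3 : a ^ 2 + (-τ) ^ 2 = r ^ 2 := by rw [neg_sq]; exact e2
    rw [e2, e3, Real.log_pow, neg_div, Real.arctan_neg, hat]
    push_cast
    ring
  · refine Continuous.intervalIntegrable ?_ _ _
    refine continuous_const.sub (continuous_const.mul ?_)
    exact Continuous.log (by fun_prop) fun t => (hpos t).ne'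

end explicit

/-- the model potential -/
noncomputable def U0 (z : ℂ) : ℝ := |z.re - 1 / 2| / 2

lemma continuous_U0 : Continuous U0 := by
  unfold U0
  fun_prop

/-- the point `1/2 + i t` of the line -/
noncomputable def pt (t : ℝ) : ℂ := ⟨1 / 2, t⟩

lemma lk_pt (r t : ℝ) (c : ℂ) :
    lk r (pt t - c) = Real.posLog (r / √(|c.re - 1 / 2| ^ 2 + (t - c.im) ^ 2)) := by
  unfold lk pt
  congr 2
  rw [Complex.norm_def, Complex.normSq_apply]
  congr 1
  simp only [Complex.sub_re, Complex.sub_im, sq_abs]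
  ring

lemma int_lk (r : ℝ) (c : ℂ) :
    ∫ t : ℝ, lk r (pt t - c) = ∫ t : ℝ, Real.posLog (r / √(|c.re - 1 / 2| ^ 2 + t ^ 2)) := by
  simp only [lk_pt]
  exact integral_sub_right_eq_self
    (fun t : ℝ => Real.posLog (r / √(|c.re - 1 / 2| ^ 2 + t ^ 2))) c.im

lemma ca_even (η r : ℝ) : ∫ θ in (0 : ℝ)..(2 * π), |η + r * Real.cos θ| =
    ∫ θ in (0 : ℝ)..(2 * π), |(|η| + r * Real.cos θ)| := by
  rcases abs_cases η with ⟨h, _⟩ | ⟨h, _⟩
  · rw [h]
  · rw [h]
    have hper : (fun θ : ℝ => |η + r * Real.cos θ|).Periodic (2 * π) := fun x => by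
      simp only [Real.cos_add_two_pi]
    have h1 := hper.intervalIntegral_add_eq 0 π
    rw [zero_add] at h1
    have h2 := intervalIntegral.integral_comp_add_right (a := 0) (b := 2 * π)
      (fun θ : ℝ => |η + r * Real.cos θ|) π
    rw [zero_add, add_comm (2 * π) π] at h2
    rw [h1, ← h2]
    refine intervalIntegral.integral_congr fun θ _ => ?_
    simp only [Real.cos_add_pi]
    rw [← abs_neg]
    congr 1
    ring

/-- **The model.** -/
theorem ca_U0 {r : ℝ} (hr : 0 < r) (c : ℂ) (hc : c.re ≠ 1 / 2) :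
    Real.circleAverage U0 c r = U0 c + (2 * π)⁻¹ * ∫ t : ℝ, lk r (pt t - c) := by
  set a := |c.re - 1 / 2| with ha
  have ha0 : 0 < a := abs_pos.2 (sub_ne_zero.2 hc)
  have hpi := Real.pi_pos
  have e1 : Real.circleAverage U0 c r =
      (2 * π)⁻¹ * (1 / 2 * ∫ θ in (0 : ℝ)..(2 * π), |(a + r * Real.cos θ)|) := by
    rw [Real.circleAverage_def, smul_eq_mul, ha, ← ca_even]
    congr 1
    rw [← intervalIntegral.integral_const_mul (1 / 2 : ℝ)
      (fun θ : ℝ => |c.re - 1 / 2 + r * Real.cos θ|)]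
    refine intervalIntegral.integral_congr fun (θ : ℝ) _ => ?_
    have : (circleMap c r θ).re = c.re + r * Real.cos θ := by
      simp [circleMap, Complex.exp_re]
    show |(circleMap c r θ).re - 1 / 2| / 2 = 1 / 2 * |c.re - 1 / 2 + r * Real.cos θ|
    rw [this, show c.re + r * Real.cos θ - 1 / 2 = c.re - 1 / 2 + r * Real.cos θ by ring]
    ring
  rw [e1, int_lk, ← ha]
  have eU : U0 c = a / 2 := rfl
  rw [eU]
  rcases lt_or_ge a r with har | har
  · rw [int_abs ha0 har, int_log ha0 har]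
    field_simp
    ring
  · have h1 : ∫ θ in (0 : ℝ)..(2 * π), |(a + r * Real.cos θ)| = 2 * π * a := by
      have : ∀ θ : ℝ, |(a + r * Real.cos θ)| = a + r * Real.cos θ := by
        intro θ
        refine abs_of_nonneg ?_
        have := Real.neg_one_le_cos θ
        nlinarith
      simp only [this]
      rw [intervalIntegral.integral_add (by simp) ((by fun_prop :
        Continuous fun θ : ℝ => r * Real.cos θ).intervalIntegrable _ _)]
      simp
    have h2 : ∀ t : ℝ, Real.posLog (r / √(a ^ 2 + t ^ 2)) = 0 := by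
      intro t
      have hs : 0 < √(a ^ 2 + t ^ 2) := Real.sqrt_pos.2 (by positivity)
      rw [Real.posLog_eq_zero_iff, abs_of_nonneg (by positivity), div_le_one hs]
      refine Real.le_sqrt_of_sq_le ?_
      nlinarith [sq_nonneg t]
    rw [h1]
    simp only [h2, integral_zero]
    field_simp
    ring

lemma int_lk_bound {r : ℝ} (hr : 0 < r) (c : ℂ) (hc : c.re ≠ 1 / 2) :
    0 ≤ ∫ t : ℝ, lk r (pt t - c) ∧ ∫ t : ℝ, lk r (pt t - c) ≤ 2 * r := by
  refine ⟨integral_nonneg fun t => lk_nonneg _ _, ?_⟩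
  rw [int_lk]
  set a := |c.re - 1 / 2| with ha
  have ha0 : 0 < a := abs_pos.2 (sub_ne_zero.2 hc)
  rcases lt_or_ge a r with har | har
  · rw [int_log ha0 har]
    have h1 : √(r ^ 2 - a ^ 2) ≤ r := by
      rw [Real.sqrt_le_left hr.le]
      nlinarith
    have h2 : 0 ≤ a * Real.arccos (a / r) := mul_nonneg ha0.le (Real.arccos_nonneg _)
    linarith
  · have h2 : ∀ t : ℝ, Real.posLog (r / √(a ^ 2 + t ^ 2)) = 0 := by
      intro t
      have hs : 0 < √(a ^ 2 + t ^ 2) := Real.sqrt_pos.2 (by positivity)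
      rw [Real.posLog_eq_zero_iff, abs_of_nonneg (by positivity), div_le_one hs]
      refine Real.le_sqrt_of_sq_le ?_
      nlinarith [sq_nonneg t]
    simp only [h2, integral_zero]
    positivity

end Pool.Agent.H465.EQ
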