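import Pool.Agent.H465.EQ.E

/-!
# The comparison of the zeros with the uniform distribution on the line
-/

set_option autoImplicit false

open MeasureTheory Metric Set Filter Topology
open scoped Real ENNReal

namespace Pool.Agent.H465.EQ

lemma ae_re_ne : ∀ᵐ c : ℂ, c.re ≠ 1 / 2 := by
  have h1 : volume {c : ℂ | c.re = 1 / 2} = 0 := by
    have h2 : {c : ℂ | c.re = 1 / 2} =
        Complex.measurableEquivRealProd ⁻¹' (({1 / 2} : Set ℝ) ×ˢ univ) := by
      ext c
      simp [Complex.measurableEquivRealProd]
    rw [h2, Complex.volume_preserving_equiv_real_prod.measure_preimage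
      ((measurableSet_singleton _).prod MeasurableSet.univ).nullMeasurableSet,
      Measure.volume_eq_prod, Measure.prod_prod]
    simp
  exact measure_eq_zero_iff_ae_notMem.1 h1

lemma continuous_pt : Continuous pt := by
  have : pt = fun t : ℝ => ((1 / 2 : ℝ) : ℂ) + (t : ℂ) * Complex.I := by
    funext t
    apply Complex.ext <;> simp [pt]
  rw [this]
  fun_prop

lemma measurable_line (r : ℝ) (c : ℂ) : Measurable fun t : ℝ => lk r (pt t - c) :=
  (measurable_lk r).comp (continuous_pt.sub continuous_const).measurable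

lemma integrable_line {r : ℝ} (hr : 0 < r) (c : ℂ) (hc : c.re ≠ 1 / 2) :
    Integrable fun t : ℝ => lk r (pt t - c) := by
  set a := |c.re - 1 / 2| with ha
  have ha0 : 0 < a := abs_pos.2 (sub_ne_zero.2 hc)
  have hb : ∀ t : ℝ, ‖lk r (pt t - c)‖ ≤
      (Icc (c.im - r) (c.im + r)).indicator (fun _ => Real.posLog (r / a)) t := by
    intro t
    rw [Real.norm_eq_abs, abs_of_nonneg (lk_nonneg _ _)]
    have hna : a ≤ ‖pt t - c‖ := by
      have := Complex.abs_re_le_norm (pt t - c)
      have e : (pt t - c).re = -(c.re - 1 / 2) := by simp [pt]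
      rwa [e, abs_neg] at this
    have hnb : |t - c.im| ≤ ‖pt t - c‖ := by
      have := Complex.abs_im_le_norm (pt t - c)
      have e : (pt t - c).im = t - c.im := by simp [pt]
      rwa [e] at this
    by_cases ht : t ∈ Icc (c.im - r) (c.im + r)
    · rw [indicator_of_mem ht]
      unfold lk
      refine Real.posLog_le_posLog (by positivity) ?_
      exact div_le_div_of_nonneg_left hr.le ha0 hna
    · rw [indicator_of_notMem ht, lk_far hr.le]
      refine le_trans ?_ hnb
      by_contra h
      rw [not_le, abs_lt] at h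
      exact ht ⟨by linarith [h.1], by linarith [h.2]⟩
  refine Integrable.mono' ?_ (measurable_line r c).aestronglyMeasurable
    (Eventually.of_forall hb)
  rw [integrable_indicator_iff measurableSet_Icc]
  exact integrableOn_const (by rw [Real.volume_Icc]; exact ENNReal.ofReal_ne_top)

/-- the double integral -/
lemma line_fub {g : ℂ → ℝ} (hg : Continuous g) (hgc : HasCompactSupport g) {r : ℝ} (hr : 0 < r) :
    Integrable (fun c => g c * ∫ t : ℝ, lk r (pt t - c)) ∧
    Integrable (fun t => ∫ c, g c * lk r (pt t - c)) ∧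
    ∫ c, g c * ∫ t : ℝ, lk r (pt t - c) = ∫ t : ℝ, ∫ c, g c * lk r (pt t - c) := by
  obtain ⟨C, hC⟩ := hgc.exists_bound_of_continuous hg
  have hC0 : 0 ≤ C := (norm_nonneg _).trans (hC 0)
  have hgi : Integrable g := hg.integrable_of_hasCompactSupport hgc
  have hm : Measurable fun p : ℂ × ℝ => g p.1 * lk r (pt p.2 - p.1) := by
    refine (hg.measurable.comp measurable_fst).mul ((measurable_lk r).comp ?_)
    exact ((continuous_pt.comp continuous_snd).sub continuous_fst).measurable
  have hI : Integrable (fun p : ℂ × ℝ => g p.1 * lk r (pt p.2 - p.1))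
      ((volume : Measure ℂ).prod (volume : Measure ℝ)) := by
    rw [integrable_prod_iff hm.aestronglyMeasurable]
    constructor
    · filter_upwards [ae_re_ne] with c hc
      exact (integrable_line hr c hc).const_mul _
    · have hb : ∀ᵐ c : ℂ, ‖∫ t : ℝ, ‖g c * lk r (pt t - c)‖‖ ≤ ‖g c‖ * (2 * r) := by
        filter_upwards [ae_re_ne] with c hc
        have e1 : ∀ t : ℝ, ‖g c * lk r (pt t - c)‖ = ‖g c‖ * lk r (pt t - c) := fun t => by
          rw [norm_mul, Real.norm_eq_abs (lk _ _), abs_of_nonneg (lk_nonneg _ _)]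
        simp only [e1]
        rw [integral_const_mul, norm_mul, norm_norm, Real.norm_eq_abs (∫ t : ℝ, lk r (pt t - c)),
          abs_of_nonneg (int_lk_bound hr c hc).1]
        exact mul_le_mul_of_nonneg_left (int_lk_bound hr c hc).2 (norm_nonneg _)
      exact (hgi.norm.mul_const (2 * r)).mono' hm.aestronglyMeasurable.norm.integral_prod_right' hb
  have e2 : ∀ c, g c * ∫ t : ℝ, lk r (pt t - c) = ∫ t : ℝ, g c * lk r (pt t - c) := fun c => by
    rw [integral_const_mul]
  simp only [e2]
  exact ⟨hI.integral_prod_left, hI.integral_prod_right,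
    integral_integral_swap (f := fun c t => g c * lk r (pt t - c)) hI⟩

/-- **The model sum.** -/
theorem modelsum {g : ℂ → ℝ} (hg : Continuous g) (hgc : HasCompactSupport g) {r₁ r₂ : ℝ}
    (h1 : 0 < r₁) (h2 : r₁ ≤ r₂) :
    Integrable (fun t => Gc r₁ r₂ g (pt t)) ∧
    ∫ z, U0 z * (Real.circleAverage g z r₂ - Real.circleAverage g z r₁) =
      (2 * π)⁻¹ * ∫ t : ℝ, Gc r₁ r₂ g (pt t) := by
  have h2' : 0 < r₂ := h1.trans_le h2
  have hUc := continuous_U0
  have hUl : LocallyIntegrable U0 := hUc.locallyIntegrable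
  obtain ⟨a1, b1, c1⟩ := line_fub hg hgc h1
  obtain ⟨a2, b2, c2⟩ := line_fub hg hgc h2'
  have hi : ∀ r : ℝ, 0 < r → ∀ u : ℂ, Integrable fun c => g c * lk r (u - c) := by
    intro r hr u
    obtain ⟨C, hC⟩ := hgc.exists_bound_of_continuous hg
    exact ((integrable_lk hr).comp_sub_left u).bdd_mul hg.aestronglyMeasurable
      (Eventually.of_forall hC)
  have eG : ∀ u, Gc r₁ r₂ g u = (∫ c, g c * lk r₂ (u - c)) - ∫ c, g c * lk r₁ (u - c) := by
    intro u
    unfold Gc kk
    rw [← integral_sub (hi r₂ h2' u) (hi r₁ h1 u)]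
    exact integral_congr_ae (Eventually.of_forall fun c => by simp only; ring)
  constructor
  · simp only [eG]
    exact b2.sub b1
  · simp only [eG]
    rw [integral_sub b2 b1, ← c1, ← c2]
    have e3 : ∀ z, U0 z * (Real.circleAverage g z r₂ - Real.circleAverage g z r₁) =
        U0 z * Real.circleAverage g z r₂ - U0 z * Real.circleAverage g z r₁ := fun z => by ring
    simp only [e3]
    rw [integral_sub (integrable_U_ca hUl hg hgc r₂) (integrable_U_ca hUl hg hgc r₁),
      ← fub hUc.measurable hUl hg hgc r₂, ← fub hUc.measurable hUl hg hgc r₁]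
    have hgU : Integrable fun c => g c * U0 c := by
      refine (hg.mul hUc).integrable_of_hasCompactSupport ?_
      exact hgc.mul_right
    have e4 : ∀ r : ℝ, 0 < r → Integrable (fun c => g c * ∫ t : ℝ, lk r (pt t - c)) →
        ∫ c, g c * Real.circleAverage U0 c r =
        (∫ c, g c * U0 c) + (2 * π)⁻¹ * ∫ c, g c * ∫ t : ℝ, lk r (pt t - c) := by
      intro r hr hint
      have e5 : ∀ᵐ c : ℂ, g c * Real.circleAverage U0 c r =
          g c * U0 c + (2 * π)⁻¹ * (g c * ∫ t : ℝ, lk r (pt t - c)) := by
        filter_upwards [ae_re_ne] with c hc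
        rw [ca_U0 hr c hc]
        ring
      rw [integral_congr_ae e5, integral_add hgU (hint.const_mul _), integral_const_mul]
    rw [e4 r₂ h2' a2, e4 r₁ h1 a1]
    ring

/-- **The comparison.** -/
theorem compare {f : ℂ → ℂ} (hf : Differentiable ℂ f) {z₀ : ℂ} (h0 : f z₀ ≠ 0) (B : ℝ)
    {g : ℂ → ℝ} (hg : Continuous g) (hgc : HasCompactSupport g) {C M : ℝ} (hC : ∀ z, |g z| ≤ C)
    (hM : ∀ z, M < ‖z‖ → g z = 0) {r₁ r₂ : ℝ} (h1 : 0 < r₁) (h2 : r₁ ≤ r₂) :
    |(∑ᶠ u, mu f u * Gc r₁ r₂ g u) - B / (2 * π) * ∫ t : ℝ, Gc r₁ r₂ g (pt t)| ≤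
      2 * C * ∫ z in closedBall (0 : ℂ) (M + r₂), |Real.log ‖f z‖ - B * U0 z| := by
  have h2' : 0 < r₂ := h1.trans_le h2
  have hUc := continuous_U0
  have hUl : LocallyIntegrable U0 := hUc.locallyIntegrable
  have hL := locInt hf h0
  have hC0 : 0 ≤ C := (abs_nonneg _).trans (hC 0)
  have hLi : IntegrableOn (fun z => Real.log ‖f z‖ - B * U0 z) (closedBall (0 : ℂ) (M + r₂)) :=
    (hL.integrableOn_isCompact (isCompact_closedBall _ _)).sub
      (((hUl.integrableOn_isCompact (isCompact_closedBall _ _))).const_mul B)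
  rw [zsum hf h0 hg hgc h1 h2, div_eq_mul_inv, mul_assoc, ← (modelsum hg hgc h1 h2).2,
    ← integral_const_mul, ← integral_sub]
  · set K := closedBall (0 : ℂ) (M + r₂) with hK
    have hz : ∀ r : ℝ, 0 < r → r ≤ r₂ → ∀ z, z ∉ K → Real.circleAverage g z r = 0 := by
      intro r hr0 hr z hz
      rw [ca_def]
      have : ∀ θ : ℝ, g (z + circleMap 0 r θ) = 0 := by
        intro θ
        refine hM _ ?_
        rw [hK, mem_closedBall_zero_iff, not_le] at hz
        have h3 : ‖z‖ ≤ ‖z + circleMap 0 r θ‖ + ‖circleMap 0 r θ‖ := by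
          calc ‖z‖ = ‖(z + circleMap 0 r θ) - circleMap 0 r θ‖ := by rw [add_sub_cancel_right]
            _ ≤ _ := norm_sub_le _ _
        have h4 : ‖circleMap 0 r θ‖ = r := by rw [norm_circleMap_zero, abs_of_pos hr0]
        linarith
      simp [this]
    have hcb : ∀ (r : ℝ) (z : ℂ), |Real.circleAverage g z r| ≤ C := by
      intro r z
      refine (Real.abs_circleAverage_le_circleAverage_abs).trans ?_
      refine Real.circleAverage_mono_on_of_le_circle ?_ fun w _ => hC w
      exact (hg.abs.continuousOn).circleIntegrable'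
    have hpt : ∀ z, |Real.log ‖f z‖ * (Real.circleAverage g z r₂ - Real.circleAverage g z r₁) -
        B * (U0 z * (Real.circleAverage g z r₂ - Real.circleAverage g z r₁))| ≤
        2 * C * K.indicator (fun z => |Real.log ‖f z‖ - B * U0 z|) z := by
      intro z
      have e : Real.log ‖f z‖ * (Real.circleAverage g z r₂ - Real.circleAverage g z r₁) -
        B * (U0 z * (Real.circleAverage g z r₂ - Real.circleAverage g z r₁)) =
        (Real.log ‖f z‖ - B * U0 z) * (Real.circleAverage g z r₂ - Real.circleAverage g z r₁) := by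
        ring
      rw [e]
      by_cases hzK : z ∈ K
      · rw [indicator_of_mem hzK, abs_mul, mul_comm]
        refine mul_le_mul_of_nonneg_right ?_ (abs_nonneg _)
        have h3 := hcb r₂ z
        have h4 := hcb r₁ z
        calc |Real.circleAverage g z r₂ - Real.circleAverage g z r₁| ≤
            |Real.circleAverage g z r₂| + |Real.circleAverage g z r₁| := abs_sub _ _
          _ ≤ 2 * C := by linarith
      · rw [indicator_of_notMem hzK, hz r₂ h2' le_rfl z hzK, hz r₁ h1 h2 z hzK]
        simp
    have hmeas : Measurable fun z => |Real.log ‖f z‖ - B * U0 z| :=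
      ((measurable_log hf).sub (hUc.measurable.const_mul B)).abs
    have hbi : Integrable fun z => 2 * C * K.indicator (fun z => |Real.log ‖f z‖ - B * U0 z|) z := by
      refine Integrable.const_mul ?_ _
      rw [integrable_indicator_iff measurableSet_closedBall]
      exact hLi.abs
    refine (abs_integral_le_integral_abs).trans ?_
    refine (integral_mono_of_nonneg (Eventually.of_forall fun z => abs_nonneg _) hbi
      (Eventually.of_forall hpt)).trans ?_
    rw [integral_const_mul, integral_indicator measurableSet_closedBall]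
  · have := (integrable_U_ca hL hg hgc r₂).sub (integrable_U_ca hL hg hgc r₁)
    refine this.congr (Eventually.of_forall fun z => ?_)
    simp only [Pi.sub_apply]
    ring
  · have := ((integrable_U_ca hUl hg hgc r₂).sub (integrable_U_ca hUl hg hgc r₁)).const_mul B
    refine this.congr (Eventually.of_forall fun z => ?_)
    simp only [Pi.sub_apply]
    ring

end Pool.Agent.H465.EQ
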