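import Pool.Agent.H465.EQ.F

/-!
# The distribution of the zeros
-/

set_option autoImplicit false

open MeasureTheory Metric Set Filter Topology
open scoped Real ENNReal

namespace Pool.Agent.H465.EQ

/-- the mass of the kernel -/
noncomputable def kap (r₁ r₂ : ℝ) : ℝ := ∫ c, kk r₁ r₂ c

lemma kap_pos {r₁ r₂ : ℝ} (h1 : 0 < r₁) (h2 : r₁ < r₂) : 0 < kap r₁ r₂ := by
  have h2' : 0 < r₂ := h1.trans h2
  unfold kap
  rw [integral_pos_iff_support_of_nonneg (fun c => kk_nonneg h1 h2.le c) (integrable_kk h1 h2')]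
  have hsub : ball (0 : ℂ) r₁ \ {0} ⊆ Function.support (kk r₁ r₂) := by
    rintro c ⟨hc, hc0⟩
    rw [Function.mem_support]
    have hc0' : c ≠ 0 := hc0
    rw [mem_ball_zero_iff] at hc
    unfold kk
    rw [lk_near hc0' (hc.le.trans h2.le), lk_near hc0' hc.le]
    have hn : 0 < ‖c‖ := norm_pos_iff.2 hc0'
    have : Real.log (r₁ * ‖c‖⁻¹) < Real.log (r₂ * ‖c‖⁻¹) :=
      Real.log_lt_log (by positivity) (mul_lt_mul_of_pos_right h2 (by positivity))
    exact (sub_pos.2 this).ne'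
  refine lt_of_lt_of_le ?_ (measure_mono hsub)
  rw [measure_sdiff_null (by simp)]
  exact measure_ball_pos _ _ h1

lemma Gc_const {r₁ r₂ : ℝ} (u : ℂ) : ∫ c, kk r₁ r₂ (u - c) = kap r₁ r₂ :=
  integral_sub_left_eq_self (kk r₁ r₂) volume u

/-- the smoothed function is close to the function -/
lemma Gc_near {g : ℂ → ℝ} (hg : Continuous g) (hgc : HasCompactSupport g) {r₁ r₂ ω : ℝ}
    (h1 : 0 < r₁) (h2 : r₁ ≤ r₂) (hω : ∀ z w : ℂ, ‖z - w‖ < r₂ → |g z - g w| ≤ ω)
    (u : ℂ) : |Gc r₁ r₂ g u - kap r₁ r₂ * g u| ≤ ω * kap r₁ r₂ := by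
  have h2' : 0 < r₂ := h1.trans_le h2
  have hi1 := integrable_g_kk hg hgc h1 h2' u
  have hi2 : Integrable fun c => kk r₁ r₂ (u - c) := (integrable_kk h1 h2').comp_sub_left u
  have e1 : Gc r₁ r₂ g u - kap r₁ r₂ * g u = ∫ c, (g c - g u) * kk r₁ r₂ (u - c) := by
    unfold Gc
    rw [← Gc_const u, ← integral_mul_const, ← integral_sub hi1 (hi2.mul_const _)]
    exact integral_congr_ae (Eventually.of_forall fun c => by simp only; ring)
  have e2 : ω * kap r₁ r₂ = ∫ c, ω * kk r₁ r₂ (u - c) := by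
    rw [integral_const_mul, Gc_const]
  rw [e1, e2]
  refine abs_integral_le_integral_abs.trans (integral_mono_of_nonneg
    (Eventually.of_forall fun _ => abs_nonneg _) (hi2.const_mul ω)
    (Eventually.of_forall fun c => ?_))
  simp only
  rw [abs_mul, abs_of_nonneg (kk_nonneg h1 h2 _)]
  by_cases hc : r₂ ≤ ‖u - c‖
  · rw [kk_far h1 h2 hc, mul_zero, mul_zero]
  · refine mul_le_mul_of_nonneg_right (hω _ _ ?_) (kk_nonneg h1 h2 _)
    rw [norm_sub_rev]
    exact not_le.1 hc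

lemma Gc_far {g : ℂ → ℝ} {M : ℝ} (hM : ∀ z, M < ‖z‖ → g z = 0) {r₁ r₂ : ℝ} (h1 : 0 < r₁)
    (h2 : r₁ ≤ r₂) {u : ℂ} (hu : M + r₂ < ‖u‖) : Gc r₁ r₂ g u = 0 := by
  unfold Gc
  refine integral_eq_zero_of_ae (Eventually.of_forall fun c => ?_)
  simp only [Pi.zero_apply]
  by_cases hc : M < ‖c‖
  · rw [hM c hc, zero_mul]
  · rw [kk_far h1 h2, mul_zero]
    have : ‖u‖ ≤ ‖u - c‖ + ‖c‖ := by
      calc ‖u‖ = ‖(u - c) + c‖ := by rw [sub_add_cancel]
        _ ≤ _ := norm_add_le _ _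
    linarith [not_lt.1 hc]

/-- sums over the zeros as finite sums -/
lemma fsum {f : ℂ → ℂ} (hf : Differentiable ℂ f) {z₀ : ℂ} (h0 : f z₀ ≠ 0) {h : ℂ → ℝ} {M : ℝ}
    (hM : ∀ z, M < ‖z‖ → h z = 0) :
    ∑ᶠ u, mu f u * h u = ∑ u ∈ (finite_zeros hf h0 M).toFinset, mu f u * h u := by
  refine finsum_eq_sum_of_support_subset _ fun u hu => ?_
  rw [Function.mem_support] at hu
  rw [Finite.coe_toFinset]
  refine ⟨mu_ne hf (left_ne_zero_of_mul hu), ?_⟩
  rw [mem_closedBall_zero_iff]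
  by_contra h'
  exact hu (by rw [hM u (not_le.1 h'), mul_zero])

/-- a plateau function -/
noncomputable def plat (M : ℝ) (c : ℂ) : ℝ := max 0 (min 1 (M + 2 - ‖c‖))

lemma plat_cont (M : ℝ) : Continuous (plat M) := by
  unfold plat
  fun_prop

lemma plat_far {M : ℝ} (c : ℂ) (hc : M + 2 < ‖c‖) : plat M c = 0 := by
  unfold plat
  rw [max_eq_left]
  exact (min_le_right _ _).trans (by linarith)

lemma plat_near {M : ℝ} (c : ℂ) (hc : ‖c‖ ≤ M + 1) : plat M c = 1 := by
  unfold plat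
  rw [min_eq_left (by linarith)]
  norm_num

lemma plat_abs (M : ℝ) (c : ℂ) : |plat M c| ≤ 1 := by
  unfold plat
  rw [abs_of_nonneg (le_max_left _ _)]
  exact max_le zero_le_one (min_le_left _ _)

lemma plat_comp (M : ℝ) : HasCompactSupport (plat M) := by
  refine HasCompactSupport.of_support_subset_isCompact (isCompact_closedBall (0 : ℂ) (M + 2)) ?_
  intro c hc
  rw [mem_closedBall_zero_iff]
  by_contra h
  exact hc (plat_far c (not_le.1 h))

/-- **The number of zeros.** -/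
theorem count_le (M : ℝ) : ∃ C : ℝ, 0 ≤ C ∧ ∀ (f : ℂ → ℂ) (hf : Differentiable ℂ f) (z₀ : ℂ)
    (h0 : f z₀ ≠ 0) (B : ℝ), 0 < B →
    ∫ z in closedBall (0 : ℂ) (M + 3), |Real.log ‖f z‖ - B * U0 z| ≤ B →
    ∑ u ∈ (finite_zeros hf h0 M).toFinset, mu f u ≤ C * B := by
  have hκ : 0 < kap (1 / 2) 1 := kap_pos (by norm_num) (by norm_num)
  set I : ℝ := ∫ t : ℝ, Gc (1 / 2) 1 (plat M) (pt t) with hI
  refine ⟨(kap (1 / 2) 1)⁻¹ * (|I| / (2 * π) + 2), by positivity, fun f hf z₀ h0 B hB he => ?_⟩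
  have h1 := compare hf h0 B (plat_cont M) (plat_comp M) (plat_abs M)
    (fun z hz => plat_far z hz) (r₁ := 1 / 2) (r₂ := 1) (by norm_num) (by norm_num)
  rw [show M + 2 + 1 = M + 3 by ring] at h1
  rw [fsum hf h0 (M := M + 3) fun z hz => Gc_far (M := M + 2) (fun z hz => plat_far z hz)
    (by norm_num) (by norm_num) (by linarith)] at h1
  have h3 : ∀ u, 0 ≤ Gc (1 / 2) 1 (plat M) u := by
    intro u
    unfold Gc
    exact integral_nonneg fun c => mul_nonneg (le_max_left _ _)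
      (kk_nonneg (by norm_num) (by norm_num) _)
  have h4 : kap (1 / 2) 1 * ∑ u ∈ (finite_zeros hf h0 M).toFinset, mu f u ≤
      ∑ u ∈ (finite_zeros hf h0 (M + 3)).toFinset, mu f u * Gc (1 / 2) 1 (plat M) u := by
    rw [Finset.mul_sum]
    calc ∑ u ∈ (finite_zeros hf h0 M).toFinset, kap (1 / 2) 1 * mu f u
        = ∑ u ∈ (finite_zeros hf h0 M).toFinset, mu f u * Gc (1 / 2) 1 (plat M) u := by
          refine Finset.sum_congr rfl fun u hu => ?_
          rw [Finite.mem_toFinset] at hu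
          have hu' : ‖u‖ ≤ M := mem_closedBall_zero_iff.1 hu.2
          have : Gc (1 / 2) 1 (plat M) u = kap (1 / 2) 1 := by
            unfold Gc
            rw [← Gc_const u]
            refine integral_congr_ae (Eventually.of_forall fun c => ?_)
            simp only
            by_cases hc : 1 ≤ ‖u - c‖
            · rw [kk_far (by norm_num) (by norm_num) hc, mul_zero]
            · rw [plat_near, one_mul]
              have : ‖c‖ ≤ ‖u - c‖ + ‖u‖ := by
                calc ‖c‖ = ‖u - (u - c)‖ := by rw [sub_sub_cancel]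
                  _ ≤ ‖u‖ + ‖u - c‖ := norm_sub_le _ _
                  _ = _ := add_comm _ _
              linarith [not_le.1 hc]
          rw [this, mul_comm]
      _ ≤ _ := by
          refine Finset.sum_le_sum_of_subset_of_nonneg ?_ fun u _ _ =>
            mul_nonneg (mu_nonneg _ _) (h3 u)
          intro u hu
          rw [Finite.mem_toFinset] at hu ⊢
          exact ⟨hu.1, closedBall_subset_closedBall (by linarith) hu.2⟩
  have h5 := (abs_le.1 (h1.trans (mul_le_mul_of_nonneg_left he (by norm_num)))).2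
  have h6 : B / (2 * π) * I ≤ B * (|I| / (2 * π)) := by
    rw [div_mul_eq_mul_div, mul_div_assoc']
    exact div_le_div_of_nonneg_right (mul_le_mul_of_nonneg_left (le_abs_self I) hB.le)
      (by positivity)
  have h7 : kap (1 / 2) 1 * ∑ u ∈ (finite_zeros hf h0 M).toFinset, mu f u ≤
      (|I| / (2 * π) + 2) * B := by linarith
  rw [mul_assoc, ← div_eq_inv_mul, le_div_iff₀ hκ, mul_comm]
  exact h7

/-- **The distribution of the zeros.**  If `log ‖f‖` is close to `B |Re s - 1/2| / 2` in the mean over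
a disc, then the zeros of `f` are close to being uniformly distributed on the line `Re s = 1/2`,
with density `B / (2π)`. -/
theorem equid {g : ℂ → ℝ} (hg : Continuous g) (hgc : HasCompactSupport g) {ε : ℝ} (hε : 0 < ε) :
    ∃ δ M : ℝ, 0 < δ ∧ ∀ (f : ℂ → ℂ) (_ : Differentiable ℂ f) (z₀ : ℂ) (_ : f z₀ ≠ 0) (B : ℝ),
      0 < B → ∫ z in closedBall (0 : ℂ) M, |Real.log ‖f z‖ - B * U0 z| ≤ δ * B →
      |(∑ᶠ u, mu f u * g u) - B / (2 * π) * ∫ t : ℝ, g (pt t)| ≤ ε * B := by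
  obtain ⟨M₀, hM₀⟩ := hgc.isCompact.isBounded.subset_closedBall (0 : ℂ)
  set M : ℝ := max M₀ 0 with hMdef
  have hM : ∀ z, M < ‖z‖ → g z = 0 := fun z hz =>
    image_eq_zero_of_notMem_tsupport fun h => by
      have := mem_closedBall_zero_iff.1 (hM₀ h)
      have := le_max_left M₀ 0
      linarith
  have hM0 : 0 ≤ M := le_max_right _ _
  obtain ⟨C, hC⟩ := hgc.exists_bound_of_continuous hg
  have hC0 : 0 ≤ C := (norm_nonneg _).trans (hC 0)
  obtain ⟨C₀, hC₀, hcount⟩ := count_le (M + 1)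
  -- the choice of the parameters
  set ε₁ : ℝ := ε / (3 * (C₀ + 1 + (2 * (M + 1)) / (2 * π))) with hε₁
  have hpi := Real.pi_pos
  have hε₁0 : 0 < ε₁ := by positivity
  obtain ⟨ρ, hρ0, hρ⟩ := Metric.uniformContinuous_iff.1
    (hgc.uniformContinuous_of_continuous hg) ε₁ hε₁0
  set r₂ : ℝ := min ρ 1 with hr₂
  have hr₂0 : 0 < r₂ := lt_min hρ0 one_pos
  have hr₂1 : r₂ ≤ 1 := min_le_right _ _
  set r₁ : ℝ := r₂ / 2 with hr₁
  have hr₁0 : 0 < r₁ := by positivity
  have hr12 : r₁ < r₂ := by rw [hr₁]; linarith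
  have hω : ∀ z w : ℂ, ‖z - w‖ < r₂ → |g z - g w| ≤ ε₁ := by
    intro z w h
    have := hρ (a := z) (b := w) (by rw [dist_eq_norm]; exact h.trans_le (min_le_left _ _))
    rw [Real.dist_eq] at this
    exact this.le
  set κ := kap r₁ r₂ with hκdef
  have hκ : 0 < κ := kap_pos hr₁0 hr12
  refine ⟨min 1 (κ * ε / (6 * (C + 1))), M + 4, by positivity, fun f hf z₀ h0 B hB he => ?_⟩
  have hLint : IntegrableOn (fun z => |Real.log ‖f z‖ - B * U0 z|) (closedBall (0 : ℂ) (M + 4)) :=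
    ((locInt hf h0).integrableOn_isCompact (isCompact_closedBall _ _)).sub
      (((continuous_U0.locallyIntegrable.integrableOn_isCompact
        (isCompact_closedBall _ _))).const_mul B) |>.abs
  have hcnt := hcount f hf z₀ h0 B hB (by
    rw [show M + 1 + 3 = M + 4 by ring]
    exact he.trans (by nlinarith [min_le_left 1 (κ * ε / (6 * (C + 1)))]))
  have hcmp := compare hf h0 B hg hgc hC hM hr₁0 hr12.le
  have he2 : ∫ z in closedBall (0 : ℂ) (M + r₂), |Real.log ‖f z‖ - B * U0 z| ≤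
      κ * ε / (6 * (C + 1)) * B := by
    refine le_trans (setIntegral_mono_set hLint (Eventually.of_forall fun z => abs_nonneg _)
      (closedBall_subset_closedBall (by linarith)).eventuallyLE) (he.trans ?_)
    exact mul_le_mul_of_nonneg_right (min_le_right _ _) hB.le
  -- first error
  have E1 : |κ⁻¹ * (∑ᶠ u, mu f u * Gc r₁ r₂ g u) -
      B / (2 * π) * (κ⁻¹ * ∫ t : ℝ, Gc r₁ r₂ g (pt t))| ≤ ε / 3 * B := by
    have e1 : κ⁻¹ * (∑ᶠ u, mu f u * Gc r₁ r₂ g u) -
      B / (2 * π) * (κ⁻¹ * ∫ t : ℝ, Gc r₁ r₂ g (pt t)) =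
      κ⁻¹ * ((∑ᶠ u, mu f u * Gc r₁ r₂ g u) - B / (2 * π) * ∫ t : ℝ, Gc r₁ r₂ g (pt t)) := by
      ring
    rw [e1, abs_mul, abs_of_pos (inv_pos.2 hκ), ← div_eq_inv_mul, div_le_iff₀ hκ]
    refine hcmp.trans ((mul_le_mul_of_nonneg_left he2 (by positivity)).trans ?_)
    have e2 : 2 * C * (κ * ε / (6 * (C + 1)) * B) = (C / (C + 1)) * (ε / 3 * B * κ) := by
      field_simp
      ring
    rw [e2]
    have h1 : C / (C + 1) ≤ 1 := by
      rw [div_le_one (by linarith)]
      linarith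
    have h2 : 0 ≤ ε / 3 * B * κ := by positivity
    nlinarith
  -- second error
  have hdiff : ∀ u, |κ⁻¹ * Gc r₁ r₂ g u - g u| ≤ ε₁ := by
    intro u
    have h1 := Gc_near hg hgc hr₁0 hr12.le hω u
    have e1 : κ⁻¹ * Gc r₁ r₂ g u - g u = κ⁻¹ * (Gc r₁ r₂ g u - κ * g u) := by
      field_simp
    rw [e1, abs_mul, abs_of_pos (inv_pos.2 hκ), ← div_eq_inv_mul, div_le_iff₀ hκ]
    exact h1
  have hfarG : ∀ u, M + 1 < ‖u‖ → κ⁻¹ * Gc r₁ r₂ g u - g u = 0 := by
    intro u hu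
    rw [Gc_far hM hr₁0 hr12.le (by linarith), hM u (by linarith), mul_zero, sub_zero]
  have hs1 : κ⁻¹ * (∑ᶠ u, mu f u * Gc r₁ r₂ g u) - ∑ᶠ u, mu f u * g u =
      ∑ u ∈ (finite_zeros hf h0 (M + 1)).toFinset, mu f u * (κ⁻¹ * Gc r₁ r₂ g u - g u) := by
    rw [fsum hf h0 (M := M + 1) (h := Gc r₁ r₂ g) fun z hz =>
      Gc_far hM hr₁0 hr12.le (by linarith),
      fsum hf h0 (M := M + 1) (h := g) fun z hz => hM z (by linarith), Finset.mul_sum,
      ← Finset.sum_sub_distrib]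
    exact Finset.sum_congr rfl fun u _ => by ring
  have E2 : |κ⁻¹ * (∑ᶠ u, mu f u * Gc r₁ r₂ g u) - ∑ᶠ u, mu f u * g u| ≤ ε₁ * C₀ * B := by
    rw [hs1]
    refine (Finset.abs_sum_le_sum_abs _ _).trans ?_
    calc ∑ u ∈ (finite_zeros hf h0 (M + 1)).toFinset, |mu f u * (κ⁻¹ * Gc r₁ r₂ g u - g u)|
        ≤ ∑ u ∈ (finite_zeros hf h0 (M + 1)).toFinset, ε₁ * mu f u := by
          refine Finset.sum_le_sum fun u _ => ?_
          rw [abs_mul, abs_of_nonneg (mu_nonneg _ _), mul_comm]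
          exact mul_le_mul_of_nonneg_right (hdiff u) (mu_nonneg _ _)
      _ = ε₁ * ∑ u ∈ (finite_zeros hf h0 (M + 1)).toFinset, mu f u := by rw [Finset.mul_sum]
      _ ≤ ε₁ * (C₀ * B) := mul_le_mul_of_nonneg_left hcnt hε₁0.le
      _ = _ := by ring
  -- third error
  have hgpt : Integrable fun t : ℝ => g (pt t) := by
    refine (hg.comp continuous_pt).integrable_of_hasCompactSupport ?_
    refine HasCompactSupport.of_support_subset_isCompact (isCompact_Icc (a := -M) (b := M)) ?_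
    intro t ht
    rw [mem_Icc, ← abs_le]
    by_contra h
    refine ht (hM _ ?_)
    have : |t| ≤ ‖pt t‖ := Complex.abs_im_le_norm (pt t)
    linarith [not_le.1 h]
  have E3 : |(κ⁻¹ * ∫ t : ℝ, Gc r₁ r₂ g (pt t)) - ∫ t : ℝ, g (pt t)| ≤ ε₁ * (2 * (M + 1)) := by
    rw [← integral_const_mul, ← integral_sub ((modelsum hg hgc hr₁0 hr12.le).1.const_mul _) hgpt]
    refine abs_integral_le_integral_abs.trans ?_
    have hb : ∀ t : ℝ, |κ⁻¹ * Gc r₁ r₂ g (pt t) - g (pt t)| ≤
        (Icc (-(M + 1)) (M + 1)).indicator (fun _ => ε₁) t := by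
      intro t
      by_cases ht : t ∈ Icc (-(M + 1)) (M + 1)
      · rw [indicator_of_mem ht]
        exact hdiff _
      · rw [indicator_of_notMem ht, hfarG, abs_zero]
        have : |t| ≤ ‖pt t‖ := Complex.abs_im_le_norm (pt t)
        rw [mem_Icc, ← abs_le, not_le] at ht
        linarith
    refine (integral_mono_of_nonneg (Eventually.of_forall fun _ => abs_nonneg _) ?_
      (Eventually.of_forall hb)).trans ?_
    · rw [integrable_indicator_iff measurableSet_Icc]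
      exact integrableOn_const (by rw [Real.volume_Icc]; exact ENNReal.ofReal_ne_top)
    · rw [integral_indicator measurableSet_Icc, setIntegral_const, smul_eq_mul, Measure.real,
        Real.volume_Icc, ENNReal.toReal_ofReal (by linarith)]
      apply le_of_eq
      ring
  -- the sum of the errors
  have E3' : |B / (2 * π) * (κ⁻¹ * ∫ t : ℝ, Gc r₁ r₂ g (pt t)) - B / (2 * π) * ∫ t : ℝ, g (pt t)| ≤
      B / (2 * π) * (ε₁ * (2 * (M + 1))) := by
    rw [← mul_sub, abs_mul, abs_of_nonneg (by positivity)]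
    exact mul_le_mul_of_nonneg_left E3 (by positivity)
  have hfin : ε₁ * C₀ * B + B / (2 * π) * (ε₁ * (2 * (M + 1))) ≤ ε / 3 * B := by
    have e1 : ε₁ * C₀ * B + B / (2 * π) * (ε₁ * (2 * (M + 1))) =
        ε₁ * (C₀ + (2 * (M + 1)) / (2 * π)) * B := by ring
    rw [e1]
    refine mul_le_mul_of_nonneg_right ?_ hB.le
    have e2 : ε / 3 = ε₁ * (C₀ + 1 + (2 * (M + 1)) / (2 * π)) := by
      rw [hε₁]
      field_simp
    rw [e2]
    refine mul_le_mul_of_nonneg_left ?_ hε₁0.le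
    linarith
  have A1 := abs_le.1 E1
  have A2 := abs_le.1 E2
  have A3 := abs_le.1 E3'
  have : 0 < ε * B := by positivity
  rw [abs_le]
  constructor <;> linarith [A1.1, A1.2, A2.1, A2.2, A3.1, A3.2]

end Pool.Agent.H465.EQ
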