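import Pool.Agent.H465.EQ.G

/-!
# Functions without zeros in a disc
-/

set_option autoImplicit false

open MeasureTheory Metric Set Filter Topology
open scoped Real ENNReal

namespace Pool.Agent.H465.EQ

/-- a logarithm on a disc -/
lemma log_ball {f : ℂ → ℂ} {c : ℂ} {r : ℝ} (hr : 0 < r) (hf : DifferentiableOn ℂ f (ball c r))
    (h0 : ∀ z ∈ ball c r, f z ≠ 0) : ∃ h : ℂ → ℂ, DifferentiableOn ℂ h (ball c r) ∧ h c = 0 ∧
      ∀ z ∈ ball c r, f z = f c * Complex.exp (h z) := by
  have hcb : c ∈ ball c r := mem_ball_self hr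
  have hd : DifferentiableOn ℂ (fun z => deriv f z / f z) (ball c r) :=
    (hf.deriv isOpen_ball).div hf h0
  obtain ⟨g, hgc, hg⟩ := (hd.isExactOn_ball).with_val_at c 0
  refine ⟨g, fun z hz => (hg z hz).differentiableAt.differentiableWithinAt, hgc, fun z hz => ?_⟩
  have hφ : ∀ w ∈ ball c r, HasDerivAt (fun w => f w * Complex.exp (-g w)) 0 w := by
    intro w hw
    have h1 : HasDerivAt f (deriv f w) w :=
      (hf.differentiableAt (isOpen_ball.mem_nhds hw)).hasDerivAt
    have h2 := (hg w hw).fun_neg.cexp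
    refine (h1.mul h2).congr_deriv ?_
    have := h0 w hw
    field_simp
    ring
  have h3 := isOpen_ball.is_const_of_deriv_eq_zero (convex_ball c r).isPreconnected
    (fun w hw => (hφ w hw).differentiableAt.differentiableWithinAt)
    (fun w hw => (hφ w hw).deriv) hz hcb
  simp only [hgc, neg_zero, Complex.exp_zero, mul_one] at h3
  rw [← h3, mul_assoc, ← Complex.exp_add, neg_add_cancel, Complex.exp_zero, mul_one]

open Complex in
/-- three circles -/
lemma three {h : ℂ → ℂ} {r₁ r₃ R m M : ℝ} (h1 : 0 < r₁) (h13 : r₁ < r₃) (h3R : r₃ < R)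
    (hd : DifferentiableOn ℂ h (ball 0 R)) (hm : ∀ z : ℂ, ‖z‖ = r₁ → ‖h z‖ ≤ m)
    (hM : ∀ z : ℂ, ‖z‖ = r₃ → ‖h z‖ ≤ M) {z : ℂ} (hz1 : r₁ ≤ ‖z‖) (hz3 : ‖z‖ ≤ r₃) :
    ‖h z‖ ≤ m ^ (1 - (Real.log ‖z‖ - Real.log r₁) / (Real.log r₃ - Real.log r₁)) *
      M ^ ((Real.log ‖z‖ - Real.log r₁) / (Real.log r₃ - Real.log r₁)) := by
  have h3 : 0 < r₃ := h1.trans h13
  have hz0 : z ≠ 0 := norm_pos_iff.1 (h1.trans_le hz1)
  have hl : Real.log r₁ < Real.log r₃ := Real.log_lt_log h1 h13
  have hre : (Complex.log z).re = Real.log ‖z‖ := Complex.log_re z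
  have hcont : ContinuousOn h (closedBall 0 r₃) :=
    hd.continuousOn.mono (closedBall_subset_ball h3R)
  obtain ⟨C, hC⟩ := (isCompact_closedBall (0 : ℂ) r₃).exists_bound_of_continuousOn hcont
  have hmem : ∀ w : ℂ, w.re ≤ Real.log r₃ → ‖Complex.exp w‖ ≤ r₃ := by
    intro w hw
    rw [Complex.norm_exp]
    calc Real.exp w.re ≤ Real.exp (Real.log r₃) := Real.exp_le_exp.2 hw
      _ = r₃ := Real.exp_log h3
  have key := Complex.HadamardThreeLines.norm_le_interp_of_mem_verticalClosedStrip'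
    (f := fun w => h (Complex.exp w)) (z := Complex.log z) (a := m) (b := M) hl ?_ ?_ ?_ ?_ ?_
  · simp only [Complex.exp_log hz0, hre] at key
    exact key
  · rw [Complex.HadamardThreeLines.verticalClosedStrip, mem_preimage, hre]
    exact ⟨Real.log_le_log h1 hz1, Real.log_le_log (h1.trans_le hz1) hz3⟩
  · have hdiff : DifferentiableOn ℂ (fun w => h (Complex.exp w)) {w : ℂ | w.re < Real.log R} := by
      refine hd.comp Complex.differentiable_exp.differentiableOn fun w hw => ?_
      rw [mem_ball_zero_iff, Complex.norm_exp]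
      calc Real.exp w.re < Real.exp (Real.log R) := Real.exp_lt_exp.2 hw
        _ = R := Real.exp_log (h3.trans h3R)
    refine DifferentiableOn.diffContOnCl (hdiff.mono ?_)
    intro w hw
    have h5 : w ∈ re ⁻¹' Iic (Real.log r₃) := by
      refine closure_minimal ?_ (isClosed_Iic.preimage Complex.continuous_re) hw
      intro v hv
      exact hv.2.le
    exact lt_of_le_of_lt h5 (Real.log_lt_log h3 h3R)
  · refine ⟨C, ?_⟩
    rintro _ ⟨w, hw, rfl⟩
    exact hC _ (mem_closedBall_zero_iff.2 (hmem w hw.2))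
  · intro w hw
    refine hm _ ?_
    rw [Complex.norm_exp, show w.re = Real.log r₁ from hw, Real.exp_log h1]
  · intro w hw
    refine hM _ ?_
    rw [Complex.norm_exp, show w.re = Real.log r₃ from hw, Real.exp_log h3]

/-- a power of the logarithm is negligible -/
lemma pow_small {θ : ℝ} (hθ : θ < 1) {ε K : ℝ} (hε : 0 < ε) : ∃ C : ℝ, ∀ x : ℝ, 1 ≤ x →
    K * x ^ θ ≤ ε * x + C := by
  have h1 : Tendsto (fun x : ℝ => K * x ^ θ - ε * x) atTop atBot := by
    have h2 : Tendsto (fun x : ℝ => x * (K * x ^ (θ - 1) - ε)) atTop atBot := by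
      refine Tendsto.atTop_mul_neg (C := -ε) (by linarith) tendsto_id ?_
      have h3 : Tendsto (fun x : ℝ => x ^ (θ - 1)) atTop (𝓝 0) := by
        have := tendsto_rpow_neg_atTop (show 0 < 1 - θ by linarith)
        rwa [neg_sub] at this
      have h4 := (h3.const_mul K).sub_const ε
      rwa [mul_zero, zero_sub] at h4
    refine h2.congr' ?_
    filter_upwards [eventually_gt_atTop 0] with x hx
    have : x ^ θ = x * x ^ (θ - 1) := by
      rw [Real.rpow_sub_one hx.ne']
      field_simp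
    rw [this]
    ring
  obtain ⟨x₀, hx₀⟩ := (eventually_atTop.1 (h1.eventually_le_atBot 0))
  set X := max x₀ 1 with hX
  have hX1 : 1 ≤ X := le_max_right _ _
  refine ⟨|K| * X ^ |θ|, fun x hx => ?_⟩
  rcases le_or_gt x₀ x with h | h
  · have := hx₀ x h
    have h5 : 0 ≤ |K| * X ^ |θ| := by positivity
    linarith
  · have h6 : x ^ θ ≤ X ^ |θ| := by
      calc x ^ θ ≤ x ^ |θ| := Real.rpow_le_rpow_of_exponent_le hx (le_abs_self θ)
        _ ≤ X ^ |θ| := Real.rpow_le_rpow (by linarith) (h.le.trans (le_max_left _ _)) (abs_nonneg _)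
    have h7 : 0 ≤ x ^ θ := Real.rpow_nonneg (by linarith) _
    have h8 : K * x ^ θ ≤ |K| * X ^ |θ| := by
      calc K * x ^ θ ≤ |K| * x ^ θ := mul_le_mul_of_nonneg_right (le_abs_self K) h7
        _ ≤ _ := mul_le_mul_of_nonneg_left h6 (abs_nonneg _)
    nlinarith

/-- **Functions without zeros in a disc.**  If `f` has no zeros in a disc of radius `ρ`, is bounded
above and below in a disc of radius `1/4` and is at most `exp (A x)`, then `log |f|` is small compared
to `x` inside. -/
theorem small_log {ρ ρ' : ℝ} (hρ : 1 / 4 < ρ') (hρ' : ρ' < ρ) {ε A : ℝ} (hε : 0 < ε) (hA : 1 ≤ A) :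
    ∃ C : ℝ, ∀ x : ℝ, 1 ≤ x → ∀ (f : ℂ → ℂ) (c : ℂ), DifferentiableOn ℂ f (ball c ρ) →
      (∀ z ∈ ball c ρ, f z ≠ 0) → (∀ z ∈ ball c ρ, Real.log ‖f z‖ ≤ A * x) →
      (∀ z ∈ ball c (1 / 4), |Real.log ‖f z‖| ≤ A) →
      ∀ z ∈ closedBall c ρ', |Real.log ‖f z‖| ≤ ε * x + C := by
  set r₃ : ℝ := (ρ + ρ') / 2 with hr₃
  set r₄ : ℝ := (ρ + r₃) / 2 with hr₄
  have h3a : ρ' < r₃ := by rw [hr₃]; linarith
  have h3b : r₃ < ρ := by rw [hr₃]; linarith
  have h4a : r₃ < r₄ := by rw [hr₄]; linarith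
  have h4b : r₄ < ρ := by rw [hr₄]; linarith
  set θ : ℝ := (Real.log ρ' - Real.log (1 / 8)) / (Real.log r₃ - Real.log (1 / 8)) with hθ
  have hl1 : Real.log (1 / 8) < Real.log ρ' := Real.log_lt_log (by norm_num) (by linarith)
  have hl2 : Real.log ρ' < Real.log r₃ := Real.log_lt_log (by linarith) h3a
  have hθ0 : 0 ≤ θ := div_nonneg (by linarith) (by linarith)
  have hθ1 : θ < 1 := by
    rw [hθ, div_lt_one (by linarith)]
    linarith
  set K₀ : ℝ := 2 * (2 * A) * r₃ / (ρ - r₃) with hK₀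
  have hK₀0 : 0 ≤ K₀ := by
    rw [hK₀]
    have : 0 < ρ - r₃ := by linarith
    have : 0 < r₃ := by linarith
    positivity
  set K₁ : ℝ := max K₀ (4 * A) with hK₁
  have hK₁0 : 0 < K₁ := lt_of_lt_of_le (by linarith) (le_max_right _ _)
  obtain ⟨C, hC⟩ := pow_small hθ1 (K := K₁) hε
  refine ⟨A + (C + K₁), fun x hx f c hf h0 hup hed z hz => ?_⟩
  have hρ0 : 0 < ρ := by linarith
  obtain ⟨h, hh, hhc, hexp⟩ := log_ball hρ0 hf h0
  have hcb : c ∈ ball c ρ := mem_ball_self hρ0
  have hfc : 0 < ‖f c‖ := norm_pos_iff.2 (h0 c hcb)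
  have hre : ∀ w ∈ ball c ρ, (h w).re = Real.log ‖f w‖ - Real.log ‖f c‖ := by
    intro w hw
    rw [hexp w hw, norm_mul, Complex.norm_exp, Real.log_mul hfc.ne' (Real.exp_ne_zero _),
      Real.log_exp]
    ring
  have hec : |Real.log ‖f c‖| ≤ A := hed c (mem_ball_self (by norm_num))
  -- the translated function
  set k : ℂ → ℂ := fun w => h (c + w) with hk
  have htr : ∀ {r : ℝ} {w : ℂ}, w ∈ ball (0 : ℂ) r → c + w ∈ ball c r := by
    intro r w hw
    rw [mem_ball, dist_eq_norm] at hw ⊢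
    simpa using hw
  have hkd : DifferentiableOn ℂ k (ball 0 ρ) :=
    hh.comp ((differentiable_id.const_add c).differentiableOn) fun w hw => htr hw
  have hk0 : k 0 = 0 := by simp [hk, hhc]
  -- the large circle
  have hM : ∀ w : ℂ, ‖w‖ = r₃ → ‖k w‖ ≤ K₁ * x := by
    intro w hw
    have h1 := Complex.borelCaratheodory_zero (f := k) (M := 2 * A * x) (R := ρ) (z := w)
      (by nlinarith) hkd (fun v hv => ?_) hρ0 (by rw [mem_ball_zero_iff, hw]; exact h3b) hk0
    · rw [hw] at h1
      refine h1.trans ?_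
      have e1 : 2 * (2 * A * x) * r₃ / (ρ - r₃) = K₀ * x := by
        rw [hK₀]
        ring
      rw [e1]
      exact mul_le_mul_of_nonneg_right (le_max_left _ _) (by linarith)
    · show (k v).re ≤ 2 * A * x
      rw [hk]
      simp only
      rw [hre _ (htr hv)]
      have h2 := hup _ (htr hv)
      have h3 := (abs_le.1 hec).1
      nlinarith
  -- the small circle
  have hm : ∀ w : ℂ, ‖w‖ = 1 / 8 → ‖k w‖ ≤ K₁ := by
    intro w hw
    have h1 := Complex.borelCaratheodory_zero (f := k) (M := 2 * A) (R := 1 / 4) (z := w)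
      (by linarith) (hkd.mono (ball_subset_ball (by linarith))) (fun v hv => ?_) (by norm_num)
      (by rw [mem_ball_zero_iff, hw]; norm_num) hk0
    · rw [hw] at h1
      refine h1.trans (le_trans (le_of_eq ?_) (le_max_right _ _))
      ring
    · show (k v).re ≤ 2 * A
      rw [hk]
      simp only
      rw [hre _ (ball_subset_ball (by linarith) (htr hv))]
      have h2 := (abs_le.1 (hed _ (htr hv))).2
      have h3 := (abs_le.1 hec).1
      linarith
  -- the conclusion
  have hkz : ‖k (z - c)‖ ≤ ε * x + (C + K₁) := by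
    have hzn : ‖z - c‖ ≤ ρ' := by
      rw [mem_closedBall, dist_eq_norm] at hz
      exact hz
    rcases le_or_gt ‖z - c‖ (1 / 8) with h8 | h8
    · -- maximum principle replaced by a direct bound
      have h1 := Complex.borelCaratheodory_zero (f := k) (M := 2 * A) (R := 1 / 4) (z := z - c)
        (by linarith) (hkd.mono (ball_subset_ball (by linarith))) (fun v hv => ?_) (by norm_num)
        (by rw [mem_ball_zero_iff]; linarith) hk0
      · have h2 : 2 * (2 * A) * ‖z - c‖ / (1 / 4 - ‖z - c‖) ≤ K₁ := by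
          rw [div_le_iff₀ (by linarith)]
          have h3 : 4 * A ≤ K₁ := le_max_right _ _
          have h4 : (0 : ℝ) ≤ ‖z - c‖ := norm_nonneg _
          nlinarith
        have hCnn : 0 ≤ ε * x + C := by
          have h5 := hC x hx
          have h6 : 0 ≤ K₁ * x ^ θ := by positivity
          linarith
        linarith
      · show (k v).re ≤ 2 * A
        rw [hk]
        simp only
        rw [hre _ (ball_subset_ball (by linarith) (htr hv))]
        have h2 := (abs_le.1 (hed _ (htr hv))).2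
        have h3 := (abs_le.1 hec).1
        linarith
    · have h1 := three (h := k) (r₁ := 1 / 8) (r₃ := r₃) (R := ρ) (m := K₁) (M := K₁ * x)
        (by norm_num) (by linarith) h3b hkd hm hM (z := z - c) h8.le (by linarith)
      refine h1.trans ?_
      set t := (Real.log ‖z - c‖ - Real.log (1 / 8)) / (Real.log r₃ - Real.log (1 / 8)) with ht
      have ht0 : 0 ≤ t := by
        refine div_nonneg ?_ (by linarith)
        have := Real.log_le_log (by norm_num) h8.le
        linarith
      have htθ : t ≤ θ := by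
        rw [ht, hθ]
        refine div_le_div_of_nonneg_right ?_ (by linarith)
        have := Real.log_le_log (by linarith) hzn
        linarith
      have e1 : K₁ ^ (1 - t) * (K₁ * x) ^ t = K₁ * x ^ t := by
        rw [Real.mul_rpow hK₁0.le (by linarith), ← mul_assoc, ← Real.rpow_add hK₁0]
        simp
      rw [e1]
      have h2 : x ^ t ≤ x ^ θ := Real.rpow_le_rpow_of_exponent_le hx htθ
      have h3 := hC x hx
      have h4 : K₁ * x ^ t ≤ K₁ * x ^ θ := mul_le_mul_of_nonneg_left h2 hK₁0.le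
      linarith
  have hzb : z ∈ ball c ρ := closedBall_subset_ball hρ' hz
  have h5 := hre z hzb
  have h6 : |(h z).re| ≤ ‖k (z - c)‖ := by
    have : k (z - c) = h z := by simp [hk]
    rw [this]
    exact Complex.abs_re_le_norm _
  have h7 : Real.log ‖f z‖ = (h z).re + Real.log ‖f c‖ := by rw [h5]; ring
  rw [h7]
  calc |(h z).re + Real.log ‖f c‖| ≤ |(h z).re| + |Real.log ‖f c‖| := abs_add_le _ _
    _ ≤ _ := by linarith

end Pool.Agent.H465.EQ
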