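import Pool.Agent.H465.EQ.H

/-!
# The potential of one L-function
-/

set_option autoImplicit false

open MeasureTheory Metric Set Filter Topology
open scoped Real ENNReal ComplexConjugate

namespace Pool.Agent.H465.EQ

/-- `Λ` is the completed L-function, `F` the finite part, `R` the conductor -/
structure Mb (A R T : ℝ) (Λ F : ℂ → ℂ) : Prop where
  ent : Differentiable ℂ Λ
  sym : ∀ s : ℂ, ‖Λ (1 - conj s)‖ = ‖Λ s‖
  dF : DifferentiableOn ℂ F {s : ℂ | 1 / 2 < s.re}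
  rel : ∀ s : ℂ, 1 / 2 ≤ s.re → ‖s‖ ≤ T → ∃ γ : ℝ, Real.exp (-A) ≤ γ ∧ γ ≤ Real.exp A ∧
    ‖Λ s‖ = γ * R ^ (s.re / 2) * ‖F s‖
  up : ∀ s : ℂ, 1 / 2 ≤ s.re → ‖s‖ ≤ T → ‖F s‖ ≤ R ^ A
  edge : ∀ s : ℂ, 5 / 4 ≤ s.re → Real.exp (-A) ≤ ‖F s‖ ∧ ‖F s‖ ≤ Real.exp A

variable {A R T : ℝ} {Λ F : ℂ → ℂ}

lemma Mb.edge_log (h : Mb A R T Λ F) {s : ℂ} (hs : 5 / 4 ≤ s.re) : |Real.log ‖F s‖| ≤ A := by
  obtain ⟨h1, h2⟩ := h.edge s hs
  have h0 : 0 < ‖F s‖ := (Real.exp_pos _).trans_le h1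
  rw [abs_le]
  constructor
  · rw [Real.le_log_iff_exp_le h0]
    exact h1
  · rw [Real.log_le_iff_le_exp h0]
    exact h2

lemma Mb.ne (h : Mb A R T Λ F) (hR : 0 < R) {s : ℂ} (hs : 5 / 4 ≤ s.re) (hT : ‖s‖ ≤ T) :
    Λ s ≠ 0 := by
  obtain ⟨γ, h1, h2, h3⟩ := h.rel s (by linarith) hT
  have h4 := (h.edge s hs).1
  have h5 : 0 < γ := (Real.exp_pos _).trans_le h1
  have h6 : 0 < ‖F s‖ := (Real.exp_pos _).trans_le h4
  rw [← norm_pos_iff, h3]
  positivity

lemma Mb.F_ne (h : Mb A R T Λ F) {s : ℂ} (hs : 1 / 2 ≤ s.re) (hT : ‖s‖ ≤ T)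
    (h0 : Λ s ≠ 0) : F s ≠ 0 := by
  intro hF
  obtain ⟨γ, h1, h2, h3⟩ := h.rel s hs hT
  rw [hF, norm_zero, mul_zero, norm_eq_zero] at h3
  exact h0 h3

lemma Mb.log_rel (h : Mb A R T Λ F) (hR : 0 < R) {s : ℂ} (hs : 1 / 2 ≤ s.re) (hT : ‖s‖ ≤ T)
    (h0 : Λ s ≠ 0) : |Real.log ‖Λ s‖ - Real.log R * (U0 s + 1 / 4) - Real.log ‖F s‖| ≤ A := by
  obtain ⟨γ, h1, h2, h3⟩ := h.rel s hs hT
  have h5 : 0 < γ := (Real.exp_pos _).trans_le h1
  have h6 : 0 < ‖F s‖ := norm_pos_iff.2 (h.F_ne hs hT h0)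
  have h7 : 0 < R ^ (s.re / 2) := Real.rpow_pos_of_pos hR _
  have h8 : U0 s = (s.re - 1 / 2) / 2 := by
    unfold U0
    rw [abs_of_nonneg (by linarith)]
  rw [h3, Real.log_mul (by positivity) h6.ne', Real.log_mul h5.ne' h7.ne', Real.log_rpow hR, h8]
  have h9 : Real.log γ + s.re / 2 * Real.log R + Real.log ‖F s‖ -
      Real.log R * ((s.re - 1 / 2) / 2 + 1 / 4) - Real.log ‖F s‖ = Real.log γ := by ring
  rw [h9, abs_le]
  constructor
  · rw [Real.le_log_iff_exp_le h5]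
    exact h1
  · rw [Real.log_le_iff_le_exp h5]
    exact h2

lemma re_conj_sub (s : ℂ) : (1 - conj s).re = 1 - s.re := by simp

lemma norm_conj_sub (s : ℂ) : ‖1 - conj s‖ ≤ 1 + ‖s‖ := by
  calc ‖1 - conj s‖ ≤ ‖(1 : ℂ)‖ + ‖conj s‖ := norm_sub_le _ _
    _ = 1 + ‖s‖ := by rw [norm_one, Complex.norm_conj]

lemma U0_sym (s : ℂ) : U0 (1 - conj s) = U0 s := by
  unfold U0
  rw [re_conj_sub, show 1 - s.re - 1 / 2 = -(s.re - 1 / 2) by ring, abs_neg]

/-- the upper bound -/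
lemma Mb.log_up (h : Mb A R T Λ F) (hA : 1 ≤ A) (hR : 1 ≤ Real.log R) (hR0 : 0 < R) {s : ℂ}
    {T₁ : ℝ} (hs : ‖s‖ ≤ T₁) (hT : T₁ + 1 ≤ T) :
    Real.log ‖Λ s‖ ≤ (2 * A + T₁ + 1) * Real.log R := by
  have hT1 : 0 ≤ T₁ := (norm_nonneg _).trans hs
  by_cases h0 : Λ s = 0
  · rw [h0, norm_zero, Real.log_zero]
    nlinarith
  have key : ∀ w : ℂ, 1 / 2 ≤ w.re → ‖w‖ ≤ T₁ + 1 → Λ w ≠ 0 →
      Real.log ‖Λ w‖ ≤ (2 * A + T₁ + 1) * Real.log R := by
    intro w hw hwT hw0
    have h1 := (abs_le.1 (h.log_rel hR0 hw (hwT.trans hT) hw0)).2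
    have h2 : Real.log ‖F w‖ ≤ A * Real.log R := by
      rw [← Real.log_rpow hR0]
      exact Real.log_le_log (norm_pos_iff.2 (h.F_ne hw (hwT.trans hT) hw0))
        (h.up w hw (hwT.trans hT))
    have h3 : U0 w + 1 / 4 ≤ T₁ + 1 := by
      unfold U0
      rw [abs_of_nonneg (by linarith)]
      have := (Complex.abs_re_le_norm w).trans hwT
      have := (abs_le.1 this).2
      linarith
    have h4 : Real.log R * (U0 w + 1 / 4) ≤ (T₁ + 1) * Real.log R := by
      rw [mul_comm]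
      exact mul_le_mul_of_nonneg_right h3 (by linarith)
    have h5 : A ≤ A * Real.log R := by nlinarith
    nlinarith
  rcases le_or_gt (1 / 2) s.re with h1 | h1
  · exact key s h1 (by linarith) h0
  · rw [← h.sym s]
    refine key _ ?_ ((norm_conj_sub s).trans (by linarith)) ?_
    · rw [re_conj_sub]
      linarith
    · rw [← norm_pos_iff, h.sym s, norm_pos_iff]
      exact h0

lemma vol_ball_real (c : ℂ) {r : ℝ} (hr : 0 ≤ r) :
    (volume : Measure ℂ).real (ball c r) = π * r ^ 2 := by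
  rw [Measure.real, Complex.volume_ball, ENNReal.toReal_mul, ← ENNReal.ofReal_pow hr,
    ENNReal.toReal_ofReal (by positivity)]
  simp
  ring

lemma intOn_pot (hΛ : Differentiable ℂ Λ) {z₀ : ℂ} (h0 : Λ z₀ ≠ 0) (x : ℝ) (T₁ : ℝ) (c : ℂ) :
    IntegrableOn (fun z => |Real.log ‖Λ z‖ - x * (U0 z + 1 / 4)|) (closedBall c T₁) := by
  have h1 := (locInt hΛ h0).integrableOn_isCompact (isCompact_closedBall c T₁)
  have h2 : IntegrableOn (fun z => x * (U0 z + 1 / 4)) (closedBall c T₁) :=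
    (((continuous_U0.add continuous_const).const_mul x).locallyIntegrable).integrableOn_isCompact
      (isCompact_closedBall c T₁)
  exact (h1.sub h2).abs

lemma U0_le {z : ℂ} {T₁ : ℝ} (hz : ‖z‖ ≤ T₁) : U0 z + 1 / 4 ≤ T₁ + 1 := by
  unfold U0
  have h1 := (Complex.abs_re_le_norm z).trans hz
  have h2 : |z.re - 1 / 2| ≤ |z.re| + |(1 / 2 : ℝ)| := abs_sub _ _
  rw [abs_of_pos (show (0 : ℝ) < 1 / 2 by norm_num)] at h2
  have h3 := abs_nonneg z.re
  linarith

lemma U0_nonneg (z : ℂ) : 0 ≤ U0 z := by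
  unfold U0
  positivity

/-- **The crude bound.** -/
theorem L1all {T₁ : ℝ} (hT₁ : 0 ≤ T₁) (hA : 1 ≤ A) : ∃ C : ℝ, 0 ≤ C ∧ ∀ (R : ℝ) (Λ F : ℂ → ℂ),
    0 < R → 1 ≤ Real.log R → Mb A R (T₁ + 10) Λ F →
    ∫ z in closedBall (0 : ℂ) T₁, |Real.log ‖Λ z‖ - Real.log R * (U0 z + 1 / 4)| ≤
      C * Real.log R := by
  set M₀ : ℝ := 2 * A + (T₁ + 5) + 1 with hM₀
  have hM₀0 : 0 ≤ M₀ := by rw [hM₀]; linarith
  refine ⟨π * (T₁ + 3) ^ 2 * (2 * M₀ + 2 * A) + π * (T₁ + 3) ^ 2 * (T₁ + 1), by positivity,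
    fun R Λ F hR0 hR h => ?_⟩
  have h2n : ‖(2 : ℂ)‖ = 2 := by simp
  have h2 : Λ 2 ≠ 0 := h.ne hR0 (by norm_num) (by rw [h2n]; linarith)
  have hlow : -(2 * A) ≤ Real.log ‖Λ 2‖ := by
    have h3 := (abs_le.1 (h.log_rel hR0 (s := 2) (by norm_num) (by rw [h2n]; linarith) h2)).1
    have h4 := (abs_le.1 (h.edge_log (s := 2) (by norm_num))).1
    have h5 : 0 ≤ Real.log R * (U0 2 + 1 / 4) :=
      mul_nonneg (by linarith) (by linarith [U0_nonneg 2])
    linarith
  have hsub : closedBall (0 : ℂ) T₁ ⊆ ball (2 : ℂ) (T₁ + 3) := by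
    intro z hz
    rw [mem_closedBall_zero_iff] at hz
    rw [mem_ball, dist_eq_norm]
    calc ‖z - 2‖ ≤ ‖z‖ + ‖(2 : ℂ)‖ := norm_sub_le _ _
      _ < T₁ + 3 := by rw [h2n]; linarith
  obtain ⟨hi, hb⟩ := disc_L1 h.ent (c := 2) (r := T₁ + 3) (M := M₀ * Real.log R) (by linarith) h2
    (by positivity) (fun z hz => by
      refine h.log_up hA hR hR0 (T₁ := T₁ + 5) ?_ (by linarith)
      rw [mem_ball, dist_eq_norm] at hz
      calc ‖z‖ = ‖(z - 2) + 2‖ := by rw [sub_add_cancel]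
        _ ≤ ‖z - 2‖ + ‖(2 : ℂ)‖ := norm_add_le _ _
        _ ≤ T₁ + 5 := by rw [h2n]; linarith)
  have h6 : ∫ z in closedBall (0 : ℂ) T₁, |Real.log ‖Λ z‖| ≤
      π * (T₁ + 3) ^ 2 * (2 * M₀ + 2 * A) * Real.log R := by
    refine (setIntegral_mono_set hi.abs (Eventually.of_forall fun z => abs_nonneg _)
      hsub.eventuallyLE).trans (hb.trans ?_)
    rw [mul_assoc _ (2 * M₀ + 2 * A)]
    refine mul_le_mul_of_nonneg_left ?_ (by positivity)
    nlinarith
  have h7 : ∫ z in closedBall (0 : ℂ) T₁, Real.log R * (U0 z + 1 / 4) ≤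
      π * (T₁ + 3) ^ 2 * (T₁ + 1) * Real.log R := by
    have hint : IntegrableOn (fun z => Real.log R * (U0 z + 1 / 4)) (closedBall (0 : ℂ) T₁) :=
      (((continuous_U0.add continuous_const).const_mul _).locallyIntegrable).integrableOn_isCompact
        (isCompact_closedBall _ _)
    calc ∫ z in closedBall (0 : ℂ) T₁, Real.log R * (U0 z + 1 / 4) ≤
        ∫ z in closedBall (0 : ℂ) T₁, Real.log R * (T₁ + 1) := by
          refine setIntegral_mono_on hint (integrableOn_const (measure_closedBall_lt_top.ne))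
            measurableSet_closedBall fun z hz => ?_
          exact mul_le_mul_of_nonneg_left (U0_le (mem_closedBall_zero_iff.1 hz)) (by linarith)
      _ = (volume : Measure ℂ).real (closedBall (0 : ℂ) T₁) * (Real.log R * (T₁ + 1)) := by
          rw [setIntegral_const, smul_eq_mul]
      _ ≤ (π * (T₁ + 3) ^ 2) * (Real.log R * (T₁ + 1)) := by
          refine mul_le_mul_of_nonneg_right ?_ (by positivity)
          rw [← vol_ball_real 2 (by linarith)]
          exact measureReal_mono hsub (measure_ball_lt_top.ne)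
      _ = _ := by ring
  have h8 : IntegrableOn (fun z => |Real.log ‖Λ z‖|) (closedBall (0 : ℂ) T₁) :=
    ((locInt h.ent h2).integrableOn_isCompact (isCompact_closedBall _ _)).abs
  have h9 : IntegrableOn (fun z => Real.log R * (U0 z + 1 / 4)) (closedBall (0 : ℂ) T₁) :=
    (((continuous_U0.add continuous_const).const_mul _).locallyIntegrable).integrableOn_isCompact
      (isCompact_closedBall _ _)
  calc ∫ z in closedBall (0 : ℂ) T₁, |Real.log ‖Λ z‖ - Real.log R * (U0 z + 1 / 4)|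
      ≤ ∫ z in closedBall (0 : ℂ) T₁, (|Real.log ‖Λ z‖| + Real.log R * (U0 z + 1 / 4)) := by
        refine setIntegral_mono_on (intOn_pot h.ent h2 _ _ _) (h8.add h9)
          measurableSet_closedBall fun z _ => ?_
        refine (abs_sub _ _).trans ?_
        rw [abs_of_nonneg (show 0 ≤ Real.log R * (U0 z + 1 / 4) from
          mul_nonneg (by linarith) (by linarith [U0_nonneg z]))]
    _ = (∫ z in closedBall (0 : ℂ) T₁, |Real.log ‖Λ z‖|) +
        ∫ z in closedBall (0 : ℂ) T₁, Real.log R * (U0 z + 1 / 4) := integral_add h8 h9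
    _ ≤ _ := by linarith

/-- the pointwise bound -/
theorem point {δ ε : ℝ} (hδ : 0 < δ) (hδ1 : δ ≤ 1 / 10) (hε : 0 < ε) (hA : 1 ≤ A) :
    ∃ C : ℝ, 0 ≤ C ∧ ∀ (R T T₁ : ℝ) (Λ F : ℂ → ℂ), 0 < R → 1 ≤ Real.log R → Mb A R T Λ F →
      T₁ + 4 ≤ T → (∀ s : ℂ, 1 / 2 + δ < s.re → |s.im| ≤ T → Λ s ≠ 0) →
      ∀ z : ℂ, 2 * δ ≤ |z.re - 1 / 2| → ‖z‖ ≤ T₁ →
        |Real.log ‖Λ z‖ - Real.log R * (U0 z + 1 / 4)| ≤ ε * Real.log R + C := by
  obtain ⟨C, hC⟩ := small_log (ρ := 1 - δ) (ρ' := 1 - 2 * δ) (by linarith) (by linarith) hε hA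
  refine ⟨A + |C| + A, by positivity, fun R T T₁ Λ F hR0 hR h hT hz0 => ?_⟩
  have key : ∀ z : ℂ, 1 / 2 + 2 * δ ≤ z.re → ‖z‖ ≤ T₁ + 1 →
      |Real.log ‖Λ z‖ - Real.log R * (U0 z + 1 / 4)| ≤ ε * Real.log R + (A + |C| + A) := by
    intro z hz hzT
    have himz : |z.im| ≤ T₁ + 1 := (Complex.abs_im_le_norm z).trans hzT
    have h0 : Λ z ≠ 0 := hz0 z (by linarith) (by linarith)
    have h1 := h.log_rel hR0 (by linarith) (by linarith) h0
    have h2 : |Real.log ‖F z‖| ≤ ε * Real.log R + (|C| + A) := by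
      rcases le_or_gt (5 / 4) z.re with h5 | h5
      · have := h.edge_log h5
        have := abs_nonneg C
        nlinarith
      · set c : ℂ := ⟨3 / 2, z.im⟩ with hc
        have hball : ∀ w ∈ ball c (1 - δ), 1 / 2 + δ < w.re ∧ |w.im| ≤ T ∧ ‖w‖ ≤ T := by
          intro w hw
          rw [mem_ball, dist_eq_norm] at hw
          have h6 := (Complex.abs_re_le_norm (w - c)).trans_lt hw
          have h7 := (Complex.abs_im_le_norm (w - c)).trans_lt hw
          simp only [hc, Complex.sub_re, Complex.sub_im] at h6 h7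
          rw [abs_lt] at h6 h7
          have h8 := abs_le.1 himz
          refine ⟨by linarith [h6.1], abs_le.2 ⟨by linarith [h7.1], by linarith [h7.2]⟩, ?_⟩
          have h9 : c - z = ((3 / 2 - z.re : ℝ) : ℂ) := by
            apply Complex.ext <;> simp [hc]
          have h10 : ‖c - z‖ ≤ 1 := by
            rw [h9, Complex.norm_real, Real.norm_eq_abs, abs_le]
            constructor <;> linarith
          calc ‖w‖ = ‖(w - c) + (c - z) + z‖ := by congr 1; ring
            _ ≤ ‖(w - c) + (c - z)‖ + ‖z‖ := norm_add_le _ _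
            _ ≤ ‖w - c‖ + ‖c - z‖ + ‖z‖ := by gcongr; exact norm_add_le _ _
            _ ≤ T := by linarith
        have h11 := hC (Real.log R) hR F c
          (h.dF.mono fun w hw => by
            have := (hball w hw).1
            show 1 / 2 < w.re
            linarith)
          (fun w hw => h.F_ne (by linarith [(hball w hw).1]) (hball w hw).2.2
            (hz0 w (hball w hw).1 (hball w hw).2.1))
          (fun w hw => by
            rw [← Real.log_rpow hR0]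
            exact Real.log_le_log (norm_pos_iff.2 (h.F_ne (by linarith [(hball w hw).1])
              (hball w hw).2.2 (hz0 w (hball w hw).1 (hball w hw).2.1)))
              (h.up w (by linarith [(hball w hw).1]) (hball w hw).2.2))
          (fun w hw => by
            refine h.edge_log ?_
            rw [mem_ball, dist_eq_norm] at hw
            have h6 := (Complex.abs_re_le_norm (w - c)).trans_lt hw
            simp only [hc, Complex.sub_re] at h6
            rw [abs_lt] at h6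
            linarith [h6.1])
          z (by
            rw [mem_closedBall, dist_eq_norm]
            have h9 : z - c = ((z.re - 3 / 2 : ℝ) : ℂ) := by
              apply Complex.ext <;> simp [hc]
            rw [h9, Complex.norm_real, Real.norm_eq_abs, abs_le]
            constructor <;> linarith)
        have := le_abs_self C
        linarith
    have h3 := abs_le.1 h1
    have h4 := abs_le.1 h2
    rw [abs_le]
    constructor <;> linarith [h3.1, h3.2, h4.1, h4.2]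
  intro z hz hzT
  rcases le_abs.1 hz with h1 | h1
  · exact key z (by linarith) (by linarith)
  · have h2 := key (1 - conj z) (by rw [re_conj_sub]; linarith)
      ((norm_conj_sub z).trans (by linarith))
    rw [h.sym, U0_sym] at h2
    exact h2

end Pool.Agent.H465.EQ
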