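import Pool.Agent.H465.EQ.I

/-!
# The potential of one L-function without zeros off the line
-/

set_option autoImplicit false

open MeasureTheory Metric Set Filter Topology
open scoped Real ENNReal ComplexConjugate

namespace Pool.Agent.H465.EQ

variable {A : ℝ}

/-- **The potential of an L-function without zeros off the line.** -/
theorem L1good {T₁ : ℝ} (hT₁ : 0 ≤ T₁) (hA : 1 ≤ A) {ε : ℝ} (hε : 0 < ε) :
    ∃ δ C : ℝ, 0 < δ ∧ 0 ≤ C ∧ ∀ (R : ℝ) (Λ F : ℂ → ℂ), 0 < R → 1 ≤ Real.log R →
      Mb A R (T₁ + 10) Λ F →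
      (∀ s : ℂ, 1 / 2 + δ < s.re → |s.im| ≤ T₁ + 10 → Λ s ≠ 0) →
      ∫ z in closedBall (0 : ℂ) T₁, |Real.log ‖Λ z‖ - Real.log R * (U0 z + 1 / 4)| ≤
        ε * Real.log R + C := by
  have hpi := Real.pi_pos
  set M₀ : ℝ := 2 * A + (T₁ + 5) + 1 with hM₀
  have hM₀0 : 0 < M₀ := by rw [hM₀]; linarith
  -- the constants
  set P : ℝ := (2 * T₁ + 5) * 25 * π * (2 * M₀ + (T₁ + 6)) with hP
  have hP0 : 0 < P := by positivity
  set δ : ℝ := min (1 / 10) (ε / (4 * P)) with hδdef
  have hδ : 0 < δ := by positivity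
  have hδ1 : δ ≤ 1 / 10 := min_le_left _ _
  have hδP : δ * P ≤ ε / 4 := by
    have : δ ≤ ε / (4 * P) := min_le_right _ _
    calc δ * P ≤ ε / (4 * P) * P := mul_le_mul_of_nonneg_right this hP0.le
      _ = ε / 4 := by field_simp
  set V : ℝ := π * T₁ ^ 2 + 1 with hV
  have hV0 : 0 < V := by positivity
  set ε₁ : ℝ := ε / (4 * V) with hε₁
  have hε₁0 : 0 < ε₁ := by positivity
  obtain ⟨C₁, hC₁, hpt⟩ := point hδ hδ1 (ε := min ε₁ (1 / 4)) (by positivity) hA
  set K : ℕ := ⌈(T₁ + 1) / δ⌉₊ with hK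
  have hK1 : (T₁ + 1) / δ ≤ K := Nat.le_ceil _
  have hK2 : (K : ℝ) < (T₁ + 1) / δ + 1 := Nat.ceil_lt_add_one (by positivity)
  refine ⟨δ, V * C₁ + (2 * K + 1) * (π * (5 * δ) ^ 2 * (C₁ + 2 * A)), hδ, by positivity,
    fun R Λ F hR0 hR h hz0 => ?_⟩
  have hpt' := hpt R (T₁ + 10) (T₁ + 5) Λ F hR0 hR h (by linarith) hz0
  set x := Real.log R with hx
  have h2n : ‖(2 : ℂ)‖ = 2 := by simp
  have h2 : Λ 2 ≠ 0 := h.ne hR0 (by norm_num) (by rw [h2n]; linarith)
  set H : ℂ → ℝ := fun z => |Real.log ‖Λ z‖ - x * (U0 z + 1 / 4)| with hH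
  have hH0 : ∀ z, 0 ≤ H z := fun z => abs_nonneg _
  -- the centers
  set c : ℤ → ℂ := fun k => ⟨1 / 2 + 2 * δ, k * δ⟩ with hc
  set I : Finset ℤ := Finset.Icc (-(K : ℤ)) K with hI
  have hcI : ∀ k ∈ I, |(k : ℝ) * δ| ≤ T₁ + 2 := by
    intro k hk
    rw [hI, Finset.mem_Icc] at hk
    have h3 : |(k : ℝ)| ≤ K := by
      rw [abs_le]
      exact ⟨by exact_mod_cast hk.1, by exact_mod_cast hk.2⟩
    rw [abs_mul, abs_of_pos hδ]
    have h4 : (K : ℝ) * δ ≤ (T₁ + 1) + δ := by
      have := mul_le_mul_of_nonneg_right hK2.le hδ.le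
      have e : ((T₁ + 1) / δ + 1) * δ = (T₁ + 1) + δ := by field_simp
      linarith
    have := mul_le_mul_of_nonneg_right h3 hδ.le
    linarith
  have hcn : ∀ k ∈ I, ‖c k‖ ≤ T₁ + 3 := by
    intro k hk
    refine (Complex.norm_le_abs_re_add_abs_im _).trans ?_
    have h3 := hcI k hk
    simp only [hc]
    rw [abs_of_pos (by positivity)]
    linarith
  have hc0 : ∀ k ∈ I, Λ (c k) ≠ 0 := by
    intro k hk
    refine hz0 _ ?_ ?_
    · simp only [hc]
      linarith
    · have := hcI k hk
      simp only [hc]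
      linarith
  -- the discs
  have hdisc : ∀ k ∈ I, IntegrableOn H (ball (c k) (5 * δ)) ∧
      ∫ z in ball (c k) (5 * δ), H z ≤
        π * (5 * δ) ^ 2 * (2 * M₀ + (T₁ + 6)) * x + π * (5 * δ) ^ 2 * (C₁ + 2 * A) := by
    intro k hk
    have hsub : ∀ z ∈ ball (c k) (5 * δ), ‖z‖ ≤ T₁ + 5 := by
      intro z hz
      rw [mem_ball, dist_eq_norm] at hz
      calc ‖z‖ = ‖(z - c k) + c k‖ := by rw [sub_add_cancel]
        _ ≤ ‖z - c k‖ + ‖c k‖ := norm_add_le _ _
        _ ≤ T₁ + 5 := by linarith [hcn k hk]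
    obtain ⟨hi, hb⟩ := disc_L1 h.ent (c := c k) (r := 5 * δ) (M := M₀ * x) (by positivity)
      (hc0 k hk) (by positivity)
      (fun z hz => h.log_up hA hR hR0 (T₁ := T₁ + 5) (hsub z hz) (by linarith))
    have hiU : IntegrableOn (fun z => x * (U0 z + 1 / 4)) (ball (c k) (5 * δ)) :=
      ((((continuous_U0.add continuous_const).const_mul x).locallyIntegrable).integrableOn_isCompact
        (isCompact_closedBall (c k) (5 * δ))).mono_set ball_subset_closedBall
    have hHi : IntegrableOn H (ball (c k) (5 * δ)) := (hi.sub hiU).abs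
    refine ⟨hHi, ?_⟩
    have h3 : -(C₁) ≤ Real.log ‖Λ (c k)‖ := by
      have h4 := (abs_le.1 (hpt' (c k) (by
        simp only [hc]
        rw [show 1 / 2 + 2 * δ - 1 / 2 = 2 * δ by ring, abs_of_pos (by positivity)])
        (by linarith [hcn k hk]))).1
      have h5 := U0_nonneg (c k)
      have h6 : min ε₁ (1 / 4) ≤ 1 / 4 := min_le_right _ _
      nlinarith
    have h4 : ∫ z in ball (c k) (5 * δ), x * (U0 z + 1 / 4) ≤ π * (5 * δ) ^ 2 * (x * (T₁ + 6)) := by
      calc ∫ z in ball (c k) (5 * δ), x * (U0 z + 1 / 4) ≤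
          ∫ z in ball (c k) (5 * δ), x * (T₁ + 6) := by
            refine setIntegral_mono_on hiU (integrableOn_const (measure_ball_lt_top.ne))
              measurableSet_ball fun z hz => ?_
            refine mul_le_mul_of_nonneg_left ?_ (by linarith)
            have := U0_le (hsub z hz)
            linarith
        _ = _ := by rw [setIntegral_const, smul_eq_mul, vol_ball_real _ (by positivity)]
    calc ∫ z in ball (c k) (5 * δ), H z ≤
        ∫ z in ball (c k) (5 * δ), (|Real.log ‖Λ z‖| + x * (U0 z + 1 / 4)) := by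
          refine setIntegral_mono_on hHi (hi.abs.add hiU) measurableSet_ball fun z _ => ?_
          refine (abs_sub _ _).trans ?_
          rw [abs_of_nonneg (show 0 ≤ x * (U0 z + 1 / 4) from
            mul_nonneg (by linarith) (by linarith [U0_nonneg z]))]
      _ = (∫ z in ball (c k) (5 * δ), |Real.log ‖Λ z‖|) +
          ∫ z in ball (c k) (5 * δ), x * (U0 z + 1 / 4) := integral_add hi.abs hiU
      _ ≤ π * (5 * δ) ^ 2 * (2 * (M₀ * x) - Real.log ‖Λ (c k)‖) +
          π * (5 * δ) ^ 2 * (x * (T₁ + 6)) := add_le_add hb h4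
      _ ≤ π * (5 * δ) ^ 2 * (2 * (M₀ * x) + (C₁ + 2 * A)) +
          π * (5 * δ) ^ 2 * (x * (T₁ + 6)) := by
          gcongr
          linarith
      _ = _ := by ring
  -- the pointwise bound by a sum of indicators
  have hcover : ∀ z ∈ closedBall (0 : ℂ) T₁, H z ≤ (ε₁ * x + C₁) +
      ∑ k ∈ I, (ball (c k) (5 * δ)).indicator H z := by
    intro z hz
    rw [mem_closedBall_zero_iff] at hz
    have hsum0 : 0 ≤ ∑ k ∈ I, (ball (c k) (5 * δ)).indicator H z :=
      Finset.sum_nonneg fun k _ => indicator_nonneg (fun w _ => hH0 w) z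
    rcases le_or_gt (2 * δ) |z.re - 1 / 2| with h3 | h3
    · have h4 := hpt' z h3 (by linarith)
      have h5 : min ε₁ (1 / 4) * x ≤ ε₁ * x :=
        mul_le_mul_of_nonneg_right (min_le_left _ _) (by linarith)
      simp only [hH]
      linarith
    · set k : ℤ := ⌊z.im / δ⌋ with hk
      have hk1 : (k : ℝ) ≤ z.im / δ := Int.floor_le _
      have hk2 : z.im / δ < k + 1 := Int.lt_floor_add_one _
      have hk1' : (k : ℝ) * δ ≤ z.im := by rwa [le_div_iff₀ hδ] at hk1
      have hk2' : z.im < (k + 1) * δ := by rwa [div_lt_iff₀ hδ] at hk2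
      have him := (Complex.abs_im_le_norm z).trans hz
      rw [abs_le] at him
      have hkI : k ∈ I := by
        rw [hI, Finset.mem_Icc]
        have hd1 : T₁ / δ ≤ (T₁ + 1) / δ - 1 := by
          rw [le_sub_iff_add_le, ← sub_nonneg]
          have : (T₁ + 1) / δ - (T₁ / δ + 1) = (1 - δ) / δ := by field_simp; ring
          rw [this]
          exact div_nonneg (by linarith) hδ.le
        constructor
        · have h5 : -(K : ℝ) ≤ k := by
            have h6 : -(T₁ / δ) ≤ z.im / δ := by
              rw [← neg_div]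
              exact div_le_div_of_nonneg_right him.1 hδ.le
            linarith
          exact_mod_cast h5
        · have h5 : (k : ℝ) ≤ K := by
            have h6 : z.im / δ ≤ T₁ / δ := div_le_div_of_nonneg_right him.2 hδ.le
            linarith
          exact_mod_cast h5
      have hmem : z ∈ ball (c k) (5 * δ) := by
        rw [mem_ball, dist_eq_norm, Complex.norm_def, Complex.normSq_apply]
        rw [Real.sqrt_lt' (by positivity)]
        simp only [hc, Complex.sub_re, Complex.sub_im]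
        rw [abs_lt] at h3
        have h7 : |z.re - (1 / 2 + 2 * δ)| ≤ 4 * δ := by
          rw [abs_le]; constructor <;> linarith [h3.1, h3.2]
        have h8 : |z.im - k * δ| ≤ δ := by
          rw [abs_le]; constructor <;> linarith
        have h9 := sq_le_sq' (by linarith [(abs_le.1 h7).1]) (abs_le.1 h7).2
        have h10 := sq_le_sq' (by linarith [(abs_le.1 h8).1]) (abs_le.1 h8).2
        nlinarith
      have h5 : H z ≤ ∑ k ∈ I, (ball (c k) (5 * δ)).indicator H z := by
        have := Finset.single_le_sum (f := fun k => (ball (c k) (5 * δ)).indicator H z)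
          (fun k _ => indicator_nonneg (fun w _ => hH0 w) z) hkI
        simp only [indicator_of_mem hmem] at this
        exact this
      have h6 : 0 ≤ ε₁ * x + C₁ := by positivity
      linarith
  have hHint : IntegrableOn H (closedBall (0 : ℂ) T₁) := intOn_pot h.ent h2 _ _ _
  have hind : ∀ k ∈ I, Integrable ((ball (c k) (5 * δ)).indicator H) := by
    intro k hk
    rw [integrable_indicator_iff measurableSet_ball]
    exact (hdisc k hk).1
  have hvolT : (volume : Measure ℂ).real (closedBall (0 : ℂ) T₁) ≤ V := by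
    rw [Measure.real, Complex.volume_closedBall, ENNReal.toReal_mul, ← ENNReal.ofReal_pow hT₁,
      ENNReal.toReal_ofReal (by positivity)]
    simp only [ENNReal.coe_toReal, NNReal.coe_real_pi]
    rw [hV]
    linarith
  calc ∫ z in closedBall (0 : ℂ) T₁, H z
      ≤ ∫ z in closedBall (0 : ℂ) T₁, ((ε₁ * x + C₁) +
          ∑ k ∈ I, (ball (c k) (5 * δ)).indicator H z) := by
        refine setIntegral_mono_on hHint ?_ measurableSet_closedBall hcover
        refine (integrableOn_const (measure_closedBall_lt_top.ne)).add ?_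
        exact (integrable_finsetSum _ hind).integrableOn
    _ = (∫ _z in closedBall (0 : ℂ) T₁, (ε₁ * x + C₁)) +
          ∫ z in closedBall (0 : ℂ) T₁, ∑ k ∈ I, (ball (c k) (5 * δ)).indicator H z :=
        integral_add (integrableOn_const (measure_closedBall_lt_top.ne))
          (integrable_finsetSum _ hind).integrableOn
    _ ≤ V * (ε₁ * x + C₁) + ∑ k ∈ I, ∫ z in ball (c k) (5 * δ), H z := by
        refine add_le_add ?_ ?_
        · rw [setIntegral_const, smul_eq_mul]
          exact mul_le_mul_of_nonneg_right hvolT (by positivity)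
        · refine (setIntegral_le_integral (integrable_finsetSum _ hind)
            (Eventually.of_forall fun z => Finset.sum_nonneg fun k _ =>
              indicator_nonneg (fun w _ => hH0 w) z)).trans ?_
          rw [integral_finsetSum _ hind]
          refine Finset.sum_le_sum fun k _ => ?_
          rw [integral_indicator measurableSet_ball]
    _ ≤ V * (ε₁ * x + C₁) + ∑ _k ∈ I, (π * (5 * δ) ^ 2 * (2 * M₀ + (T₁ + 6)) * x +
          π * (5 * δ) ^ 2 * (C₁ + 2 * A)) := by
        exact add_le_add le_rfl (Finset.sum_le_sum fun k hk => (hdisc k hk).2)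
    _ = V * (ε₁ * x + C₁) + (2 * K + 1) * (π * (5 * δ) ^ 2 * (2 * M₀ + (T₁ + 6)) * x +
          π * (5 * δ) ^ 2 * (C₁ + 2 * A)) := by
        rw [Finset.sum_const, hI, Int.card_Icc, nsmul_eq_mul]
        congr 2
        have : ((K : ℤ) + 1 - -(K : ℤ)).toNat = 2 * K + 1 := by omega
        rw [this]
        push_cast
        ring
    _ ≤ ε * x + (V * C₁ + (2 * K + 1) * (π * (5 * δ) ^ 2 * (C₁ + 2 * A))) := by
        have e1 : V * ε₁ = ε / 4 := by rw [hε₁]; field_simp
        have e2 : (2 * (K : ℝ) + 1) * δ ≤ 2 * T₁ + 5 := by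
          have h3 : (K : ℝ) * δ ≤ (T₁ + 1) + δ := by
            have := mul_le_mul_of_nonneg_right hK2.le hδ.le
            have e : ((T₁ + 1) / δ + 1) * δ = (T₁ + 1) + δ := by field_simp
            linarith
          nlinarith
        have e3 : (2 * (K : ℝ) + 1) * (π * (5 * δ) ^ 2 * (2 * M₀ + (T₁ + 6)) * x) ≤
            ε / 4 * x := by
          have e4 : (2 * (K : ℝ) + 1) * (π * (5 * δ) ^ 2 * (2 * M₀ + (T₁ + 6)) * x) =
              ((2 * (K : ℝ) + 1) * δ) * (25 * π * (2 * M₀ + (T₁ + 6))) * δ * x := by ring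
          rw [e4]
          refine mul_le_mul_of_nonneg_right ?_ (by linarith)
          calc ((2 * (K : ℝ) + 1) * δ) * (25 * π * (2 * M₀ + (T₁ + 6))) * δ ≤
              (2 * T₁ + 5) * (25 * π * (2 * M₀ + (T₁ + 6))) * δ := by gcongr
            _ = δ * P := by rw [hP]; ring
            _ ≤ ε / 4 := hδP
        have hx0 : 0 ≤ x := by linarith
        have e5 : 0 ≤ ε / 2 * x := by positivity
        nlinarith

end Pool.Agent.H465.EQ
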