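import Pool.Agent.H465.EQ.G
import Pool.Agent.H465.EQ.J

/-!
# Families of L-functions
-/

set_option autoImplicit false

open MeasureTheory Metric Set Filter Topology
open scoped Real ENNReal ComplexConjugate

namespace Pool.Agent.H465.EQ

/-- the mean value inequality over discs -/
lemma sub_mean {f : ℂ → ℂ} (hf : Differentiable ℂ f) {c : ℂ} {r : ℝ} (hr : 0 < r) (hc : f c ≠ 0) :
    π * r ^ 2 * Real.log ‖f c‖ ≤ ∫ z in ball c r, Real.log ‖f z‖ := by
  obtain ⟨K, hK⟩ := (isCompact_closedBall c r).exists_bound_of_continuousOn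
    (f := f) hf.continuous.continuousOn
  set M : ℝ := Real.log (max K 1) with hM
  have hM1 : (0 : ℝ) < max K 1 := lt_of_lt_of_le one_pos (le_max_right _ _)
  have hM0 : 0 ≤ M := Real.log_nonneg (le_max_right _ _)
  have hexp : ((Real.exp (-M) : ℝ) : ℂ) ≠ 0 := by
    exact_mod_cast (Real.exp_pos _).ne'
  set h : ℂ → ℂ := fun z => ((Real.exp (-M) : ℝ) : ℂ) * f z with hh
  have hhd : Differentiable ℂ h := hf.const_mul _
  have hlog : ∀ z, f z ≠ 0 → Real.log ‖h z‖ = -M + Real.log ‖f z‖ := by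
    intro z hz
    rw [hh]
    simp only
    rw [norm_mul, Complex.norm_real, Real.norm_of_nonneg (Real.exp_pos _).le,
      Real.log_mul (Real.exp_pos _).ne' (norm_pos_iff.2 hz).ne', Real.log_exp]
  have hle : ∀ z ∈ closedBall c r, Real.log ‖f z‖ ≤ M := by
    intro z hz
    by_cases h0 : f z = 0
    · rw [h0, norm_zero, Real.log_zero]
      exact hM0
    · exact Real.log_le_log (norm_pos_iff.2 h0) ((hK z hz).trans (le_max_left _ _))
  have hb : ∀ z ∈ ball c r, Real.log ‖h z‖ ≤ 0 := by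
    intro z hz
    by_cases h0 : f z = 0
    · rw [hh]
      simp only
      rw [h0, mul_zero, norm_zero, Real.log_zero]
    · rw [hlog z h0]
      have := hle z (ball_subset_closedBall hz)
      linarith
  obtain ⟨h1, h2⟩ := disc_L1 hhd hr (c := c) (M := 0) (mul_ne_zero hexp hc) le_rfl hb
  rw [hlog c hc] at h2
  have hloc := (locInt hf hc).integrableOn_isCompact (isCompact_closedBall c r)
  have hint : IntegrableOn (fun z => Real.log ‖f z‖) (ball c r) :=
    hloc.mono_set ball_subset_closedBall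
  have hcst : IntegrableOn (fun _ : ℂ => M) (ball c r) :=
    integrableOn_const (measure_ball_lt_top.ne)
  have e1 : ∫ z in ball c r, |Real.log ‖h z‖| = ∫ z in ball c r, (M - Real.log ‖f z‖) := by
    refine integral_congr_ae ?_
    have hae : ∀ᵐ z ∂(volume.restrict (ball c r)), f z ≠ 0 := ae_restrict_of_ae (ae_ne hf hc)
    filter_upwards [hae, ae_restrict_mem measurableSet_ball] with z hz hzb
    rw [abs_of_nonpos (hb z hzb), hlog z hz]
    ring
  rw [e1, integral_sub hcst hint, setIntegral_const, smul_eq_mul, vol_ball_real _ hr.le] at h2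
  have : π * r ^ 2 * (2 * 0 - (-M + Real.log ‖f c‖)) = π * r ^ 2 * M -
    π * r ^ 2 * Real.log ‖f c‖ := by ring
  rw [this] at h2
  linarith

/-- a family -/
structure Fam {ι : Type} (A T : ℝ) (I : Finset ι) (R : ι → ℝ) (Λ F : ι → ℂ → ℂ) : Prop where
  pos : ∀ i ∈ I, 0 < R i
  lg : ∀ i ∈ I, 1 ≤ Real.log (R i)
  mb : ∀ i ∈ I, Mb A (R i) T (Λ i) (F i)

variable {ι : Type} {A T : ℝ} {I J : Finset ι} {R : ι → ℝ} {Λ F : ι → ℂ → ℂ}

lemma Fam.mono_T {T' : ℝ} (h : Fam A T I R Λ F) (hT : T' ≤ T) : Fam A T' I R Λ F :=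
  ⟨h.pos, h.lg, fun i hi => ⟨(h.mb i hi).ent, (h.mb i hi).sym, (h.mb i hi).dF,
    fun s h1 h2 => (h.mb i hi).rel s h1 (h2.trans hT),
    fun s h1 h2 => (h.mb i hi).up s h1 (h2.trans hT), (h.mb i hi).edge⟩⟩

/-- the logarithm of the conductor of the product -/
noncomputable def lR (I : Finset ι) (R : ι → ℝ) : ℝ := ∑ i ∈ I, Real.log (R i)

/-- the product -/
noncomputable def pf (I : Finset ι) (R : ι → ℝ) (Λ : ι → ℂ → ℂ) (z : ℂ) : ℂ :=
  ((Real.exp (-(lR I R / 4)) : ℝ) : ℂ) * ∏ i ∈ I, Λ i z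

lemma pf_diff (h : Fam A T I R Λ F) : Differentiable ℂ (pf I R Λ) := by
  refine Differentiable.const_mul ?_ _
  exact Differentiable.fun_finsetProd fun i hi => (h.mb i hi).ent

lemma pf_ne_iff {z : ℂ} : pf I R Λ z ≠ 0 ↔ ∀ i ∈ I, Λ i z ≠ 0 := by
  unfold pf
  rw [mul_ne_zero_iff, Finset.prod_ne_zero_iff]
  constructor
  · exact fun h => h.2
  · exact fun h => ⟨by exact_mod_cast (Real.exp_pos _).ne', h⟩

lemma log_pf {z : ℂ} (h : ∀ i ∈ I, Λ i z ≠ 0) : Real.log ‖pf I R Λ z‖ - lR I R * U0 z =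
    ∑ i ∈ I, (Real.log ‖Λ i z‖ - Real.log (R i) * (U0 z + 1 / 4)) := by
  unfold pf
  rw [norm_mul, norm_prod, Complex.norm_real, Real.norm_of_nonneg (Real.exp_pos _).le,
    Real.log_mul (Real.exp_pos _).ne', Real.log_exp, Real.log_prod, Finset.sum_sub_distrib,
    ← Finset.sum_mul]
  · unfold lR
    ring
  · intro i hi
    exact (norm_pos_iff.2 (h i hi)).ne'
  · exact Finset.prod_ne_zero_iff.2 fun i hi => (norm_pos_iff.2 (h i hi)).ne'

lemma two_ne (h : Fam A T I R Λ F) (hT : 2 ≤ T) : ∀ i ∈ I, Λ i 2 ≠ 0 := by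
  intro i hi
  refine (h.mb i hi).ne (h.pos i hi) ?_ ?_
  · norm_num
  · simpa using hT

/-- **The potential of a family.** -/
theorem fam_L1 {T₁ : ℝ} (hT₁ : 0 ≤ T₁) {A : ℝ} (hA : 1 ≤ A) {ε : ℝ} (hε : 0 < ε) :
    ∃ δ η : ℝ, 0 < δ ∧ 0 < η ∧ ∀ {ι : Type} (I J : Finset ι) (R : ι → ℝ) (Λ F : ι → ℂ → ℂ),
      J ⊆ I → Fam A (T₁ + 10) I R Λ F →
      (∀ i ∈ I, i ∉ J → ∀ s : ℂ, 1 / 2 + δ < s.re → |s.im| ≤ T₁ + 10 → Λ i s ≠ 0) →
      (I.card : ℝ) + lR J R ≤ η * lR I R →
      ∫ z in closedBall (0 : ℂ) T₁, |Real.log ‖pf I R Λ z‖ - lR I R * U0 z| ≤ ε * lR I R := by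
  classical
  obtain ⟨δ, C₂, hδ, hC₂, hgood⟩ := L1good hT₁ hA (ε := ε / 2) (by positivity)
  obtain ⟨C₁, hC₁, hall⟩ := L1all hT₁ hA
  refine ⟨δ, ε / (2 * (C₁ + C₂ + 1)), hδ, by positivity, ?_⟩
  intro ι I J R Λ F hJI h hne hcard
  have hB0 : 0 ≤ lR I R := Finset.sum_nonneg fun i hi => by linarith [h.lg i hi]
  have hJ0 : 0 ≤ lR J R := Finset.sum_nonneg fun i hi => by linarith [h.lg i (hJI hi)]
  have hΛ2 := two_ne h (by linarith)
  have hloc : ∀ i ∈ I, IntegrableOn (fun z => Real.log ‖Λ i z‖ - Real.log (R i) * (U0 z + 1 / 4))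
      (closedBall (0 : ℂ) T₁) := by
    intro i hi
    refine ((locInt (h.mb i hi).ent (hΛ2 i hi)).integrableOn_isCompact
      (isCompact_closedBall _ _)).sub ?_
    exact (((continuous_U0.add continuous_const).const_mul _).locallyIntegrable).integrableOn_isCompact
        (isCompact_closedBall _ _)
  have hae : ∀ᵐ z : ℂ, ∀ i ∈ I, Λ i z ≠ 0 := by
    rw [eventually_all_finset]
    exact fun i hi => ae_ne (h.mb i hi).ent (hΛ2 i hi)
  calc ∫ z in closedBall (0 : ℂ) T₁, |Real.log ‖pf I R Λ z‖ - lR I R * U0 z|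
      ≤ ∫ z in closedBall (0 : ℂ) T₁,
          ∑ i ∈ I, |Real.log ‖Λ i z‖ - Real.log (R i) * (U0 z + 1 / 4)| := by
        refine integral_mono_of_nonneg (Eventually.of_forall fun _ => abs_nonneg _) ?_ ?_
        · exact integrable_finsetSum _ fun i hi => (hloc i hi).abs
        · refine ae_restrict_of_ae ?_
          filter_upwards [hae] with z hz
          rw [log_pf hz]
          exact Finset.abs_sum_le_sum_abs _ _
    _ = ∑ i ∈ I, ∫ z in closedBall (0 : ℂ) T₁,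
          |Real.log ‖Λ i z‖ - Real.log (R i) * (U0 z + 1 / 4)| :=
        integral_finsetSum _ fun i hi => (hloc i hi).abs
    _ ≤ ∑ i ∈ I, ((ε / 2 * Real.log (R i) + C₂) +
          (if i ∈ J then C₁ * Real.log (R i) else 0)) := by
        refine Finset.sum_le_sum fun i hi => ?_
        by_cases hiJ : i ∈ J
        · rw [if_pos hiJ]
          have h1 := hall (R i) (Λ i) (F i) (h.pos i hi) (h.lg i hi) (h.mb i hi)
          have := h.lg i hi
          nlinarith
        · rw [if_neg hiJ, add_zero]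
          exact hgood (R i) (Λ i) (F i) (h.pos i hi) (h.lg i hi) (h.mb i hi) (hne i hi hiJ)
    _ = ε / 2 * lR I R + C₂ * I.card + C₁ * lR J R := by
        rw [Finset.sum_add_distrib, Finset.sum_add_distrib, ← Finset.mul_sum, Finset.sum_const,
          nsmul_eq_mul, ← Finset.sum_filter, Finset.filter_mem_eq_inter,
          Finset.inter_eq_right.2 hJI, ← Finset.mul_sum]
        unfold lR
        ring
    _ ≤ ε / 2 * lR I R + (C₁ + C₂ + 1) * ((I.card : ℝ) + lR J R) := by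
        have : (0 : ℝ) ≤ I.card := Nat.cast_nonneg _
        nlinarith
    _ ≤ ε / 2 * lR I R + (C₁ + C₂ + 1) * (ε / (2 * (C₁ + C₂ + 1)) * lR I R) := by
        gcongr
    _ = ε * lR I R := by
        field_simp
        ring

/-- **The zeros of a family.** -/
theorem fam_equid {g : ℂ → ℝ} (hg : Continuous g) (hgc : HasCompactSupport g) {A : ℝ}
    (hA : 1 ≤ A) {ε : ℝ} (hε : 0 < ε) :
    ∃ δ η T : ℝ, 0 < δ ∧ 0 < η ∧ ∀ {ι : Type} (I J : Finset ι) (R : ι → ℝ) (Λ F : ι → ℂ → ℂ),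
      J ⊆ I → Fam A T I R Λ F →
      (∀ i ∈ I, i ∉ J → ∀ s : ℂ, 1 / 2 + δ < s.re → |s.im| ≤ T → Λ i s ≠ 0) →
      (I.card : ℝ) + lR J R ≤ η * lR I R → 0 < lR I R →
      |(∑ᶠ u, mu (pf I R Λ) u * g u) - lR I R / (2 * π) * ∫ t : ℝ, g (pt t)| ≤ ε * lR I R := by
  obtain ⟨δ₀, M, hδ₀, heq⟩ := equid hg hgc hε
  obtain ⟨δ, η, hδ, hη, hL⟩ := fam_L1 (T₁ := max M 0) (le_max_right _ _) hA hδ₀
  refine ⟨δ, η, max M 0 + 10, hδ, hη, ?_⟩
  intro ι I J R Λ F hJI h hne hcard hpos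
  have h2 := two_ne h (by linarith [le_max_right M 0])
  have hd := pf_diff h
  have h2' : pf I R Λ 2 ≠ 0 := pf_ne_iff.2 h2
  refine heq (pf I R Λ) hd 2 h2' (lR I R) hpos ?_
  have h3 := hL I J R Λ F hJI h hne hcard
  refine le_trans (setIntegral_mono_set ?_ (Eventually.of_forall fun z => abs_nonneg _)
      (closedBall_subset_closedBall (le_max_left _ _)).eventuallyLE) h3
  exact (((locInt hd h2').integrableOn_isCompact (isCompact_closedBall _ _)).sub
      (((continuous_U0.locallyIntegrable.integrableOn_isCompact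
        (isCompact_closedBall _ _))).const_mul _)).abs

/-- **The size of a family.** -/
theorem fam_lind {T₁ : ℝ} (hT₁ : 0 ≤ T₁) {A : ℝ} (hA : 1 ≤ A) {ε : ℝ} (hε : 0 < ε) :
    ∃ δ η : ℝ, 0 < δ ∧ 0 < η ∧ ∀ {ι : Type} (I J : Finset ι) (R : ι → ℝ) (Λ F : ι → ℂ → ℂ),
      J ⊆ I → Fam A (T₁ + 11) I R Λ F →
      (∀ i ∈ I, i ∉ J → ∀ s : ℂ, 1 / 2 + δ < s.re → |s.im| ≤ T₁ + 11 → Λ i s ≠ 0) →
      (I.card : ℝ) + lR J R ≤ η * lR I R →
      ∀ s : ℂ, 1 / 2 ≤ s.re → ‖s‖ ≤ T₁ → ‖∏ i ∈ I, F i s‖ ≤ Real.exp (ε * lR I R) := by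
  have hpi := Real.pi_pos
  set r : ℝ := min 1 (ε / 2) with hr
  have hr0 : 0 < r := by positivity
  have hr1 : r ≤ 1 := min_le_left _ _
  obtain ⟨δ, η, hδ, hη, hL⟩ := fam_L1 (T₁ := T₁ + 1) (by positivity) hA
    (ε := π * r ^ 2 * (ε / 4)) (by positivity)
  refine ⟨δ, min η (ε / (4 * A)), hδ, by positivity, ?_⟩
  intro ι I J R Λ F hJI h hne hcard s hs hsT
  have hB0 : 0 ≤ lR I R := Finset.sum_nonneg fun i hi => by linarith [h.lg i hi]
  have hJ0 : 0 ≤ lR J R := Finset.sum_nonneg fun i hi => by linarith [h.lg i (hJI hi)]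
  by_cases hz : ∏ i ∈ I, F i s = 0
  · rw [hz, norm_zero]
    exact (Real.exp_pos _).le
  rw [← Real.log_le_iff_le_exp (norm_pos_iff.2 hz)]
  have hFne : ∀ i ∈ I, F i s ≠ 0 := Finset.prod_ne_zero_iff.1 hz
  have hrel : ∀ i ∈ I, Λ i s ≠ 0 := by
    intro i hi
    obtain ⟨γ, h1, h2, h3⟩ := (h.mb i hi).rel s hs (by linarith)
    have h5 : 0 < γ := (Real.exp_pos _).trans_le h1
    have h6 : 0 < ‖F i s‖ := norm_pos_iff.2 (hFne i hi)
    have h7 : 0 < R i ^ (s.re / 2) := Real.rpow_pos_of_pos (h.pos i hi) _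
    rw [← norm_pos_iff, h3]
    positivity
  have hd := pf_diff h
  have hpfs : pf I R Λ s ≠ 0 := pf_ne_iff.2 hrel
  -- the potential at `s`
  have h1 := sub_mean hd hr0 hpfs
  have hball : ball s r ⊆ closedBall (0 : ℂ) (T₁ + 1) := by
    intro z hz
    rw [mem_closedBall_zero_iff]
    rw [mem_ball, dist_eq_norm] at hz
    calc ‖z‖ = ‖(z - s) + s‖ := by rw [sub_add_cancel]
      _ ≤ ‖z - s‖ + ‖s‖ := norm_add_le _ _
      _ ≤ T₁ + 1 := by linarith
  have hiP : IntegrableOn (fun z => Real.log ‖pf I R Λ z‖) (closedBall (0 : ℂ) (T₁ + 1)) :=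
    (locInt hd hpfs).integrableOn_isCompact (isCompact_closedBall _ _)
  have hiU : IntegrableOn (fun z => lR I R * U0 z) (closedBall (0 : ℂ) (T₁ + 1)) :=
    ((continuous_U0.locallyIntegrable.integrableOn_isCompact
        (isCompact_closedBall _ _))).const_mul _
  have h2 : ∫ z in ball s r, (Real.log ‖pf I R Λ z‖ - lR I R * U0 z) ≤
      π * r ^ 2 * (ε / 4) * lR I R := by
    calc ∫ z in ball s r, (Real.log ‖pf I R Λ z‖ - lR I R * U0 z)
        ≤ ∫ z in ball s r, |Real.log ‖pf I R Λ z‖ - lR I R * U0 z| :=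
          integral_mono ((hiP.sub hiU).mono_set hball) ((hiP.sub hiU).mono_set hball).abs
            fun z => le_abs_self _
      _ ≤ ∫ z in closedBall (0 : ℂ) (T₁ + 1), |Real.log ‖pf I R Λ z‖ - lR I R * U0 z| :=
          setIntegral_mono_set (hiP.sub hiU).abs (Eventually.of_forall fun z => abs_nonneg _)
            hball.eventuallyLE
      _ ≤ _ := by
          refine hL I J R Λ F hJI (h.mono_T (by linarith)) (fun i hi hiJ s h1 h2 =>
            hne i hi hiJ s h1 (by linarith)) (hcard.trans ?_)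
          exact mul_le_mul_of_nonneg_right (min_le_left _ _) hB0
  have h3 : ∫ z in ball s r, lR I R * U0 z ≤ π * r ^ 2 * (lR I R * (U0 s + ε / 4)) := by
    calc ∫ z in ball s r, lR I R * U0 z ≤ ∫ z in ball s r, lR I R * (U0 s + ε / 4) := by
          refine setIntegral_mono_on (hiU.mono_set hball)
            (integrableOn_const (measure_ball_lt_top.ne)) measurableSet_ball fun z hz => ?_
          refine mul_le_mul_of_nonneg_left ?_ hB0
          rw [mem_ball, dist_eq_norm] at hz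
          have h4 : |z.re - s.re| ≤ ‖z - s‖ := Complex.abs_re_le_norm (z - s)
          have h5 : r ≤ ε / 2 := min_le_right _ _
          unfold U0
          have h6 : |z.re - 1 / 2| ≤ |z.re - s.re| + |s.re - 1 / 2| := by
            have := abs_add_le (z.re - s.re) (s.re - 1 / 2)
            rwa [sub_add_sub_cancel] at this
          linarith
      _ = _ := by rw [setIntegral_const, smul_eq_mul, vol_ball_real _ hr0.le]
  rw [integral_sub (hiP.mono_set hball) (hiU.mono_set hball)] at h2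
  have h4 : π * r ^ 2 * Real.log ‖pf I R Λ s‖ ≤ π * r ^ 2 * (lR I R * (U0 s + ε / 2)) := by
    calc π * r ^ 2 * Real.log ‖pf I R Λ s‖ ≤ ∫ z in ball s r, Real.log ‖pf I R Λ z‖ := h1
      _ ≤ π * r ^ 2 * (ε / 4) * lR I R + π * r ^ 2 * (lR I R * (U0 s + ε / 4)) := by linarith
      _ = _ := by ring
  have h5 : Real.log ‖pf I R Λ s‖ ≤ lR I R * (U0 s + ε / 2) :=
    le_of_mul_le_mul_left h4 (by positivity)
  -- comparison
  have h6 : Real.log ‖∏ i ∈ I, F i s‖ ≤ Real.log ‖pf I R Λ s‖ - lR I R * U0 s + A * I.card := by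
    rw [log_pf hrel, norm_prod, Real.log_prod fun i hi => (norm_pos_iff.2 (hFne i hi)).ne']
    calc ∑ i ∈ I, Real.log ‖F i s‖
        ≤ ∑ i ∈ I, ((Real.log ‖Λ i s‖ - Real.log (R i) * (U0 s + 1 / 4)) + A) := by
          refine Finset.sum_le_sum fun i hi => ?_
          have := (abs_le.1 ((h.mb i hi).log_rel (h.pos i hi) hs (by linarith) (hrel i hi))).1
          linarith
      _ = _ := by
          rw [Finset.sum_add_distrib, Finset.sum_const, nsmul_eq_mul]
          ring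
  have h7 : A * I.card ≤ ε / 4 * lR I R := by
    have h8 : (I.card : ℝ) ≤ ε / (4 * A) * lR I R := by
      calc (I.card : ℝ) ≤ min η (ε / (4 * A)) * lR I R := by linarith
        _ ≤ _ := mul_le_mul_of_nonneg_right (min_le_right _ _) hB0
    calc A * I.card ≤ A * (ε / (4 * A) * lR I R) := mul_le_mul_of_nonneg_left h8 (by linarith)
      _ = _ := by field_simp
  have h9 : 0 ≤ ε * lR I R := by positivity
  nlinarith

end Pool.Agent.H465.EQ
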