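import Pool.Agent.H465.EQ.K
import Pool.Graph.R_seed8.Y767.CA.Fc
import Pool.Graph.R_seed8.R399.TW.InstC

/-!
# L-functions with a functional equation
-/

set_option autoImplicit false

open MeasureTheory Metric Set Filter Topology
open scoped Real ENNReal ComplexConjugate

namespace Pool.Agent.H465.EQ

open Pool.Agent.Y767.CA (GGc FEc Gd PP GGc_ne HH_bound)
open H370.DL (refl analyticAt_refl)

variable {κ : Type} [Fintype κ] {R : ℝ} {μ : κ → ℂ} {F : ℂ → ℂ}

/-- the gamma factor has no poles at `s` and to the right of it -/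
def Gp (μ : κ → ℂ) (s : ℂ) : Prop := ∀ i, 0 < s.re + (μ i).re

omit [Fintype κ] in
lemma Gp_half (hμ : ∀ i, -1 / 2 < (μ i).re) {s : ℂ} (hs : 1 / 2 ≤ s.re) : Gp μ s :=
  fun i => by linarith [hμ i]

lemma isOpen_Gp : IsOpen {s : ℂ | Gp μ s} := by
  have : {s : ℂ | Gp μ s} = ⋂ i, {s : ℂ | 0 < s.re + (μ i).re} := by
    ext s; simp [Gp]
  rw [this]
  exact isOpen_iInter_of_finite fun i =>
    isOpen_lt continuous_const (Complex.continuous_re.add continuous_const)

lemma R_ne (hR : 0 < R) (z : ℂ) : (R : ℂ) ^ z ≠ 0 :=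
  Complex.cpow_ne_zero_iff.2 (Or.inl (Complex.ofReal_ne_zero.2 hR.ne'))

lemma GGc_diffAt (hR : 0 < R) {s : ℂ} (hs : Gp μ s) : DifferentiableAt ℂ (GGc R μ) s := by
  have hRc : (R : ℂ) ≠ 0 := Complex.ofReal_ne_zero.2 hR.ne'
  have : GGc R μ = fun s : ℂ => (R : ℂ) ^ (s / 2) * ∏ i, Complex.Gammaℝ (s + μ i) := rfl
  rw [this]
  refine DifferentiableAt.mul (DifferentiableAt.const_cpow (by fun_prop) (Or.inl hRc)) ?_
  refine DifferentiableAt.fun_finsetProd fun i _ => ?_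
  have h1 : 0 < (s + μ i).re := by rw [Complex.add_re]; exact hs i
  have h2 : DifferentiableAt ℂ (fun z : ℂ => z + μ i) s := by fun_prop
  exact DifferentiableAt.comp (g := Complex.Gammaℝ) (f := fun z : ℂ => z + μ i) s
    (Pool.Agent.R399.TW.gam_diff h1) h2

lemma GGc_ne' (hR : 0 < R) {s : ℂ} (hs : Gp μ s) : GGc R μ s ≠ 0 := by
  unfold Pool.Agent.Y767.CA.GGc
  refine mul_ne_zero (R_ne hR _) (Finset.prod_ne_zero_iff.2 fun i _ => ?_)
  exact Complex.Gammaℝ_ne_zero_of_re_pos (by rw [Complex.add_re]; exact hs i)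

/-- the product -/
noncomputable def GF (R : ℝ) (μ : κ → ℂ) (F : ℂ → ℂ) (s : ℂ) : ℂ := GGc R μ s * F s

lemma GF_an (hR : 0 < R) (hF : Differentiable ℂ F) {s : ℂ} (hs : Gp μ s) :
    AnalyticAt ℂ (GF R μ F) s := by
  have ho := isOpen_Gp (μ := μ)
  have hd : DifferentiableOn ℂ (GF R μ F) {s : ℂ | Gp μ s} := fun z hz =>
    ((GGc_diffAt hR hz).mul (hF z)).differentiableWithinAt
  exact hd.analyticAt (ho.mem_nhds hs)

lemma osc (s : ℂ) : 1 - conj (1 - conj s) = s := by simp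

lemma osc_re (s : ℂ) : (1 - conj s).re = 1 - s.re := by simp

/-- the functional equation without exceptions -/
lemma fe_all (hR : 0 < R) (hF : FEc R μ F) : ∃ w : ℂ, ‖w‖ = 1 ∧ ∀ s : ℂ, Gp μ s →
    Gp μ (1 - conj s) → GF R μ F s = w * refl (GF R μ F) s := by
  obtain ⟨w, hw, hfe⟩ := hF.fe
  refine ⟨w, hw, fun s h1 h2 => ?_⟩
  have hcl : Continuous fun t : ℝ => s + (t : ℂ) * Complex.I := by fun_prop
  have t0 : Tendsto (fun t : ℝ => s + (t : ℂ) * Complex.I) (𝓝[≠] 0) (𝓝 s) := by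
    have := hcl.tendsto 0
    simp only [Complex.ofReal_zero, zero_mul, add_zero] at this
    exact this.mono_left nhdsWithin_le_nhds
  have t1 : Tendsto (fun t : ℝ => GF R μ F (s + (t : ℂ) * Complex.I)) (𝓝[≠] 0)
      (𝓝 (GF R μ F s)) := ((GF_an hR hF.diff h1).continuousAt.tendsto).comp t0
  have t2 : Tendsto (fun t : ℝ => w * refl (GF R μ F) (s + (t : ℂ) * Complex.I)) (𝓝[≠] 0)
      (𝓝 (w * refl (GF R μ F) s)) :=
    (((analyticAt_refl (GF_an hR hF.diff h2)).continuousAt.tendsto).comp t0).const_mul w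
  refine tendsto_nhds_unique t1 (t2.congr' ?_)
  have hfin : ∀ᶠ t in 𝓝[≠] (0 : ℝ), ∀ i, t ≠ -(s.im + (μ i).im) := by
    rw [Filter.eventually_all]
    intro i
    rcases eq_or_ne (-(s.im + (μ i).im)) 0 with h | h
    · rw [h]
      exact self_mem_nhdsWithin
    · exact nhdsWithin_le_nhds (isOpen_ne.mem_nhds (Ne.symm h))
  filter_upwards [hfin] with t ht
  refine (hfe _ fun i h => ht i ?_).symm
  simp at h
  linarith

open Classical in
/-- the completed function -/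
noncomputable def Lam (R : ℝ) (μ : κ → ℂ) (F : ℂ → ℂ) (w s : ℂ) : ℂ :=
  if 1 / 2 ≤ s.re then GF R μ F s else w * refl (GF R μ F) s

lemma Lam_eq (hμ : ∀ i, -1 / 2 < (μ i).re) {w : ℂ}
    (hw : ∀ s : ℂ, Gp μ s → Gp μ (1 - conj s) → GF R μ F s = w * refl (GF R μ F) s) {s : ℂ}
    (hs : Gp μ s) : Lam R μ F w s = GF R μ F s := by
  unfold Lam
  split_ifs with h
  · rfl
  · refine (hw s hs (Gp_half hμ ?_)).symm
    rw [osc_re]
    linarith

lemma Lam_eq' (hμ : ∀ i, -1 / 2 < (μ i).re) {w : ℂ}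
    (hw : ∀ s : ℂ, Gp μ s → Gp μ (1 - conj s) → GF R μ F s = w * refl (GF R μ F) s) {s : ℂ}
    (hs : Gp μ (1 - conj s)) : Lam R μ F w s = w * refl (GF R μ F) s := by
  unfold Lam
  split_ifs with h
  · exact hw s (Gp_half hμ h) hs
  · rfl

lemma Lam_diff (hR : 0 < R) (hμ : ∀ i, -1 / 2 < (μ i).re) (hF : Differentiable ℂ F) {w : ℂ}
    (hw : ∀ s : ℂ, Gp μ s → Gp μ (1 - conj s) → GF R μ F s = w * refl (GF R μ F) s) :
    Differentiable ℂ (Lam R μ F w) := by
  intro s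
  rcases le_or_gt (1 / 2) s.re with h | h
  · have h1 : Gp μ s := Gp_half hμ h
    have h2 : Lam R μ F w =ᶠ[𝓝 s] GF R μ F := by
      filter_upwards [isOpen_Gp.mem_nhds h1] with z hz
      exact Lam_eq hμ hw hz
    exact (h2.differentiableAt_iff).2 (GF_an hR hF h1).differentiableAt
  · have h1 : Gp μ (1 - conj s) := Gp_half hμ (by rw [osc_re]; linarith)
    have h2 : Lam R μ F w =ᶠ[𝓝 s] fun z => w * refl (GF R μ F) z := by
      have hc : Continuous fun z : ℂ => 1 - conj z := continuous_const.sub Complex.continuous_conj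
      filter_upwards [(isOpen_Gp.preimage hc).mem_nhds h1] with z hz
      exact Lam_eq' hμ hw hz
    exact (h2.differentiableAt_iff).2
      ((analyticAt_refl (GF_an hR hF h1)).differentiableAt.const_mul w)

lemma Lam_sym (hμ : ∀ i, -1 / 2 < (μ i).re) {w : ℂ} (hw1 : ‖w‖ = 1)
    (hw : ∀ s : ℂ, Gp μ s → Gp μ (1 - conj s) → GF R μ F s = w * refl (GF R μ F) s) (s : ℂ) :
    ‖Lam R μ F w (1 - conj s)‖ = ‖Lam R μ F w s‖ := by
  rcases le_or_gt (1 / 2) s.re with h | h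
  · have h1 : Gp μ s := Gp_half hμ h
    have h2 : Gp μ (1 - conj (1 - conj s)) := by rwa [osc]
    rw [Lam_eq hμ hw h1, Lam_eq' hμ hw h2, norm_mul, hw1, one_mul]
    unfold H370.DL.refl
    rw [osc, RCLike.norm_conj]
  · have h1 : Gp μ (1 - conj s) := Gp_half hμ (by rw [osc_re]; linarith)
    rw [Lam_eq hμ hw h1, Lam_eq' hμ hw h1, norm_mul, hw1, one_mul]
    unfold H370.DL.refl
    rw [RCLike.norm_conj]

/-- bounds for the gamma factor -/
lemma gam_two (hμ : ∀ i, -1 / 2 < (μ i).re) (T : ℝ) : ∃ A : ℝ, 0 ≤ A ∧ ∀ s : ℂ, 1 / 2 ≤ s.re →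
    ‖s‖ ≤ T → Real.exp (-A) ≤ ‖∏ i, Complex.Gammaℝ (s + μ i)‖ ∧
      ‖∏ i, Complex.Gammaℝ (s + μ i)‖ ≤ Real.exp A := by
  set K : Set ℂ := closedBall (0 : ℂ) T ∩ {s : ℂ | 1 / 2 ≤ s.re} with hK
  have hKc : IsCompact K := (isCompact_closedBall (0 : ℂ) T).inter_right
    (isClosed_le continuous_const Complex.continuous_re)
  have hne : ∀ s ∈ K, ∏ i, Complex.Gammaℝ (s + μ i) ≠ 0 := by
    intro s hs
    refine Finset.prod_ne_zero_iff.2 fun i _ => ?_
    refine Complex.Gammaℝ_ne_zero_of_re_pos ?_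
    have : 1 / 2 ≤ s.re := hs.2
    rw [Complex.add_re]
    linarith [hμ i]
  have hcont : ContinuousOn (fun s : ℂ => Real.log ‖∏ i, Complex.Gammaℝ (s + μ i)‖) K := by
    refine ContinuousOn.log ?_ fun s hs => (norm_pos_iff.2 (hne s hs)).ne'
    refine ContinuousOn.norm ?_
    refine continuousOn_finsetProd _ fun i _ => ?_
    intro s hs
    have h1 : 0 < (s + μ i).re := by
      have : 1 / 2 ≤ s.re := hs.2
      rw [Complex.add_re]
      linarith [hμ i]
    have h2 : DifferentiableAt ℂ (fun z : ℂ => z + μ i) s := by fun_prop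
    exact (DifferentiableAt.comp (g := Complex.Gammaℝ) (f := fun z : ℂ => z + μ i) s
      (Pool.Agent.R399.TW.gam_diff h1) h2).continuousAt.continuousWithinAt
  obtain ⟨A, hA⟩ := hKc.exists_bound_of_continuousOn hcont
  refine ⟨|A|, abs_nonneg _, fun s h1 h2 => ?_⟩
  have hsK : s ∈ K := ⟨mem_closedBall_zero_iff.2 h2, h1⟩
  have h3 := (hA s hsK).trans (le_abs_self A)
  rw [Real.norm_eq_abs, abs_le] at h3
  have h0 := norm_pos_iff.2 (hne s hsK)
  exact ⟨(Real.le_log_iff_exp_le h0).1 h3.1, (Real.log_le_iff_le_exp h0).1 h3.2⟩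

/-- what is needed about one L-function -/
structure Lf (μ : κ → ℂ) (B R : ℝ) (F : ℂ → ℂ) : Prop where
  fec : FEc R μ F
  edge : ∀ s : ℂ, 5 / 4 ≤ s.re → Real.exp (-B) ≤ ‖F s‖ ∧ ‖F s‖ ≤ Real.exp B

/-- **The completed L-function.** -/
theorem mb_of_Lf (hμ : ∀ i, -1 / 2 < (μ i).re) {B : ℝ} (hB : 0 ≤ B) (T : ℝ) (hT : 0 ≤ T) :
    ∃ A : ℝ, 1 ≤ A ∧ ∀ (R : ℝ) (F : ℂ → ℂ), 1 ≤ R → Lf μ B R F →
      ∃ Λ : ℂ → ℂ, Mb A (Real.exp 1 * R) T Λ F ∧ ∀ s : ℂ, Gp μ s → Λ s = GGc R μ s * F s := by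
  obtain ⟨A₁, hA₁, hgam⟩ := gam_two hμ T
  set V : ℝ := 3 + ∑ i, ‖μ i‖ with hV
  have hV0 : 0 ≤ V := by positivity
  have hPP : PP V μ := by
    intro i
    refine ⟨(hμ i).le, ?_⟩
    have := Finset.single_le_sum (f := fun i => ‖μ i‖) (fun i _ => norm_nonneg _)
      (Finset.mem_univ i)
    rw [hV]
    linarith
  set d := Fintype.card κ with hd
  -- the constant for the upper bound
  set C : ℝ := Real.exp B * (1 + V) ^ d * (T + 3) ^ d with hC
  have hC0 : 0 < C := by positivity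
  set A : ℝ := 1 + A₁ + B + |Real.log C| + 1 + T with hA
  have hlC := abs_nonneg (Real.log C)
  have hA1 : 1 ≤ A := by linarith
  refine ⟨A, hA1, fun R F hRge h => ?_⟩
  have hR : 0 < R := by linarith
  obtain ⟨w, hw1, hw⟩ := fe_all hR h.fec
  have he1 := Real.exp_pos 1
  set R' : ℝ := Real.exp 1 * R with hR'
  have hR'0 : 0 < R' := by positivity
  have hRR' : R ≤ R' := by
    have := Real.add_one_le_exp 1
    nlinarith
  have hR'ge : 1 ≤ R' := hRge.trans hRR'
  have hR'1 : 1 ≤ Real.log R' := by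
    rw [hR', Real.log_mul he1.ne' hR.ne', Real.log_exp]
    linarith [Real.log_nonneg hRge]
  refine ⟨Lam R μ F w, ⟨Lam_diff hR hμ h.fec.diff hw, Lam_sym hμ hw1 hw,
    h.fec.diff.differentiableOn, ?_, ?_, ?_⟩, fun s hs => Lam_eq hμ hw hs⟩
  · intro s h1 h2
    obtain ⟨g1, g2⟩ := hgam s h1 h2
    have hre : s.re ≤ T := (le_abs_self _).trans ((Complex.abs_re_le_norm s).trans h2)
    refine ⟨‖∏ i, Complex.Gammaℝ (s + μ i)‖ * Real.exp (-(s.re / 2)), ?_, ?_, ?_⟩
    · calc Real.exp (-A) ≤ Real.exp (-A₁) * Real.exp (-(s.re / 2)) := by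
            rw [← Real.exp_add]
            exact Real.exp_le_exp.2 (by linarith)
        _ ≤ _ := mul_le_mul_of_nonneg_right g1 (Real.exp_pos _).le
    · calc ‖∏ i, Complex.Gammaℝ (s + μ i)‖ * Real.exp (-(s.re / 2)) ≤
            Real.exp A₁ * Real.exp (-(s.re / 2)) :=
              mul_le_mul_of_nonneg_right g2 (Real.exp_pos _).le
        _ = Real.exp (A₁ + -(s.re / 2)) := by rw [← Real.exp_add]
        _ ≤ Real.exp A := Real.exp_le_exp.2 (by linarith)
    · rw [Lam_eq hμ hw (Gp_half hμ h1)]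
      unfold GF Pool.Agent.Y767.CA.GGc
      rw [norm_mul, norm_mul, Complex.norm_cpow_eq_rpow_re_of_pos hR]
      have : (s / 2).re = s.re / 2 := by simp
      rw [this, hR', Real.mul_rpow he1.le hR.le, ← Real.exp_mul, one_mul]
      have e : Real.exp (-(s.re / 2)) * Real.exp (s.re / 2) = 1 := by
        rw [← Real.exp_add, neg_add_cancel, Real.exp_zero]
      calc R ^ (s.re / 2) * ‖∏ i, Complex.Gammaℝ (s + μ i)‖ * ‖F s‖ =
            (Real.exp (-(s.re / 2)) * Real.exp (s.re / 2)) *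
              (R ^ (s.re / 2) * ‖∏ i, Complex.Gammaℝ (s + μ i)‖ * ‖F s‖) := by rw [e, one_mul]
        _ = _ := by ring
  · intro s h1 h2
    have hRA : ∀ x : ℝ, x ≤ A → R' ^ x ≤ R' ^ A := fun x hx =>
      Real.rpow_le_rpow_of_exponent_le hR'ge hx
    have hexp : ∀ x : ℝ, 0 ≤ x → Real.exp x ≤ R' ^ x := by
      intro x hx
      rw [Real.rpow_def_of_pos hR'0]
      exact Real.exp_le_exp.2 (by nlinarith)
    rcases le_total s.re (3 / 2) with h3 | h3
    · have e1 := HH_bound (N := 1) (P := R) (B := Real.exp B) le_rfl hRge hV0 hPP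
        (by rw [one_mul]; exact h.fec) (fun s hs => (h.edge s (by linarith)).2) s (by linarith) h3
      unfold Pool.Agent.Y772.FE.HH at e1
      rw [norm_mul, norm_mul, norm_inv, norm_pow, Complex.norm_cpow_eq_rpow_re_of_pos hR,
        mul_one, ← hd] at e1
      have hre : ((s - 3 / 2) / 2).re = (s.re - 3 / 2) / 2 := by
        have : ((s - 3 / 2) / 2).re = (s - 3 / 2).re / 2 := by simp
        rw [this, Complex.sub_re]; norm_num
      rw [hre] at e1
      have e2 : 0 < ‖s + 3‖ := by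
        have h5 := (le_abs_self _).trans (Complex.abs_re_le_norm (s + 3))
        have h6 : (s + 3).re = s.re + 3 := by simp
        rw [h6] at h5
        linarith
      have e3 : ‖s + 3‖ ^ d ≤ (T + 3) ^ d := by
        apply pow_le_pow_left₀ (norm_nonneg _)
        refine (norm_add_le _ _).trans ?_
        have : ‖(3 : ℂ)‖ = 3 := by simp
        rw [this]
        linarith
      have e4 : R ^ (-1 : ℝ) ≤ R ^ ((s.re - 3 / 2) / 2) :=
        Real.rpow_le_rpow_of_exponent_le hRge (by linarith)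
      have e5 : ‖F s‖ * R ^ (-1 : ℝ) * (‖s + 3‖ ^ d)⁻¹ ≤ Real.exp B * (1 + V) ^ d := by
        refine le_trans ?_ e1
        gcongr
      have e6 : ‖F s‖ = (‖F s‖ * R ^ (-1 : ℝ) * (‖s + 3‖ ^ d)⁻¹) * R * ‖s + 3‖ ^ d := by
        rw [Real.rpow_neg_one]
        have : ‖s + 3‖ ^ d ≠ 0 := by positivity
        field_simp
      rw [e6]
      calc (‖F s‖ * R ^ (-1 : ℝ) * (‖s + 3‖ ^ d)⁻¹) * R * ‖s + 3‖ ^ d
          ≤ (Real.exp B * (1 + V) ^ d) * R' * (T + 3) ^ d := by gcongr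
        _ = R' * C := by rw [hC]; ring
        _ ≤ R' ^ (1 : ℝ) * R' ^ |Real.log C| := by
            rw [Real.rpow_one]
            refine mul_le_mul_of_nonneg_left ?_ hR'0.le
            refine le_trans ?_ (hexp _ hlC)
            rw [← Real.log_le_iff_le_exp hC0]
            exact le_abs_self _
        _ = R' ^ (1 + |Real.log C|) := by rw [Real.rpow_add hR'0]
        _ ≤ R' ^ A := hRA _ (by rw [hA]; linarith)
    · exact (h.edge s (by linarith)).2.trans ((hexp B hB).trans (hRA B (by linarith)))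
  · intro s hs
    obtain ⟨h1, h2⟩ := h.edge s hs
    exact ⟨le_trans (Real.exp_le_exp.2 (by linarith)) h1, h2.trans (Real.exp_le_exp.2 (by linarith))⟩

/-- the zeros of the completed L-function -/
lemma mu_Lam {A T : ℝ} {Λ : ℂ → ℂ} (hR : 0 < R) (hF : Differentiable ℂ F)
    (h : Mb A (Real.exp 1 * R) T Λ F) (he : ∀ s : ℂ, Gp μ s → Λ s = GGc R μ s * F s) {s : ℂ}
    (hs : Gp μ s) : analyticOrderAt Λ s = analyticOrderAt F s := by
  have h1 : Λ =ᶠ[𝓝 s] fun z => GGc R μ z * F z := by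
    filter_upwards [isOpen_Gp.mem_nhds hs] with z hz
    exact he z hz
  have hGa : AnalyticAt ℂ (GGc R μ) s := by
    have hd : DifferentiableOn ℂ (GGc R μ) {s : ℂ | Gp μ s} := fun z hz =>
      (GGc_diffAt hR hz).differentiableWithinAt
    exact hd.analyticAt (isOpen_Gp.mem_nhds hs)
  rw [analyticOrderAt_congr h1]
  have h2 : (fun z => GGc R μ z * F z) = GGc R μ * F := rfl
  rw [h2, analyticOrderAt_mul hGa (hF.analyticAt s), hGa.analyticOrderAt_eq_zero.2 (GGc_ne' hR hs),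
    zero_add]

end Pool.Agent.H465.EQ
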