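import Pool.Agent.H465.EQ.L

/-!
# Families of L-functions with a functional equation
-/

set_option autoImplicit false

open MeasureTheory Metric Set Filter Topology
open scoped Real ENNReal ComplexConjugate

namespace Pool.Agent.H465.EQ

open Pool.Agent.Y767.CA (GGc FEc)

/-- the logarithm of the conductor of the product, with a correction -/
noncomputable def lC {ι : Type} (I : Finset ι) (R : ι → ℝ) : ℝ := ∑ i ∈ I, (1 + Real.log (R i))

lemma lR_exp {ι : Type} (I : Finset ι) (R : ι → ℝ) (h : ∀ i ∈ I, 1 ≤ R i) :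
    lR I (fun i => Real.exp 1 * R i) = lC I R := by
  unfold lR lC
  refine Finset.sum_congr rfl fun i hi => ?_
  have : R i ≠ 0 := by
    have := h i hi
    linarith
  rw [Real.log_mul (Real.exp_pos 1).ne' this, Real.log_exp]

open Classical in
/-- the sum over the zeros in the strip -/
noncomputable def zs (G : ℂ → ℂ) (g : ℂ → ℝ) : ℝ :=
  ∑ᶠ u : ℂ, if -1 / 2 < u.re ∧ u.re < 3 / 2 then (analyticOrderNatAt G u : ℝ) * g u else 0

/-- the choice of the completed functions -/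
lemma choice {κ : Type} [Fintype κ] {μ : κ → ℂ} (hμ : ∀ i, -1 / 2 < (μ i).re) {B : ℝ}
    (hB : 0 ≤ B) (T : ℝ) (hT : 0 ≤ T) : ∃ A : ℝ, 1 ≤ A ∧ ∀ {ι : Type} (I : Finset ι) (R : ι → ℝ)
      (F : ι → ℂ → ℂ), (∀ i ∈ I, 1 ≤ R i) → (∀ i ∈ I, Lf μ B (R i) (F i)) →
      ∃ Λ : ι → ℂ → ℂ, Fam A T I (fun i => Real.exp 1 * R i) Λ F ∧
        ∀ i ∈ I, ∀ s : ℂ, Gp μ s → Λ i s = GGc (R i) μ s * F i s := by
  obtain ⟨A, hA, h⟩ := mb_of_Lf hμ hB T hT
  refine ⟨A, hA, ?_⟩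
  intro ι I R F hR hL
  have hex : ∀ i, ∃ Λ : ℂ → ℂ, i ∈ I → (Mb A (Real.exp 1 * R i) T Λ (F i) ∧
      ∀ s : ℂ, Gp μ s → Λ s = GGc (R i) μ s * F i s) := by
    intro i
    by_cases hi : i ∈ I
    · obtain ⟨Λ, h1, h2⟩ := h (R i) (F i) (hR i hi) (hL i hi)
      exact ⟨Λ, fun _ => ⟨h1, h2⟩⟩
    · exact ⟨fun _ => 0, fun h => absurd h hi⟩
  choose Λ hΛ using hex
  refine ⟨Λ, ⟨fun i hi => ?_, fun i hi => ?_, fun i hi => (hΛ i hi).1⟩,
    fun i hi => (hΛ i hi).2⟩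
  · have := hR i hi
    have := Real.exp_pos 1
    positivity
  · have h1 := hR i hi
    rw [Real.log_mul (Real.exp_pos 1).ne' (by linarith), Real.log_exp]
    linarith [Real.log_nonneg h1]

lemma mu_pf {κ : Type} [Fintype κ] {μ : κ → ℂ} (hμ : ∀ i, 1 / 2 ≤ (μ i).re) {A T : ℝ} {ι : Type}
    {I : Finset ι} {R : ι → ℝ} {Λ F : ι → ℂ → ℂ} (hR : ∀ i ∈ I, 1 ≤ R i)
    (hF : ∀ i ∈ I, Differentiable ℂ (F i))
    (h : Fam A T I (fun i => Real.exp 1 * R i) Λ F)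
    (he : ∀ i ∈ I, ∀ s : ℂ, Gp μ s → Λ i s = GGc (R i) μ s * F i s) (u : ℂ)
    (hu : -1 / 2 < u.re) :
    mu (pf I (fun i => Real.exp 1 * R i) Λ) u = analyticOrderNatAt (fun s => ∏ i ∈ I, F i s) u := by
  have hG : Gp μ u := fun i => by linarith [hμ i]
  unfold mu analyticOrderNatAt
  congr 2
  set c : ℂ := ((Real.exp (-(lR I (fun i => Real.exp 1 * R i) / 4)) : ℝ) : ℂ) with hc
  have hc0 : c ≠ 0 := by
    rw [hc]
    exact_mod_cast (Real.exp_pos _).ne'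
  have h1 : pf I (fun i => Real.exp 1 * R i) Λ =ᶠ[𝓝 u]
      (fun z => c * ∏ i ∈ I, GGc (R i) μ z) * fun z => ∏ i ∈ I, F i z := by
    filter_upwards [isOpen_Gp.mem_nhds hG] with z hz
    unfold pf
    rw [Pi.mul_apply, mul_assoc, ← Finset.prod_mul_distrib, ← hc]
    congr 1
    exact Finset.prod_congr rfl fun i hi => he i hi z hz
  have hGd : DifferentiableOn ℂ (fun z => c * ∏ i ∈ I, GGc (R i) μ z) {s : ℂ | Gp μ s} := by
    intro z hz
    refine DifferentiableAt.differentiableWithinAt ?_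
    refine DifferentiableAt.const_mul ?_ c
    refine DifferentiableAt.fun_finsetProd fun i hi => ?_
    exact GGc_diffAt (by linarith [hR i hi]) hz
  have hGa : AnalyticAt ℂ (fun z => c * ∏ i ∈ I, GGc (R i) μ z) u :=
    hGd.analyticAt (isOpen_Gp.mem_nhds hG)
  have hFd : Differentiable ℂ fun z => ∏ i ∈ I, F i z := Differentiable.fun_finsetProd hF
  have hne : c * ∏ i ∈ I, GGc (R i) μ u ≠ 0 :=
    mul_ne_zero hc0 (Finset.prod_ne_zero_iff.2 fun i hi => GGc_ne' (by linarith [hR i hi]) hG)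
  rw [analyticOrderAt_congr h1, analyticOrderAt_mul hGa (hFd.analyticAt u),
    hGa.analyticOrderAt_eq_zero.2 hne, zero_add]

lemma zs_eq {κ : Type} [Fintype κ] {μ : κ → ℂ} (hμ : ∀ i, 1 / 2 ≤ (μ i).re) {A : ℝ} {ι : Type}
    {I : Finset ι} {R : ι → ℝ} {Λ F : ι → ℂ → ℂ} (hR : ∀ i ∈ I, 1 ≤ R i)
    (hF : ∀ i ∈ I, Differentiable ℂ (F i)) {M : ℝ} {g : ℂ → ℝ} (hM : ∀ z, M < ‖z‖ → g z = 0)
    (h : Fam A (M + 1) I (fun i => Real.exp 1 * R i) Λ F)
    (he : ∀ i ∈ I, ∀ s : ℂ, Gp μ s → Λ i s = GGc (R i) μ s * F i s) :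
    (∑ᶠ u, mu (pf I (fun i => Real.exp 1 * R i) Λ) u * g u) =
      zs (fun s => ∏ i ∈ I, F i s) g := by
  unfold zs
  refine finsum_congr fun u => ?_
  by_cases hgu : g u = 0
  · rw [hgu, mul_zero]
    split_ifs <;> simp
  have huM : ‖u‖ ≤ M := by
    by_contra h'
    exact hgu (hM u (not_le.1 h'))
  have hlam : ∀ v : ℂ, 3 / 2 ≤ v.re → ‖v‖ ≤ M + 1 → ∀ i ∈ I, Λ i v ≠ 0 := by
    intro v hv hvM i hi
    exact (h.mb i hi).ne (h.pos i hi) (by linarith) hvM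
  split_ifs with hu
  · rw [mu_pf hμ hR hF h he u hu.1]
  · have h0 : pf I (fun i => Real.exp 1 * R i) Λ u ≠ 0 := by
      rw [pf_ne_iff]
      intro i hi
      rw [not_and_or, not_lt, not_lt] at hu
      rcases hu with hu | hu
      · rw [← norm_pos_iff, ← (h.mb i hi).sym u, norm_pos_iff]
        refine hlam _ ?_ ((norm_conj_sub u).trans (by linarith)) i hi
        rw [osc_re]
        linarith
      · exact hlam u hu (by linarith) i hi
    have : mu (pf I (fun i => Real.exp 1 * R i) Λ) u = 0 := by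
      by_contra h1
      exact h0 (mu_ne (pf_diff h) h1)
    rw [this, zero_mul]

/-- **Equidistribution for families.** -/
theorem lf_equid {κ : Type} [Fintype κ] {μ : κ → ℂ} (hμ : ∀ i, 1 / 2 ≤ (μ i).re) {B : ℝ}
    (hB : 0 ≤ B) {g : ℂ → ℝ} (hg : Continuous g) (hgc : HasCompactSupport g) {ε : ℝ}
    (hε : 0 < ε) :
    ∃ δ η T : ℝ, 0 < δ ∧ 0 < η ∧ 0 ≤ T ∧ ∀ {ι : Type} (I J : Finset ι) (R : ι → ℝ)
      (F : ι → ℂ → ℂ), J ⊆ I → (∀ i ∈ I, 1 ≤ R i) → (∀ i ∈ I, Lf μ B (R i) (F i)) →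
      (∀ i ∈ I, i ∉ J → ∀ s : ℂ, 1 / 2 + δ < s.re → |s.im| ≤ T → F i s ≠ 0) →
      (I.card : ℝ) + lC J R ≤ η * lC I R → 0 < lC I R →
      |zs (fun s => ∏ i ∈ I, F i s) g - lC I R / (2 * π) * ∫ t : ℝ, g (pt t)| ≤ ε * lC I R := by
  obtain ⟨M₀, hM₀⟩ := hgc.isCompact.isBounded.subset_closedBall (0 : ℂ)
  have hM : ∀ z, max M₀ 0 < ‖z‖ → g z = 0 := fun z hz =>
    image_eq_zero_of_notMem_tsupport fun h => by
      have := mem_closedBall_zero_iff.1 (hM₀ h)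
      have := le_max_left M₀ 0
      linarith
  -- the constants depend on each other: first the region, then the constant `A`
  have hμ' : ∀ i, -1 / 2 < (μ i).re := fun i => by linarith [hμ i]
  obtain ⟨δ₀, M, hδ₀, heq⟩ := equid hg hgc hε
  set T₁ : ℝ := max (max M M₀) 0 with hT₁
  have hT₁0 : 0 ≤ T₁ := le_max_right _ _
  have hT₁M : M ≤ T₁ := (le_max_left _ _).trans (le_max_left _ _)
  have hT₁M₀ : max M₀ 0 ≤ T₁ := max_le ((le_max_right _ _).trans (le_max_left _ _)) hT₁0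
  obtain ⟨A, hA, hch⟩ := choice hμ' hB (T₁ + 10) (by linarith)
  obtain ⟨δ, η, hδ, hη, hL⟩ := fam_L1 (T₁ := T₁) hT₁0 hA hδ₀
  refine ⟨δ, η, T₁ + 10, hδ, hη, by linarith, ?_⟩
  intro ι I J R F hJI hR hLf hne hcard hpos
  obtain ⟨Λ, hΛ, he⟩ := hch I R F hR hLf
  have hJR : ∀ i ∈ J, 1 ≤ R i := fun i hi => hR i (hJI hi)
  have h1 := lR_exp I R hR
  have h1' := lR_exp J R hJR
  have hd := pf_diff hΛ
  have h2 := two_ne hΛ (by linarith)
  have h2' : pf I (fun i => Real.exp 1 * R i) Λ 2 ≠ 0 := pf_ne_iff.2 h2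
  have h3 := hL I J (fun i => Real.exp 1 * R i) Λ F hJI hΛ (fun i hi hiJ s hs1 hs2 => by
    rw [he i hi s (Gp_half hμ' (by linarith))]
    exact mul_ne_zero (GGc_ne' (by linarith [hR i hi]) (Gp_half hμ' (by linarith)))
      (hne i hi hiJ s hs1 hs2)) (by rw [h1, h1']; exact hcard)
  have h4 := heq (pf I (fun i => Real.exp 1 * R i) Λ) hd 2 h2'
    (lR I (fun i => Real.exp 1 * R i)) (by rw [h1]; exact hpos) (by
      refine le_trans (setIntegral_mono_set ?_ (Eventually.of_forall fun z => abs_nonneg _)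
        (closedBall_subset_closedBall hT₁M).eventuallyLE) h3
      exact (((locInt hd h2').integrableOn_isCompact (isCompact_closedBall _ _)).sub
        (((continuous_U0.locallyIntegrable.integrableOn_isCompact
          (isCompact_closedBall _ _))).const_mul _)).abs)
  rw [zs_eq hμ hR (fun i hi => (hLf i hi).fec.diff) hM
    (hΛ.mono_T (by linarith)) he, h1] at h4
  exact h4

/-- **The Lindelöf bound for families.** -/
theorem lf_lind {κ : Type} [Fintype κ] {μ : κ → ℂ} (hμ : ∀ i, 1 / 2 ≤ (μ i).re) {B : ℝ}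
    (hB : 0 ≤ B) {T₁ : ℝ} (hT₁ : 0 ≤ T₁) {ε : ℝ} (hε : 0 < ε) :
    ∃ δ η T : ℝ, 0 < δ ∧ 0 < η ∧ 0 ≤ T ∧ ∀ {ι : Type} (I J : Finset ι) (R : ι → ℝ)
      (F : ι → ℂ → ℂ), J ⊆ I → (∀ i ∈ I, 1 ≤ R i) → (∀ i ∈ I, Lf μ B (R i) (F i)) →
      (∀ i ∈ I, i ∉ J → ∀ s : ℂ, 1 / 2 + δ < s.re → |s.im| ≤ T → F i s ≠ 0) →
      (I.card : ℝ) + lC J R ≤ η * lC I R →
      ∀ s : ℂ, 1 / 2 ≤ s.re → ‖s‖ ≤ T₁ → ‖∏ i ∈ I, F i s‖ ≤ Real.exp (ε * lC I R) := by
  have hμ' : ∀ i, -1 / 2 < (μ i).re := fun i => by linarith [hμ i]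
  obtain ⟨A, hA, hch⟩ := choice hμ' hB (T₁ + 11) (by linarith)
  obtain ⟨δ, η, hδ, hη, hL⟩ := fam_lind hT₁ hA hε
  refine ⟨δ, η, T₁ + 11, hδ, hη, by linarith, ?_⟩
  intro ι I J R F hJI hR hLf hne hcard s hs hsT
  obtain ⟨Λ, hΛ, he⟩ := hch I R F hR hLf
  have hJR : ∀ i ∈ J, 1 ≤ R i := fun i hi => hR i (hJI hi)
  have h1 := lR_exp I R hR
  have h1' := lR_exp J R hJR
  have h3 := hL I J (fun i => Real.exp 1 * R i) Λ F hJI hΛ (fun i hi hiJ s hs1 hs2 => by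
    rw [he i hi s (Gp_half hμ' (by linarith))]
    exact mul_ne_zero (GGc_ne' (by linarith [hR i hi]) (Gp_half hμ' (by linarith)))
      (hne i hi hiJ s hs1 hs2)) (by rw [h1, h1']; exact hcard) s hs hsT
  rwa [h1] at h3

end Pool.Agent.H465.EQ
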